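import Pool.Agent.Lib.MP_938ce2_ag_h99x.K08

/-!
A level is removed with the help of a class.
-/

set_option autoImplicit false
set_option linter.style.haveILetI false
set_option linter.unusedSectionVars false

open Finset

namespace Pool.Agent.Lib.MP_938ce2_ag_h99x

open Pool.Agent.Lib.MP_938ce2_ag_h99 Pool.Agent.Lib.MP_938ce2_ag_h6
open Pool.Agent.Lib.MP_938ce2_ag_h99t Pool.Agent.Lib.MP_938ce2_ag_h99v

variable {m : ℕ} [NeZero m]

private lemma Om0_sub (F E : ZMod m → ℤ) (L : Finset ℕ) (x0 : ℕ) :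
    Om0 (F - E) L x0 = Om0 F L x0 - Om0 E L x0 := by
  unfold Om0 val
  rw [← sum_sub_distrib]
  rfl

/-- the common part of the two statements -/
private theorem rem_aux {X : AddSubgroup (ZMod m → ℤ)} {L : Finset ℕ} (hL : PJ L)
    (hne : L.Nonempty) (hm : fJ L ∣ m) (hX : Even L.card → ExcP X L) {F : ZMod m → ℤ}
    (hodd : OddF F) (hT : TateF F)
    (hs : ∀ a, F a ≠ 0 → fJ L ∣ addOrderOf a → addOrderOf a = fJ L) :
    ∃ F', F - F' ∈ X ⊔ relSub m ∧ OddF F' ∧ TateF F' ∧ (∀ a, addOrderOf a = fJ L → F' a = 0) ∧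
      ∀ a, F' a ≠ F a → addOrderOf a ∣ Nat.lcm 2 (fJ L) ∧ addOrderOf a ≤ fJ L := by
  have hf0 : 0 < fJ L := Pool.Agent.Lib.MP_938ce2_ag_h99v.fJ_pos hL
  have hdvd : ∀ a : ZMod m, addOrderOf a ∣ fJ L →
      addOrderOf a ∣ Nat.lcm 2 (fJ L) ∧ addOrderOf a ≤ fJ L := fun a ha =>
    ⟨ha.trans (Nat.dvd_lcm_right _ _), Nat.le_of_dvd hf0 ha⟩
  have hfin : (Even L.card → ∃ x0 ∈ L, Even (Om0 F L x0)) →
      ∃ F', F - F' ∈ X ⊔ relSub m ∧ OddF F' ∧ TateF F' ∧ (∀ a, addOrderOf a = fJ L → F' a = 0) ∧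
      ∀ a, F' a ≠ F a → addOrderOf a ∣ Nat.lcm 2 (fJ L) ∧ addOrderOf a ≤ fJ L := by
    intro h
    obtain ⟨F', h1, h2, h3, h4, h5⟩ := peel_even' hL hne hm hodd hT hs h
    exact ⟨F', (le_sup_right : relSub m ≤ X ⊔ relSub m) h1, h2, h3, h4,
      fun a ha => hdvd a (h5 a ha)⟩
  by_cases hc : Even L.card
  swap
  · exact hfin fun h => absurd h hc
  obtain ⟨E, hE, hEs, x0, hx0, hEodd⟩ := hX hc
  rcases Int.even_or_odd (Om0 F L x0) with he | ho
  · exact hfin fun _ => ⟨x0, hx0, he⟩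
  have hs' : ∀ a, (F - E) a ≠ 0 → fJ L ∣ addOrderOf a → addOrderOf a = fJ L := by
    intro a ha hda
    by_cases hFa : F a = 0
    · have hEa : E a ≠ 0 := by
        intro h
        apply ha
        rw [Pi.sub_apply, hFa, h, sub_zero]
      exact le_antisymm (hEs a hEa).2 (Nat.le_of_dvd (addOrderOf_pos a) hda)
    · exact hs a hFa hda
  have he' : Even (Om0 (F - E) L x0) := by
    rw [Om0_sub]
    exact ho.sub_odd hEodd
  obtain ⟨F', h1, h2, h3, h4, h5⟩ := peel_even' hL hne hm (hodd.sub hE.odd) (hT.sub hE.tate) hs'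
    fun _ => ⟨x0, hx0, he'⟩
  refine ⟨F', ?_, h2, h3, h4, ?_⟩
  · have h6 : F - F' = (F - E - F') + E := by abel
    rw [h6]
    exact (X ⊔ relSub m).add_mem ((le_sup_right : relSub m ≤ X ⊔ relSub m) h1) hE.mem
  · intro a ha
    by_cases h6 : F' a = (F - E) a
    · have hEa : E a ≠ 0 := by
        intro h
        apply ha
        rw [h6, Pi.sub_apply, h, sub_zero]
      exact hEs a hEa
    · exact hdvd a (h5 a h6)

/-- `peel_even` for `F` or `F - E`; compare `rem_PX` in h99v/L04.lean. -/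
theorem rem_exc {X : AddSubgroup (ZMod m → ℤ)} {L : Finset ℕ} (hL : PJ L) (hne : L.Nonempty)
    (hm : fJ L ∣ m) (hX : Even L.card → ExcP X L) {F : ZMod m → ℤ} (hF : InX X F)
    (hs : ∀ a, F a ≠ 0 → fJ L ∣ addOrderOf a → addOrderOf a = fJ L) :
    ∃ F', InX X F' ∧ (∀ a, addOrderOf a = fJ L → F' a = 0) ∧
      ∀ a, F' a ≠ F a → addOrderOf a ∣ Nat.lcm 2 (fJ L) ∧ addOrderOf a ≤ fJ L := by
  obtain ⟨F', h1, h2, h3, h4, h5⟩ := rem_aux hL hne hm hX hF.odd hF.tate hs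
  refine ⟨F', ⟨?_, h2, h3⟩, h4, h5⟩
  have h6 : F' = F - (F - F') := by abel
  rw [h6]
  exact (X ⊔ relSub m).sub_mem hF.mem h1

/-- as a step of the descent in h99/MainA.lean -/
theorem step_excP {D : ℕ → Prop} (hD : ∀ f g, D f → g ∣ f → D g)
    {X : AddSubgroup (ZMod m → ℤ)} {L : Finset ℕ} (hL : PJ L) (hne : L.Nonempty)
    (hm : fJ L ∣ m) (hDf : D (fJ L))
    (hDl : ∀ g, g ∣ Nat.lcm 2 (fJ L) → g ≤ fJ L → D g) (hX : Even L.card → ExcP X L) :
    Step D X (fJ L) := by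
  intro F hodd hT hsup hDF
  have hf0 : 0 < fJ L := Pool.Agent.Lib.MP_938ce2_ag_h99v.fJ_pos hL
  obtain ⟨F', h1, h2, h3, h4, h5⟩ := rem_aux hL hne hm hX hodd hT fun a ha hda =>
    le_antisymm (hsup a ha) (Nat.le_of_dvd (addOrderOf_pos a) hda)
  refine ⟨F', h1, h2, h3, ?_, ?_⟩
  · intro a ha
    have hle : addOrderOf a ≤ fJ L := by
      by_cases hFa : F' a = F a
      · exact hsup a (by rwa [← hFa])
      · exact (h5 a hFa).2
    exact lt_of_le_of_ne hle fun h => ha (h4 a h)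
  · intro a ha
    by_cases hFa : F' a = F a
    · exact hDF a (by rwa [← hFa])
    · exact hDl _ (h5 a hFa).1 (h5 a hFa).2

end Pool.Agent.Lib.MP_938ce2_ag_h99x
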