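import Pool.Agent.Lib.MP_938ce2_ag_h99x.K22
import Pool.Agent.Lib.MP_938ce2_ag_h99x.K09
import Pool.Agent.Lib.MP_938ce2_ag_h99w.F02

/-!
Tate characters of any length: only the pairs of effective primes matter.
-/

set_option autoImplicit false
set_option linter.style.haveILetI false
set_option linter.unusedSectionVars false

open Finset

namespace Pool.Agent.Lib.MP_938ce2_ag_h99x

open Pool.Agent.Lib.MP_938ce2_ag_h99 Pool.Agent.Lib.MP_938ce2_ag_h6
open Pool.Agent.Lib.MP_938ce2_ag_h99t Pool.Agent.Lib.MP_938ce2_ag_h99v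
open Pool.Agent.Lib.MP_938ce2_ag_h99w

variable {m : ℕ} [NeZero m]

lemma inX_mono {X Y : AddSubgroup (ZMod m → ℤ)} (hXY : X ≤ Y) {F : ZMod m → ℤ} (h : InX X F) :
    InX Y F := ⟨sup_le_sup_right hXY _ h.mem, h.odd, h.tate⟩

lemma ExcP.mono {X Y : AddSubgroup (ZMod m → ℤ)} (hXY : X ≤ Y) {L : Finset ℕ} (h : ExcP X L) :
    ExcP Y L := by
  obtain ⟨E, h1, h2, h3⟩ := h
  exact ⟨E, inX_mono hXY h1, h2, h3⟩

/-- the class of a pair -/
lemma PX.excP {X : AddSubgroup (ZMod m → ℤ)} {p q : ℕ} (hp : p.Prime) (hq : q.Prime)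
    (hpq : p ≠ q) (hm : ep p * ep q ∣ m) (h : PX X p q) : ExcP X {p, q} := by
  obtain ⟨E, hE, hsup, k, hk1, hk2, hodd⟩ := h
  have hL : PJ {p, q} := by
    intro r hr
    simp only [mem_insert, mem_singleton] at hr
    rcases hr with rfl | rfl
    · exact hp
    · exact hq
  have hf : fJ {p, q} = ep p * ep q := by
    unfold fJ
    rw [prod_pair hpq]
  refine ⟨E, hE, ?_, p, by simp, ?_⟩
  · rw [hf]
    exact hsup
  · have he : ({p, q} : Finset ℕ).erase p = {q} := by
      rw [erase_insert_eq_erase, erase_eq_of_notMem (by simpa using hpq)]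
    have hv : ∀ (ε : ℕ → ℤˣ) (t : ℤ), (ep p : ℤ) ∣ t - (ε p : ℤ) → (ep q : ℤ) ∣ t - (ε q : ℤ) →
        val E {p, q} ε = E (pt m (ep p * ep q) t) := by
      intro ε t h1 h2
      unfold val
      rw [hf]
      congr 1
      symm
      apply pt_congr hm
      rw [← hf]
      apply cr_unique hL
      intro r hr
      simp only [mem_insert, mem_singleton] at hr
      rcases hr with rfl | rfl
      · exact h1
      · exact h2
    unfold Om0
    rw [he, show (({q} : Finset ℕ).powerset) = {∅, {q}} from rfl, sum_pair (by simp)]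
    rw [hv (sJ ∅) 1 (by simp [sJ]) (by simp [sJ]),
      hv (sJ {q}) k (by simpa [sJ, hpq] using hk1) (by simpa [sJ] using hk2)]
    exact hodd

lemma Gd.mono {S T : Finset ℕ} (h : Gd T) (hST : S ⊆ T) : Gd S :=
  fun p hp h4 x hx hxp => h p (hST hp) h4 x (hST hx) hxp

theorem gen_aux {m0 : ℕ} (hm0 : Nat.lcm 2 m0 ∣ m) {l : ℕ} (hl : 1 ≤ l)
    (hP : ∀ p q, p.Prime → q.Prime → p ∣ Nat.lcm 2 m0 → q ∣ Nat.lcm 2 m0 → p < q → NB p q →
      PX (YY (GT1 (m := m))) p q)
    (hE : ∀ S, S ⊆ (Nat.lcm 2 m0).primeFactors → S.Nonempty → Even S.card → Gd S →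
      ExcP (YY (GT1 (m := m))) S)
    (hb : Gd (effs m0 (l + 1)) ∨ (effs m0 (l + 1)).card ≤ 3)
    (ha : ∀ p q, p < q → Eff m0 p → Eff m0 q →
      NB p q ∨ (if p = 3 then 4 * l + 1 else 2 * l + 1) < q)
    {F : ZMod m → ℤ} (ho : OddF F) (hT : TateF F) (hN : ∑ a, |F a| ≤ 2 * l)
    (hs : ∀ a, F a ≠ 0 → addOrderOf a ∣ m0) : F ∈ YY (GT1 (m := m)) ⊔ relSub m := by
  classical
  set n0 := Nat.lcm 2 m0 with hn0
  have h2n : 2 ∣ n0 := Nat.dvd_lcm_left 2 m0
  have h2m : 2 ∣ m := h2n.trans hm0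
  have hmn : m0 ∣ n0 := Nat.dvd_lcm_right 2 m0
  have hn00 : n0 ≠ 0 := fun h => NeZero.ne m (by rw [h] at hm0; exact Nat.eq_zero_of_zero_dvd hm0)
  have h6 : 3 ∣ n0 → 6 ∣ n0 := by
    intro h3
    omega
  set X := YY (GT1 (m := m)) ⊔ relSub m with hX
  have hXX : X ⊔ relSub m = X := by rw [hX, sup_assoc, sup_idem]
  have hle : YY (GT1 (m := m)) ≤ X := by rw [hX]; exact le_sup_left
  -- the large primes
  obtain ⟨F1, a1, a2, a3, a4, a5⟩ := drop_all5 X h2m (N := 2 * l) (m0 := n0) h6
    (n0.primeFactors.filter (2 * l + 1 < ·)) (by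
      intro q hq
      rw [mem_filter] at hq
      have hqp := Nat.prime_of_mem_primeFactors hq.1
      have hqm := Nat.dvd_of_mem_primeFactors hq.1
      have hlq := hq.2
      have hlq' : ((2 * l + 1 : ℕ) : ℤ) < q := by exact_mod_cast hlq
      push_cast at hlq'
      refine ⟨hqp, by omega, by linarith, ?_⟩
      intro h3 hqm' hq32
      left
      have hq4 : q ≤ 4 * l + 1 := by
        have : (q : ℤ) ≤ ((4 * l + 1 : ℕ) : ℤ) := by
          push_cast
          linarith
        exact_mod_cast this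
      have e3 : Eff m0 3 := Eff.of_dvd_lcm (f := 3) (by norm_num) h3 (by
        rw [Nat.Prime.primeFactors Nat.prime_three]
        exact mem_singleton_self 3)
      have eq : Eff m0 q := Eff.of_dvd_lcm (f := q) (by
        have := hqp.eq_two_or_odd
        omega) hqm (by
        rw [Nat.Prime.primeFactors hqp]
        exact mem_singleton_self q)
      rcases ha 3 q (by omega) e3 eq with h5 | h5
      · rw [hX]
        exact ref3_PX ((h6 h3).trans hm0) hqp (by omega) hqm'
          (hP 3 q Nat.prime_three hqp h3 hqm (by omega) h5)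
      · rw [if_pos rfl] at h5
        omega) F ho hT hN (fun a ha => (hs a ha).trans hmn)
  -- the condition on the orders
  set D : ℕ → Prop := fun k => k ∣ n0 ∧ ∀ p, p.Prime → p ∣ k → p ≤ 2 * l + 1 with hD
  have hDc : ∀ f g, D f → g ∣ f → D g := fun f g h1 h2 =>
    ⟨h2.trans h1.1, fun p hp hpg => h1.2 p hp (hpg.trans h2)⟩
  have hs1 : ∀ a, F1 a ≠ 0 → D (addOrderOf a) := by
    intro a ha
    obtain ⟨b1, b2⟩ := a5 a ha
    have b3 : addOrderOf a ∣ n0 := by
      rcases b1 with b1 | b1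
      · exact (hs a b1).trans hmn
      · exact b1.2.trans (h6 b1.1)
    refine ⟨b3, fun p hp hpa => ?_⟩
    by_contra h
    exact b2 p (by
      rw [mem_filter, Nat.mem_primeFactors]
      exact ⟨⟨hp, hpa.trans b3, hn00⟩, by omega⟩) hpa
  -- levels with four effective primes
  obtain ⟨F2, b1, b2, b3, _, b5, b6⟩ := four_outD hDc (l := l) a2 a3 a4 hs1
  -- the descent
  set D2 : ℕ → Prop := fun k => D k ∧ (4 ≤ (effP k).card → ∀ p, p.Prime → p ∣ k → p ≤ l + 1)
    with hD2
  have hD2c : ∀ f g, D2 f → g ∣ f → D2 g := by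
    intro f g h1 h2
    have hf0 : f ≠ 0 := fun h => hn00 (by
      have := h1.1.1
      rw [h] at this
      exact Nat.eq_zero_of_zero_dvd this)
    refine ⟨hDc f g h1.1 h2, fun h4 p hp hpg => ?_⟩
    exact h1.2 (h4.trans (card_le_card (effP_mono h2 hf0))) p hp (hpg.trans h2)
  have hF2 : F2 ∈ X ⊔ relSub m := by
    refine mainA_aux hD2c X ?_ m F2 b2 b3 (fun a _ => Nat.le_of_dvd
      (Nat.pos_of_ne_zero (NeZero.ne m)) (addOrderOf_dvd_m a)) (fun a ha => ⟨b6 a ha, b5 a ha⟩)
    intro f hf hDf hf1 hf4 hfr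
    have hf0 : f ≠ 0 := f_ne_zero hf
    have hfn : f ∣ n0 := hDf.1.1
    set L := f.primeFactors with hL
    have hfL : f = fJ L := eff_prod hf0 hf4 hfr
    have hPJ : PJ L := fun p hp => Nat.prime_of_mem_primeFactors hp
    have hne : L.Nonempty := by
      rw [hL, Nat.nonempty_primeFactors]
      omega
    have hEff : ∀ p ∈ L, Eff m0 p := fun p hp => Eff.of_dvd_lcm hf4 hfn hp
    have hle2 : ∀ p ∈ L, p ≤ 2 * l + 1 := fun p hp =>
      hDf.1.2 p (hPJ p hp) (Nat.dvd_of_mem_primeFactors hp)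
    have key : Even L.card → ExcP X L := by
      intro hev
      refine ExcP.mono hle ?_
      have hpos : 0 < L.card := hne.card_pos
      rcases (by obtain ⟨k, hk⟩ := hev; omega : L.card = 2 ∨ 4 ≤ L.card) with hc | hc
      · obtain ⟨p', q', hpq', hp'⟩ := Finset.card_eq_two.mp hc
        obtain ⟨p, q, hpq, hp⟩ : ∃ p q, p < q ∧ L = {p, q} := by
          rcases lt_or_gt_of_ne hpq' with h | h
          · exact ⟨p', q', h, hp'⟩
          · exact ⟨q', p', h, by rw [hp', pair_comm]⟩
        have hpm : p ∈ L := by rw [hp]; simp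
        have hqm : q ∈ L := by rw [hp]; simp
        have hNB : NB p q := by
          rcases ha p q hpq (hEff p hpm) (hEff q hqm) with h5 | h5
          · exact h5
          · exfalso
            have := hle2 q hqm
            split_ifs at h5 <;> omega
        have hpp := hPJ p hpm
        have hqq := hPJ q hqm
        have hfe : ep p * ep q ∣ m := by
          have h7 : fJ L = ep p * ep q := by
            rw [hp]
            unfold fJ
            rw [prod_pair hpq.ne]
          rw [← h7, ← hfL]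
          exact hf
        rw [hp]
        exact PX.excP hpp hqq hpq.ne hfe (hP p q hpp hqq
          ((Nat.dvd_of_mem_primeFactors hpm).trans hfn)
          ((Nat.dvd_of_mem_primeFactors hqm).trans hfn) hpq hNB)
      · have hsm : ∀ p ∈ L, p ≤ l + 1 := fun p hp => hDf.2 (by
          rw [effP_eq hf4]
          exact hc) p (hPJ p hp) (Nat.dvd_of_mem_primeFactors hp)
        have hsub : L ⊆ effs m0 (l + 1) := by
          intro p hp
          unfold effs
          rw [mem_filter, mem_range]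
          exact ⟨by have := hsm p hp; omega, hEff p hp⟩
        rcases hb with hb | hb
        · exact hE L (Nat.primeFactors_mono hfn hn00) hne hev (hb.mono hsub)
        · exfalso
          have := card_le_card hsub
          omega
    have hfm' : fJ L ∣ m := by rw [← hfL]; exact hf
    have hDf' : D2 (fJ L) := by rw [← hfL]; exact hDf
    rw [hfL]
    refine step_excP hD2c hPJ hne hfm' hDf' ?_ key
    intro g hg _
    rw [← hfL] at hg
    have hgp : ∀ p, p.Prime → p ∣ g → p = 2 ∨ p ∣ f := by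
      intro p hp hpg
      rcases hp.dvd_lcm.mp (hpg.trans hg) with h7 | h7
      · exact Or.inl ((Nat.prime_dvd_prime_iff_eq hp Nat.prime_two).mp h7)
      · exact Or.inr h7
    refine ⟨⟨hg.trans (Nat.lcm_dvd h2n hfn), ?_⟩, ?_⟩
    · intro p hp hpg
      rcases hgp p hp hpg with h7 | h7
      · omega
      · exact hDf.1.2 p hp h7
    · intro h4 p hp hpg
      rcases hgp p hp hpg with h7 | h7
      · omega
      · exact hDf.2 (h4.trans (card_le_card (effP_lcm hf0 hg))) p hp h7
  rw [hXX] at hF2 a1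
  have e : F = (F - F1) + (-(F2 - F1)) + F2 := by abel
  rw [e]
  have hrel : relSub m ≤ X := by
    rw [hX]
    exact le_sup_right
  exact X.add_mem (X.add_mem a1 (X.neg_mem (hrel b1))) hF2

/-- Tate characters of any length. -/
theorem tate_gen (m : ℕ) [NeZero m] : ∃ N ≠ 0, m ∣ N ∧ ∀ (M : ℕ) [NeZero M], N ∣ M →
    ∀ (hm : m ∣ M) (s : Multiset (ZMod m)), IsTate s →
      (Gd (effs m (s.card + 1)) ∨ (effs m (s.card + 1)).card ≤ 3) →
      (∀ p q, p < q → Eff m p → Eff m q →
        NB p q ∨ (if p = 3 then 4 * s.card + 1 else 2 * s.card + 1) < q) →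
      IsAlgG GT1 (s.map (jj hm)) := by
  have hl0 : Nat.lcm 2 m ≠ 0 := Nat.lcm_ne_zero two_ne_zero (NeZero.ne m)
  obtain ⟨N, hN, hNM⟩ := exists_level2 hl0
  refine ⟨N * Nat.lcm 2 m, mul_ne_zero hN hl0, (Nat.dvd_lcm_right 2 m).trans (Dvd.intro_left _ rfl),
    ?_⟩
  intro M _ hNM' hm s hs hb ha
  have h1 : N ∣ M := (Dvd.intro _ rfl).trans hNM'
  have h2 : Nat.lcm 2 m ∣ M := (Dvd.intro_left _ rfl).trans hNM'
  obtain ⟨hP, hE⟩ := hNM M h1
  set s' := s.map (jj hm) with hs'
  have hT := hs.lift hm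
  have hcard : s'.card = s.card := Multiset.card_map _ _
  by_cases h4' : s.card ≤ 4
  · exact IsAlgG.low s' hT (by rw [hcard]; exact h4')
  have hl1 := l1_le s'
  have hmem := gen_aux (m := M) (m0 := m) h2 (l := s.card) (by omega) hP hE hb ha
    (F := oddPart s') (oddPart_odd s') (isTate_iff.mp hT).2.2 (by
      rw [hcard] at hl1
      exact hl1) (by
      intro a ha
      by_cases h : ∃ y, jj hm y = a
      · obtain ⟨y, rfl⟩ := h
        exact Pool.Agent.Lib.MP_938ce2_ag_H7f.order_jj_dvd hm y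
      · push Not at h
        exact absurd (oddPart_lift_of_forall_ne hm s h) ha)
  exact isAlgG_of_mem (fun r hr => hr.neg) hT hmem

end Pool.Agent.Lib.MP_938ce2_ag_h99x
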