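import Pool.Agent.Lib.MP_938ce2_ag_h99x.KD

/-!
Integers with given signs: Chinese remainder theorem.
-/

set_option autoImplicit false
set_option linter.style.haveILetI false
set_option linter.unusedSectionVars false

open Finset

namespace Pool.Agent.Lib.MP_938ce2_ag_h99x

open Pool.Agent.Lib.MP_938ce2_ag_h99 Pool.Agent.Lib.MP_938ce2_ag_h6
open Pool.Agent.Lib.MP_938ce2_ag_h99t Pool.Agent.Lib.MP_938ce2_ag_h99v

private lemma ep_cop {p q : ℕ} (hp : p.Prime) (hq : q.Prime) (hpq : p ≠ q) :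
    Nat.Coprime (ep p) (ep q) := by
  have h1 : Nat.Coprime p (ep q) := coprime_ep hq hp (Ne.symm hpq)
  have h2 : ep p = p ∨ ep p = p ^ 2 := by
    unfold ep
    split_ifs with h
    · right; subst h; norm_num
    · left; rfl
  rcases h2 with h2 | h2
  · rw [h2]; exact h1
  · rw [h2]; exact Nat.Coprime.pow_left 2 h1

private lemma ep_isCoprime {L : Finset ℕ} (hL : PJ L) {p q : ℕ} (hp : p ∈ L) (hq : q ∈ L)
    (hpq : p ≠ q) : IsCoprime (ep p : ℤ) (ep q : ℤ) :=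
  Nat.isCoprime_iff_coprime.2 (ep_cop (hL p hp) (hL q hq) hpq)

lemma dvd_of_ep {L : Finset ℕ} (hL : PJ L) {t : ℤ} (h : ∀ q ∈ L, (ep q : ℤ) ∣ t) :
    (fJ L : ℤ) ∣ t := by
  unfold fJ
  rw [Nat.cast_prod]
  exact Finset.prod_dvd_of_coprime (fun p hp q hq hpq => ep_isCoprime hL hp hq hpq) h

/-- existence: `k = ε q` modulo `ep q` for all `q` in `L`, induction on `L` -/
lemma cr_spec {L : Finset ℕ} (hL : PJ L) (ε : ℕ → ℤˣ) {q : ℕ} (hq : q ∈ L) :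
    (ep q : ℤ) ∣ cr L ε - (ε q : ℤ) := by
  have h : ∃ k : ℤ, ∀ q ∈ L, (ep q : ℤ) ∣ k - (ε q : ℤ) := by
    obtain ⟨k, hk⟩ := Ideal.exists_forall_sub_mem_ideal (ι := L)
      (I := fun q => Ideal.span {(ep (q : ℕ) : ℤ)}) (fun i j hij =>
        (Ideal.isCoprime_span_singleton_iff _ _).2
          (ep_isCoprime hL i.2 j.2 fun h => hij (Subtype.ext h)))
      (fun q => (ε (q : ℕ) : ℤ))
    exact ⟨k, fun q hq => Ideal.mem_span_singleton.1 (hk ⟨q, hq⟩)⟩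
  unfold cr
  rw [dif_pos h]
  exact h.choose_spec q hq

lemma cr_unique {L : Finset ℕ} (hL : PJ L) {ε : ℕ → ℤˣ} {k : ℤ}
    (h : ∀ q ∈ L, (ep q : ℤ) ∣ k - (ε q : ℤ)) : (fJ L : ℤ) ∣ k - cr L ε := by
  refine dvd_of_ep hL fun q hq => ?_
  have h1 := dvd_sub (h q hq) (cr_spec hL ε hq)
  rwa [sub_sub_sub_cancel_right] at h1

lemma cr_coprime {L : Finset ℕ} (hL : PJ L) (ε : ℕ → ℤˣ) : IsCoprime (cr L ε) (fJ L : ℤ) := by
  unfold fJ
  rw [Nat.cast_prod]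
  refine IsCoprime.prod_right fun q hq => ?_
  obtain ⟨c, hc⟩ := cr_spec hL ε hq
  have h1 : (ε q : ℤ) * (ε q : ℤ) = 1 := Int.units_coe_mul_self (ε q)
  refine ⟨(ε q : ℤ), -((ε q : ℤ) * c), ?_⟩
  linear_combination (ε q : ℤ) * hc + h1

lemma cr_neg {L : Finset ℕ} (hL : PJ L) (ε : ℕ → ℤˣ) :
    (fJ L : ℤ) ∣ cr L (fun q => - ε q) - (- cr L ε) := by
  have h1 : (fJ L : ℤ) ∣ - cr L ε - cr L (fun q => - ε q) := by
    refine cr_unique hL fun q hq => ?_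
    obtain ⟨c, hc⟩ := cr_spec hL ε hq
    refine ⟨-c, ?_⟩
    rw [Units.val_neg]
    linear_combination -hc
  obtain ⟨c, hc⟩ := h1
  exact ⟨-c, by linear_combination -hc⟩

lemma cr_sub {K L : Finset ℕ} (hL : PJ L) (hKL : K ⊆ L) {ε ε' : ℕ → ℤˣ}
    (h : ∀ q ∈ K, ε q = ε' q) : (fJ K : ℤ) ∣ cr L ε - cr K ε' := by
  refine cr_unique (hL.mono hKL) fun q hq => ?_
  rw [← h q hq]
  exact cr_spec hL ε (hKL hq)

lemma ch_cr {L : Finset ℕ} (hL : PJ L) (ε : ℕ → ℤˣ) {q : ℕ} (hq : q ∈ L) :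
    ch q (cr L ε) = ch q (ε q : ℤ) := ch_congr (cr_spec hL ε hq)

private lemma ch_one (p : ℕ) : ch p 1 = 1 := by
  unfold ch
  split_ifs
  · decide
  · exact jacobiSym.one_left p

lemma ch_unit_four {p : ℕ} (hp : p.Prime) (h : p % 4 = 1) (u : ℤˣ) : ch p (u : ℤ) = 1 := by
  rcases Int.units_eq_one_or u with rfl | rfl
  · exact ch_one p
  · exact ch_neg_one_four hp h

lemma ch_unit_three {p : ℕ} (hp : p.Prime) (h : p % 4 ≠ 1) (u : ℤˣ) : ch p (u : ℤ) = u := by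
  have h1 : p = 2 ∨ p % 4 = 3 := by
    rcases hp.eq_two_or_odd with h2 | h2
    · exact Or.inl h2
    · right
      omega
  rcases Int.units_eq_one_or u with rfl | rfl
  · exact ch_one p
  · exact ch_neg_one hp h1

end Pool.Agent.Lib.MP_938ce2_ag_h99x
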