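import Pool.Agent.Lib.MP_938ce2_ag_h99x.K01

/-!
Values at the points with given signs.
-/

set_option autoImplicit false
set_option linter.style.haveILetI false
set_option linter.unusedSectionVars false

open Finset

namespace Pool.Agent.Lib.MP_938ce2_ag_h99x

open Pool.Agent.Lib.MP_938ce2_ag_h99 Pool.Agent.Lib.MP_938ce2_ag_h6
open Pool.Agent.Lib.MP_938ce2_ag_h99t Pool.Agent.Lib.MP_938ce2_ag_h99v

variable {m : ℕ} [NeZero m]

private lemma k02_prime_dvd_ep {q a : ℕ} (hq : q.Prime) (ha : a.Prime) (h : q ∣ ep a) : q = a := by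
  unfold ep at h
  split_ifs at h with h2
  · subst h2
    have h3 : q ∣ 2 ^ 2 := h
    exact (Nat.prime_dvd_prime_iff_eq hq Nat.prime_two).mp (hq.dvd_of_dvd_pow h3)
  · exact (Nat.prime_dvd_prime_iff_eq hq ha).mp h

lemma fJ_primeFactors {L : Finset ℕ} (hL : PJ L) : (fJ L).primeFactors = L := by
  ext q
  rw [Nat.mem_primeFactors]
  constructor
  · rintro ⟨hq, hd, _⟩
    unfold fJ at hd
    rw [hq.prime.dvd_finset_prod_iff] at hd
    obtain ⟨a, ha, h⟩ := hd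
    rw [k02_prime_dvd_ep hq (hL a ha) h]
    exact ha
  · intro hq
    exact ⟨hL q hq, p_dvd_ep.trans (ep_dvd_fJ hq), (Pool.Agent.Lib.MP_938ce2_ag_h99v.fJ_pos hL).ne'⟩

lemma fJ_inj {L K : Finset ℕ} (hL : PJ L) (hK : PJ K) (h : fJ L = fJ K) : L = K := by
  rw [← fJ_primeFactors hL, h, fJ_primeFactors hK]

lemma addOrderOf_cr {L : Finset ℕ} (hL : PJ L) (hm : fJ L ∣ m) (ε : ℕ → ℤˣ) :
    addOrderOf (pt m (fJ L) (cr L ε)) = fJ L := by
  exact addOrderOf_pt hm (cr_coprime hL ε)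

lemma val_congr {L : Finset ℕ} (hL : PJ L) (hm : fJ L ∣ m) (F : ZMod m → ℤ) {ε ε' : ℕ → ℤˣ}
    (h : ∀ q ∈ L, ε q = ε' q) : val F L ε = val F L ε' := by
  unfold val
  rw [pt_congr hm (cr_sub hL Finset.Subset.rfl h)]

lemma val_neg {L : Finset ℕ} (hL : PJ L) (hm : fJ L ∣ m) {F : ZMod m → ℤ} (ho : OddF F)
    (ε : ℕ → ℤˣ) : val F L (fun q => - ε q) = - val F L ε := by
  unfold val
  rw [pt_congr hm (cr_neg hL ε), pt_neg, ho]

lemma val_pl {L : Finset ℕ} (hL : PJ L) (hm : fJ L ∣ m) {A : ℤ → ℤ} (hA : Per (fJ L) A)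
    (ε : ℕ → ℤˣ) : val (pl m (fJ L) A) L ε = A (cr L ε) := by
  exact pl_pt hm hA (cr_coprime hL ε)

lemma val_pl_ne {L K : Finset ℕ} (hL : PJ L) (hK : PJ K) (hm : fJ L ∣ m) (hne : K ≠ L)
    (A : ℤ → ℤ) (ε : ℕ → ℤˣ) : val (pl m (fJ K) A) L ε = 0 := by
  unfold val
  apply pl_of_ne
  rw [addOrderOf_cr hL hm ε]
  intro h
  exact hne (fJ_inj hL hK h).symm

lemma val_of_ne {L : Finset ℕ} (hL : PJ L) (hm : fJ L ∣ m) {F F' : ZMod m → ℤ}
    (h : ∀ a, F' a ≠ F a → addOrderOf a ≠ fJ L) (ε : ℕ → ℤˣ) : val F' L ε = val F L ε := by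
  unfold val
  by_contra hne
  exact h _ hne (addOrderOf_cr hL hm ε)

end Pool.Agent.Lib.MP_938ce2_ag_h99x
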