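import Pool.Agent.Lib.MP_938ce2_ag_h99x.K02

/-!
Divisors of the levels.
-/

set_option autoImplicit false
set_option linter.style.haveILetI false
set_option linter.unusedSectionVars false

open Finset

namespace Pool.Agent.Lib.MP_938ce2_ag_h99x

open Pool.Agent.Lib.MP_938ce2_ag_h99 Pool.Agent.Lib.MP_938ce2_ag_h6
open Pool.Agent.Lib.MP_938ce2_ag_h99t Pool.Agent.Lib.MP_938ce2_ag_h99v

private lemma k03_two_notMem {L : Finset ℕ} (hL : PJ L) (h : 2 ∉ L) : ¬ 2 ∣ fJ L := by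
  intro h2
  apply h
  rw [← fJ_primeFactors hL, Nat.mem_primeFactors]
  exact ⟨Nat.prime_two, h2, (Pool.Agent.Lib.MP_938ce2_ag_h99v.fJ_pos hL).ne'⟩

private lemma k03_two_mem {L : Finset ℕ} (h : 2 ∈ L) : 4 ∣ fJ L := ep_dvd_fJ h

private lemma k03_lcm_dvd (n : ℕ) : Nat.lcm 2 n ∣ 2 * n := Nat.lcm_dvd_mul 2 n

private lemma k03_mem_two {L : Finset ℕ} (hL : PJ L) (h : 4 ∣ Nat.lcm 2 (fJ L)) : 2 ∈ L := by
  by_contra h2
  apply k03_two_notMem hL h2
  have h3 : 4 ∣ 2 * fJ L := h.trans (k03_lcm_dvd _)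
  omega

lemma fJ_mod_four {L : Finset ℕ} (hL : PJ L) : fJ L % 4 ≠ 2 := by
  by_cases h : 2 ∈ L
  · have := k03_two_mem h
    omega
  · have := k03_two_notMem hL h
    omega

/-- `f` divides `2 rad f` for `f = fJ L` -/
lemma fJ_rad {L : Finset ℕ} (hL : PJ L) : fJ L ∣ 2 * rad (fJ L) := by
  have h1 : rad (fJ L) = ∏ p ∈ L, p := by
    unfold rad
    rw [fJ_primeFactors hL]
  have h2 : ∀ J : Finset ℕ, 2 ∉ J → fJ J = ∏ p ∈ J, p := by
    intro J hJ
    unfold fJ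
    refine prod_congr rfl fun p hp => ?_
    unfold ep
    rw [if_neg]
    rintro rfl
    exact hJ hp
  rw [h1]
  by_cases h : 2 ∈ L
  · have h3 : fJ L = 4 * fJ (L.erase 2) := fJ_erase h
    rw [h3, h2 _ (notMem_erase 2 L), ← Finset.mul_prod_erase L (fun p => p) h]
    exact dvd_of_eq (by ring)
  · rw [h2 L h]
    exact Dvd.intro_left 2 rfl

lemma mem_of_dvd_odd {L : Finset ℕ} (hL : PJ L) {q : ℕ} (hq : q.Prime) (h2 : q ≠ 2)
    (h : q ∣ Nat.lcm 2 (fJ L)) : q ∈ L := by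
  have h3 : q ∣ 2 * fJ L := h.trans (k03_lcm_dvd _)
  have h4 : q ∣ fJ L := by
    rcases hq.dvd_mul.mp h3 with h5 | h5
    · exact absurd ((Nat.prime_dvd_prime_iff_eq hq Nat.prime_two).mp h5) h2
    · exact h5
  rw [← fJ_primeFactors hL, Nat.mem_primeFactors]
  exact ⟨hq, h4, (Pool.Agent.Lib.MP_938ce2_ag_h99v.fJ_pos hL).ne'⟩

lemma fJ_dvd_lcm {K L : Finset ℕ} (hK : PJ K) (hL : PJ L) (h : fJ K ∣ Nat.lcm 2 (fJ L)) :
    K ⊆ L := by
  intro q hq
  by_cases h2 : q = 2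
  · subst h2
    exact k03_mem_two hL ((k03_two_mem hq).trans h)
  · exact mem_of_dvd_odd hL (hK q hq) h2 ((p_dvd_ep.trans (ep_dvd_fJ hq)).trans h)

/-- the divisors which are not twice an odd number -/
lemma exists_sub {L : Finset ℕ} (hL : PJ L) {d : ℕ} (hd : d ∣ Nat.lcm 2 (fJ L))
    (h4 : d % 4 ≠ 2) : ∃ K ⊆ L, d = fJ K := by
  have hf0 := (Pool.Agent.Lib.MP_938ce2_ag_h99v.fJ_pos hL).ne'
  have hN0 : Nat.lcm 2 (fJ L) ≠ 0 := Nat.lcm_ne_zero two_ne_zero hf0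
  have hd0 : d ≠ 0 := fun h => hN0 (Nat.eq_zero_of_zero_dvd (h ▸ hd))
  have hr : d ∣ 2 * rad d := by
    rw [← Nat.factorization_le_iff_dvd hd0 (mul_ne_zero two_ne_zero (rad_ne_zero d))]
    intro p
    by_cases hp : p.Prime
    · by_cases hpd : p ∣ d
      · have h1 : d.factorization p ≤ (Nat.lcm 2 (fJ L)).factorization p :=
          (Nat.factorization_le_iff_dvd hd0 hN0).mpr hd p
        have h2 : (fJ L).factorization p ≤ (2 * rad (fJ L)).factorization p :=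
          (Nat.factorization_le_iff_dvd hf0 (mul_ne_zero two_ne_zero (rad_ne_zero _))).mpr
            (fJ_rad hL) p
        have h3 : 1 ≤ (rad d).factorization p := by
          rw [← hp.dvd_iff_one_le_factorization (rad_ne_zero d)]
          unfold rad
          exact Finset.dvd_prod_of_mem (fun p => p) (Nat.mem_primeFactors.mpr ⟨hp, hpd, hd0⟩)
        have h4 := fac_rad (f := fJ L) (p := p)
        rw [Nat.factorization_lcm two_ne_zero hf0, Finsupp.sup_apply] at h1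
        rw [Nat.factorization_mul two_ne_zero (rad_ne_zero _), Finsupp.add_apply] at h2 ⊢
        have h5 : (Nat.factorization 2) p ⊔ (fJ L).factorization p ≤
            (Nat.factorization 2) p + 1 := sup_le (Nat.le_succ _) (by omega)
        omega
      · rw [Nat.factorization_eq_zero_of_not_dvd hpd]
        exact Nat.zero_le _
    · rw [Nat.factorization_eq_zero_of_not_prime _ hp]
      exact Nat.zero_le _
  refine ⟨d.primeFactors, ?_, eff_prod hd0 h4 hr⟩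
  intro q hq
  have hqp := Nat.prime_of_mem_primeFactors hq
  have hqd := Nat.dvd_of_mem_primeFactors hq
  by_cases h2 : q = 2
  · subst h2
    refine k03_mem_two hL (Dvd.dvd.trans ?_ hd)
    omega
  · exact mem_of_dvd_odd hL hqp h2 (hqd.trans hd)

lemma dvd_lcm_sub {K L : Finset ℕ} (hL : PJ L) (hKL : K ⊆ L) {d : ℕ}
    (hd : d ∣ Nat.lcm 2 (fJ L)) (h : ∀ q ∈ L, q ∉ K → ¬ q ∣ d) : d ∣ Nat.lcm 2 (fJ K) := by
  have h1 : fJ L = fJ (L \ K) * fJ K := (prod_sdiff hKL).symm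
  have h2 : Nat.Coprime d (fJ (L \ K)) := by
    rw [Pool.Agent.Lib.MP_938ce2_ag_h99v.coprime_fJ_iff (hL.mono sdiff_subset)]
    intro p hp
    rw [mem_sdiff] at hp
    exact h p hp.1 hp.2
  have h3 : Nat.lcm 2 (fJ L) ∣ fJ (L \ K) * Nat.lcm 2 (fJ K) := by
    refine Nat.lcm_dvd ((Nat.dvd_lcm_left 2 _).trans (Dvd.intro_left _ rfl)) ?_
    rw [h1]
    exact mul_dvd_mul dvd_rfl (Nat.dvd_lcm_right 2 _)
  exact h2.dvd_of_dvd_mul_left (hd.trans h3)

lemma le_of_dvd_lcm {L : Finset ℕ} (hL : PJ L) {d : ℕ} (hd : d ∣ Nat.lcm 2 (fJ L))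
    (h : d % 4 = 2 → ¬ fJ L ∣ d) : d ≤ fJ L := by
  have hf0 := Pool.Agent.Lib.MP_938ce2_ag_h99v.fJ_pos hL
  by_cases h2 : 2 ∣ fJ L
  · have h3 : Nat.lcm 2 (fJ L) = fJ L := Nat.lcm_eq_right h2
    rw [h3] at hd
    exact Nat.le_of_dvd hf0 hd
  · have h3 : d ∣ 2 * fJ L := hd.trans (k03_lcm_dvd _)
    obtain ⟨e, he⟩ := h3
    rcases Nat.lt_or_ge e 2 with h4 | h4
    · interval_cases e
      · omega
      · exfalso
        rw [mul_one] at he
        exact h (by omega) ⟨2, by omega⟩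
    · nlinarith

end Pool.Agent.Lib.MP_938ce2_ag_h99x
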