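import Pool.Agent.Lib.MP_938ce2_ag_h99x.K01

/-!
Functions which do not depend on one of the primes.
-/

set_option autoImplicit false
set_option linter.style.haveILetI false
set_option linter.unusedSectionVars false

open Finset

namespace Pool.Agent.Lib.MP_938ce2_ag_h99x

open Pool.Agent.Lib.MP_938ce2_ag_h99 Pool.Agent.Lib.MP_938ce2_ag_h6
open Pool.Agent.Lib.MP_938ce2_ag_h99t Pool.Agent.Lib.MP_938ce2_ag_h99v

private lemma k04_PJ {S P : Finset ℕ} {r ri : ℕ → ℕ} (h : Aux S P r ri) {C : Finset ℕ}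
    (hC : C ⊆ P) : PJ (LP S r C) := by
  intro q hq
  unfold LP at hq
  rw [mem_union, mem_image] at hq
  rcases hq with hq | ⟨c, hc, rfl⟩
  · exact h.prime q hq
  · exact h.rprime c (hC hc)

lemma A_cr_erase {L : Finset ℕ} (hL : PJ L) {v : ℕ} {A : ℤ → ℤ}
    (hA : Per (fJ (L.erase v)) A) (ε : ℕ → ℤˣ) : A (cr L ε) = A (cr (L.erase v) ε) := by
  exact hA _ _ (cr_sub hL (erase_subset v L) fun q _ => rfl)

/-- If `v ≠ x0`, the sets `J` and `J ∆ {v}` give the same value. If `v = x0`, the sets `J` and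
`(S.erase x0) \ J` give opposite values, and `S.erase x0` is not empty. -/
theorem even_sum_inv {S P : Finset ℕ} {r ri : ℕ → ℕ} (h : Aux S P r ri) {C : Finset ℕ}
    (hC : C ⊆ P) {x0 : ℕ} (hx0 : x0 ∈ S) {v : ℕ} (hv : v ∈ S) (hvC : v ∉ C)
    (h2 : 2 ≤ (LP S r C).card) {A : ℤ → ℤ} (hA : Per (fJ ((LP S r C).erase v)) A)
    (ho : OddA (fJ ((LP S r C).erase v)) A) :
    Even (∑ J ∈ (S.erase x0).powerset, A (cr (LP S r C) (eJ S ri J))) := by
  have hL := k04_PJ h hC
  have hL' : PJ ((LP S r C).erase v) := hL.mono (erase_subset _ _)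
  have hri : ∀ c ∈ C, ri (r c) = c := fun c hc => h.rri c (hC hc)
  have hmem : ∀ q ∈ (LP S r C).erase v, q ∉ S → ∃ c ∈ C, r c = q := by
    intro q hq hqS
    rw [mem_erase] at hq
    have h3 := hq.2
    unfold LP at h3
    rw [mem_union, mem_image] at h3
    rcases h3 with h4 | h4
    · exact absurd h4 hqS
    · exact h4
  have hval : ∀ J, A (cr (LP S r C) (eJ S ri J)) = A (cr ((LP S r C).erase v) (eJ S ri J)) :=
    fun J => A_cr_erase hL hA _
  simp only [hval]
  by_cases hvx : v = x0
  · subst hvx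
    have h3 : ∀ J ∈ (S.erase v).powerset,
        A (cr ((LP S r C).erase v) (eJ S ri (S.erase v \ J))) =
          - A (cr ((LP S r C).erase v) (eJ S ri J)) := by
      intro J _
      rw [← ho _ (cr_coprime hL' _)]
      have h4 : (fJ ((LP S r C).erase v) : ℤ) ∣ cr ((LP S r C).erase v)
          (eJ S ri (S.erase v \ J)) - cr ((LP S r C).erase v) (fun q => - eJ S ri J q) := by
        refine cr_sub hL' Finset.Subset.rfl fun q hq => ?_
        have hsJ : ∀ x ∈ S, x ≠ v → sJ (S.erase v \ J) x = - sJ J x := by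
          intro x hx hxv
          unfold sJ
          have h5 : x ∈ S.erase v \ J ↔ x ∉ J := by
            rw [mem_sdiff, mem_erase]
            tauto
          by_cases h6 : x ∈ J
          · rw [if_pos h6, if_neg (fun h7 => (h5.mp h7) h6), neg_neg]
          · rw [if_neg h6, if_pos (h5.mpr h6)]
        unfold eJ
        by_cases hqS : q ∈ S
        · rw [if_pos hqS, if_pos hqS, hsJ q hqS (mem_erase.mp hq).1]
        · rw [if_neg hqS, if_neg hqS]
          obtain ⟨c, hc, rfl⟩ := hmem q hq hqS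
          rw [hri c hc, hsJ c (h.PS (hC hc)) (fun h8 => hvC (h8 ▸ hc))]
      rw [hA _ _ h4]
      exact hA _ _ (cr_neg hL' _)
    have h4 : ∑ J ∈ (S.erase v).powerset, A (cr ((LP S r C).erase v) (eJ S ri J)) =
        ∑ J ∈ (S.erase v).powerset, A (cr ((LP S r C).erase v) (eJ S ri (S.erase v \ J))) := by
      refine sum_nbij' (fun J => S.erase v \ J) (fun J => S.erase v \ J) ?_ ?_ ?_ ?_ ?_
      · intro J _
        exact mem_powerset.mpr sdiff_subset
      · intro J _
        exact mem_powerset.mpr sdiff_subset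
      · intro J hJ
        exact Finset.sdiff_sdiff_eq_self (mem_powerset.mp hJ)
      · intro J hJ
        exact Finset.sdiff_sdiff_eq_self (mem_powerset.mp hJ)
      · intro J hJ
        show _ = A (cr ((LP S r C).erase v) (eJ S ri (S.erase v \ (S.erase v \ J))))
        rw [Finset.sdiff_sdiff_eq_self (mem_powerset.mp hJ)]
    rw [sum_congr rfl h3, sum_neg_distrib] at h4
    have h5 : ∑ J ∈ (S.erase v).powerset, A (cr ((LP S r C).erase v) (eJ S ri J)) = 0 := by
      linarith
    rw [h5]
    exact Even.zero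
  · have h3 : S.erase x0 = insert v ((S.erase x0).erase v) :=
      (insert_erase (mem_erase.mpr ⟨hvx, hv⟩)).symm
    rw [h3, sum_powerset_insert (notMem_erase v _)]
    have h4 : ∀ J ∈ ((S.erase x0).erase v).powerset,
        A (cr ((LP S r C).erase v) (eJ S ri (insert v J))) =
          A (cr ((LP S r C).erase v) (eJ S ri J)) := by
      intro J _
      refine hA _ _ (cr_sub hL' Finset.Subset.rfl fun q hq => ?_)
      have hsJ : ∀ x, x ≠ v → sJ (insert v J) x = sJ J x := by
        intro x hxv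
        unfold sJ
        have h5 : x ∈ insert v J ↔ x ∈ J := by
          rw [mem_insert]
          tauto
        by_cases h6 : x ∈ J
        · rw [if_pos h6, if_pos (h5.mpr h6)]
        · rw [if_neg h6, if_neg (fun h7 => h6 (h5.mp h7))]
      unfold eJ
      by_cases hqS : q ∈ S
      · rw [if_pos hqS, if_pos hqS, hsJ q (mem_erase.mp hq).1]
      · rw [if_neg hqS, if_neg hqS]
        obtain ⟨c, hc, rfl⟩ := hmem q hq hqS
        rw [hri c hc, hsJ c (fun h8 => hvC (h8 ▸ hc))]
    rw [sum_congr rfl h4]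
    exact ⟨_, rfl⟩

end Pool.Agent.Lib.MP_938ce2_ag_h99x
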