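import Pool.Agent.Lib.MP_938ce2_ag_h99x.KD

/-!
Mixed differences of products, and twice the product of half functions.
-/

set_option autoImplicit false
set_option linter.style.haveILetI false
set_option linter.unusedSectionVars false

open Finset

namespace Pool.Agent.Lib.MP_938ce2_ag_h99x

open Pool.Agent.Lib.MP_938ce2_ag_h99 Pool.Agent.Lib.MP_938ce2_ag_h6
open Pool.Agent.Lib.MP_938ce2_ag_h99t Pool.Agent.Lib.MP_938ce2_ag_h99v

variable {A : Type*} [CommGroup A]

/-- Induction on `ps`: the difference along `z ∈ K p` of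
`g (θ_p Π - (-1)^n (1 - θ_p) Π')` is `g' (Π - (-1)^(n-1) Π')` with
`g' x = g x (θ_p x - θ_p (z x))`. -/
lemma MD_prod (K : ℕ → Subgroup A) (θ : ℕ → A → ℤ) : ∀ ps : List ℕ, ps.Nodup →
    (∀ p ∈ ps, ∀ q ∈ ps, p ≠ q → ∀ z ∈ K q, ∀ x, θ p (z * x) = θ p x) →
    ∀ g : A → ℤ, (∀ q ∈ ps, ∀ z ∈ K q, ∀ x, g (z * x) = g x) →
    MD (ps.map K) (fun x => g x * ((ps.map fun p => θ p x).prod
      - (-1) ^ ps.length * (ps.map fun p => 1 - θ p x).prod)) := by
  intro ps
  induction ps with
  | nil =>
    intro _ _ g _ x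
    show g x * _ = 0
    simp
  | cons p ps ih =>
    intro hnd hθ g hg
    have hpn : p ∉ ps := (List.nodup_cons.mp hnd).1
    have hnd' : ps.Nodup := (List.nodup_cons.mp hnd).2
    rw [List.map_cons, MD_cons]
    intro z hz
    have h1 := ih hnd' (fun a ha b hb hab => hθ a (List.mem_cons_of_mem _ ha) b
      (List.mem_cons_of_mem _ hb) hab) (fun y => g y * (θ p y - θ p (z * y))) (by
        intro q hq w hw x
        have hpq : p ≠ q := fun h => hpn (h ▸ hq)
        have e1 := hg q (List.mem_cons_of_mem _ hq) w hw x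
        have e2 := hθ p List.mem_cons_self q (List.mem_cons_of_mem _ hq) hpq w hw x
        have e3 := hθ p List.mem_cons_self q (List.mem_cons_of_mem _ hq) hpq w hw (z * x)
        have e4 : z * (w * x) = w * (z * x) := mul_left_comm _ _ _
        show g (w * x) * (θ p (w * x) - θ p (z * (w * x))) = g x * (θ p x - θ p (z * x))
        rw [e1, e2, e4, e3])
    convert h1 using 2 with y
    have e1 : (ps.map fun q => θ q (z * y)) = ps.map fun q => θ q y := by
      apply List.map_congr_left
      intro q hq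
      have hpq : q ≠ p := fun h => hpn (h ▸ hq)
      exact hθ q (List.mem_cons_of_mem _ hq) p List.mem_cons_self hpq z hz y
    have e2 : (ps.map fun q => 1 - θ q (z * y)) = ps.map fun q => 1 - θ q y := by
      apply List.map_congr_left
      intro q hq
      have hpq : q ≠ p := fun h => hpn (h ▸ hq)
      rw [hθ q (List.mem_cons_of_mem _ hq) p List.mem_cons_self hpq z hz y]
    have e3 := hg p List.mem_cons_self z hz y
    simp only [List.map_cons, List.prod_cons, List.length_cons]
    rw [e1, e2, e3]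
    ring

/-- With the first element `p` and `Π`, `Π'` the products over the tail,
`2 (θ_p Π - (1 - θ_p) Π') = (Π - Π') + (2 θ_p - 1) (Π + Π')`; `MD_prod` with `g = 2 θ_p - 1` and
`int_split_sign` (with `H = ⊥`, `σ = -1`) split the second term over the tail. -/
theorem two_ex (c : A) (hc2 : c * c = 1) (K : ℕ → Subgroup A) (ps : List ℕ) (hnd : ps.Nodup)
    (hev : Even ps.length)
    (hdis : ∀ p ∈ ps, ∀ qs : List ℕ, (∀ q ∈ qs, q ∈ ps) → p ∉ qs →
      Disjoint (K p) (spanL (qs.map K)))
    (θ : ℕ → A → ℤ) (hθc : ∀ p ∈ ps, ∀ x, θ p (c * x) = 1 - θ p x)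
    (hθ : ∀ p ∈ ps, ∀ q ∈ ps, p ≠ q → ∀ z ∈ K q, ∀ x, θ p (z * x) = θ p x) :
    ∃ G : ℕ → A → ℤ, (∀ p ∈ ps, ∀ z ∈ K p, ∀ x, G p (z * x) = G p x) ∧
      (∀ p ∈ ps, ∀ x, G p (c * x) = - G p x) ∧
      ∀ x, 2 * ((ps.map fun p => θ p x).prod - (ps.map fun p => 1 - θ p x).prod)
        = (ps.map fun p => G p x).sum := by
  classical
  rcases ps with _ | ⟨p, qs⟩
  · exact ⟨fun _ _ => 0, by simp, by simp, by simp⟩
  have hpn : p ∉ qs := (List.nodup_cons.mp hnd).1
  have hnd' : qs.Nodup := (List.nodup_cons.mp hnd).2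
  have hodd : Odd qs.length := by
    rw [List.length_cons] at hev
    rcases Nat.even_or_odd qs.length with h | h
    · exact absurd hev (Nat.not_even_iff_odd.2 h.add_one)
    · exact h
  -- values at `c x`
  have hP : ∀ x, (qs.map fun q => θ q (c * x)) = qs.map fun q => 1 - θ q x := by
    intro x
    apply List.map_congr_left
    intro q hq
    exact hθc q (List.mem_cons_of_mem _ hq) x
  have hP' : ∀ x, (qs.map fun q => 1 - θ q (c * x)) = qs.map fun q => θ q x := by
    intro x
    apply List.map_congr_left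
    intro q hq
    rw [hθc q (List.mem_cons_of_mem _ hq) x]
    ring
  -- invariance under `K p`
  have hI : ∀ z ∈ K p, ∀ x, (qs.map fun q => θ q (z * x)) = qs.map fun q => θ q x := by
    intro z hz x
    apply List.map_congr_left
    intro q hq
    exact hθ q (List.mem_cons_of_mem _ hq) p List.mem_cons_self (fun h => hpn (h ▸ hq)) z hz x
  have hI' : ∀ z ∈ K p, ∀ x, (qs.map fun q => 1 - θ q (z * x)) = qs.map fun q => 1 - θ q x := by
    intro z hz x
    apply List.map_congr_left
    intro q hq
    rw [hθ q (List.mem_cons_of_mem _ hq) p List.mem_cons_self (fun h => hpn (h ▸ hq)) z hz x]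
  have hg : ∀ q ∈ qs, ∀ z ∈ K q, ∀ x, θ p (z * x) = θ p x := by
    intro q hq z hz x
    exact hθ p List.mem_cons_self q (List.mem_cons_of_mem _ hq) (fun h => hpn (h ▸ hq)) z hz x
  have hM := MD_prod K θ qs hnd' (fun a ha b hb hab => hθ a (List.mem_cons_of_mem _ ha) b
    (List.mem_cons_of_mem _ hb) hab) (fun x => 2 * θ p x - 1) (by
      intro q hq z hz x
      show 2 * θ p (z * x) - 1 = 2 * θ p x - 1
      rw [hg q hq z hz x])
  have hind : IndepH ⊥ (qs.map K) := by
    have key : ∀ rs : List ℕ, rs.Nodup → (∀ q ∈ rs, q ∈ qs) → IndepH ⊥ (rs.map K) := by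
      intro rs
      induction rs with
      | nil => intro _ _; exact trivial
      | cons r rs ih =>
        intro hn hs
        rw [List.map_cons]
        refine ⟨?_, ih (List.nodup_cons.mp hn).2 fun q hq => hs q (List.mem_cons_of_mem _ hq)⟩
        rw [sup_bot_eq]
        exact hdis r (List.mem_cons_of_mem _ (hs r List.mem_cons_self)) rs
          (fun q hq => List.mem_cons_of_mem _ (hs q (List.mem_cons_of_mem _ hq)))
          (List.nodup_cons.mp hn).1
    exact key qs hnd' fun q hq => hq
  have hc : c ∉ spanL (qs.map K) ⊔ ⊥ := by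
    rw [sup_bot_eq]
    intro hc
    have h1 := inv_spanL (f := θ p) (K := K) (ps := qs) hg c hc 1
    have h2 := hθc p List.mem_cons_self 1
    rw [h1] at h2
    omega
  obtain ⟨G, hG1, hG2, hG3⟩ := int_split_sign c hc2 (-1) K ⊥ qs hnd' hind hc _ hM (by
    intro x
    rw [hP x, hP' x, hθc p List.mem_cons_self x, hodd.neg_one_pow]
    ring) (by
    intro z hz x
    rw [Subgroup.mem_bot.mp hz, one_mul])
  refine ⟨fun r => if r = p then fun x => (qs.map fun q => θ q x).prod
    - (qs.map fun q => 1 - θ q x).prod else G r, ?_, ?_, ?_⟩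
  · intro r hr z hz x
    by_cases hrp : r = p
    · subst hrp
      simp only [if_true]
      rw [hI z hz x, hI' z hz x]
    · simp only [if_neg hrp]
      have hrq : r ∈ qs := (List.mem_cons.mp hr).resolve_left hrp
      exact hG1 r hrq z (Subgroup.mem_sup_left hz) x
  · intro r hr x
    by_cases hrp : r = p
    · subst hrp
      simp only [if_true]
      rw [hP x, hP' x]
      ring
    · simp only [if_neg hrp]
      have hrq : r ∈ qs := (List.mem_cons.mp hr).resolve_left hrp
      rw [hG3 r hrq x]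
      ring
  · intro x
    have h1 : (qs.map fun r => (if r = p then fun x => (qs.map fun q => θ q x).prod
        - (qs.map fun q => 1 - θ q x).prod else G r) x) = qs.map fun r => G r x := by
      apply List.map_congr_left
      intro r hr
      have hrp : r ≠ p := fun h => hpn (h ▸ hr)
      rw [if_neg hrp]
    have h2 := hG2 x
    simp only [List.map_cons, List.prod_cons, List.sum_cons, if_true]
    rw [h1, ← h2, hodd.neg_one_pow]
    ring

/-- `F = e (F - F (z ·))`, then `MD.mul_inv` -/
lemma MD_drop {K : Subgroup A} {L : List (Subgroup A)} {F e : A → ℤ} (hF : MD (K :: L) F) {z : A}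
    (hz : z ∈ K) (h1 : ∀ x, F x = e x * F x) (h2 : ∀ x, e x * F (z * x) = 0)
    (h3 : ∀ y ∈ spanL L, ∀ x, e (y * x) = e x) : MD L F := by
  have h4 := (MD_cons.mp hF z hz).mul_inv h3
  convert h4 using 1
  funext x
  have h5 := h1 x
  have h6 := h2 x
  rw [mul_sub, h6, sub_zero]
  exact h5

end Pool.Agent.Lib.MP_938ce2_ag_h99x
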