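import Pool.Agent.Lib.MP_938ce2_ag_h99x.K02

/-!
Units with given signs.
-/

set_option autoImplicit false
set_option linter.style.haveILetI false
set_option linter.unusedSectionVars false

open Finset

namespace Pool.Agent.Lib.MP_938ce2_ag_h99x

open Pool.Agent.Lib.MP_938ce2_ag_h99 Pool.Agent.Lib.MP_938ce2_ag_h6
open Pool.Agent.Lib.MP_938ce2_ag_h99t Pool.Agent.Lib.MP_938ce2_ag_h99v

variable {m : ℕ} [NeZero m]


private lemma isU {L : Finset ℕ} (hL : PJ L) (ε : ℕ → ℤˣ) :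
    IsUnit ((cr L ε : ℤ) : ZMod (fJ L)) :=
  (ZMod.coe_int_isUnit_iff_isCoprime _ _).2 (cr_coprime hL ε).symm

lemma ue_val {L : Finset ℕ} (hL : PJ L) (ε : ℕ → ℤˣ) :
    ((ue L ε : (ZMod (fJ L))ˣ) : ZMod (fJ L)) = ((cr L ε : ℤ) : ZMod (fJ L)) := by
  unfold ue
  rw [dif_pos (isU hL ε)]
  rfl

lemma ue_neg {L : Finset ℕ} (hL : PJ L) (ε : ℕ → ℤˣ) :
    ue L (fun q => - ε q) = (-1) * ue L ε := by
  apply Units.ext
  rw [Units.val_mul, ue_val hL, ue_val hL, Units.val_neg, Units.val_one, neg_one_mul, ← Int.cast_neg,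
    ZMod.intCast_eq_intCast_iff_dvd_sub]
  have h := cr_neg hL ε
  rw [← dvd_neg] at h
  have e : -(cr L (fun q => - ε q) - (- cr L ε)) = -cr L ε - cr L (fun q => - ε q) := by ring
  rwa [e] at h

/-- `mem_Kp`: `z ∈ Kp f v` iff `z * v = v` -/
lemma ue_flip {L : Finset ℕ} (hL : PJ L) {v : ℕ} (hv : v ∈ L) {ε ε' : ℕ → ℤˣ}
    (h : ∀ q ∈ L, q ≠ v → ε q = ε' q) : ∃ z ∈ Kp (fJ L) v, ue L ε' = z * ue L ε := by
  refine ⟨ue L ε' * (ue L ε)⁻¹, ?_, by rw [inv_mul_cancel_right]⟩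
  have hK : PJ (L.erase v) := hL.mono (Finset.erase_subset _ _)
  have h1 : (fJ (L.erase v) : ℤ) ∣ cr L ε' - cr L ε := by
    have a1 := cr_sub (K := L.erase v) hL (Finset.erase_subset _ _) (ε := ε') (ε' := ε')
      (fun _ _ => rfl)
    have a2 := cr_sub (K := L.erase v) hL (Finset.erase_subset _ _) (ε := ε) (ε' := ε')
      (fun q hq => h q (Finset.mem_of_mem_erase hq) (Finset.ne_of_mem_erase hq))
    have := dvd_sub a1 a2
    have e : cr L ε' - cr (L.erase v) ε' - (cr L ε - cr (L.erase v) ε') = cr L ε' - cr L ε := by ring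
    rwa [e] at this
  have h2 : (fJ L : ℤ) ∣ (cr L ε' - cr L ε) * v := by
    have hvp := hL v hv
    have e0 : (fJ L : ℤ) = (ep v : ℤ) * (fJ (L.erase v) : ℤ) := by
      rw [fJ_erase hv]
      push_cast
      ring
    rw [e0]
    by_cases hv2 : v = 2
    · have c1 := cr_spec hL ε' hv
      have c2 := cr_spec hL ε hv
      have h4 : ep v = 4 := by unfold ep; rw [if_pos hv2]
      rw [h4] at c1 c2 ⊢
      have d2 : (2 : ℤ) ∣ cr L ε' - cr L ε := by
        have u1 : (2 : ℤ) ∣ (ε' v : ℤ) - (ε v : ℤ) := by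
          rcases Int.units_eq_one_or (ε' v) with h5 | h5 <;> rcases Int.units_eq_one_or (ε v) with h6 | h6 <;>
            rw [h5, h6] <;> norm_num
        have d1 : (2 : ℤ) ∣ cr L ε' - (ε' v : ℤ) := (by norm_num : (2 : ℤ) ∣ ((4 : ℕ) : ℤ)).trans c1
        have d3 : (2 : ℤ) ∣ cr L ε - (ε v : ℤ) := (by norm_num : (2 : ℤ) ∣ ((4 : ℕ) : ℤ)).trans c2
        have := dvd_add (dvd_sub d1 d3) u1
        have e : cr L ε' - (ε' v : ℤ) - (cr L ε - (ε v : ℤ)) + ((ε' v : ℤ) - (ε v : ℤ)) =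
          cr L ε' - cr L ε := by ring
        rwa [e] at this
      have hodd : IsCoprime (2 : ℤ) (fJ (L.erase v) : ℤ) := by
        have := (coprime_fJ_iff hK (k := 2)).2 (fun q hq hq2 => by
          have h7 : q = 2 := by
            rcases (Nat.dvd_prime Nat.prime_two).1 hq2 with h8 | h8
            · exact absurd h8 (hK q hq).one_lt.ne'
            · exact h8
          exact (Finset.ne_of_mem_erase hq) (h7.trans hv2.symm))
        exact_mod_cast Nat.isCoprime_iff_coprime.2 this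
      have h3 : (2 : ℤ) * (fJ (L.erase v) : ℤ) ∣ cr L ε' - cr L ε := hodd.mul_dvd d2 h1
      have := mul_dvd_mul_right h3 (2 : ℤ)
      rw [hv2]
      have e : ((4 : ℕ) : ℤ) * (fJ (L.erase 2) : ℤ) = 2 * (fJ (L.erase 2) : ℤ) * 2 := by push_cast; ring
      rw [e]
      rw [hv2] at this
      exact_mod_cast this
    · have h4 : ep v = v := by unfold ep; rw [if_neg hv2]
      rw [h4, mul_comm]
      exact mul_dvd_mul_right h1 _
  change ((ue L ε' * (ue L ε)⁻¹ : (ZMod (fJ L))ˣ) : ZMod (fJ L)) * (v : ZMod (fJ L)) = v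
  have h3 : ((ue L ε' : (ZMod (fJ L))ˣ) : ZMod (fJ L)) * (v : ZMod (fJ L)) =
      ((ue L ε : (ZMod (fJ L))ˣ) : ZMod (fJ L)) * (v : ZMod (fJ L)) := by
    rw [ue_val hL, ue_val hL]
    have h5 := (ZMod.intCast_zmod_eq_zero_iff_dvd ((cr L ε' - cr L ε) * v) (fJ L)).2 h2
    push_cast at h5
    rw [sub_mul, sub_eq_zero] at h5
    exact h5
  rw [Units.val_mul, mul_right_comm, h3, mul_right_comm, Units.mul_inv, one_mul]

lemma val_ue {L : Finset ℕ} (hL : PJ L) (hm : fJ L ∣ m) (F : ZMod m → ℤ) (ε : ℕ → ℤˣ) :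
    val F L ε = F (jj hm ((ue L ε : (ZMod (fJ L))ˣ) : ZMod (fJ L))) := by
  rw [ue_val hL, jj_intCast]
  rfl

end Pool.Agent.Lib.MP_938ce2_ag_h99x
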