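import Pool.Agent.Lib.MP_938ce2_ag_h99x.K06

/-!
Parity of the sums over the signs.
-/

set_option autoImplicit false
set_option linter.style.haveILetI false
set_option linter.unusedSectionVars false

open Finset

namespace Pool.Agent.Lib.MP_938ce2_ag_h99x

open Pool.Agent.Lib.MP_938ce2_ag_h99 Pool.Agent.Lib.MP_938ce2_ag_h6
open Pool.Agent.Lib.MP_938ce2_ag_h99t Pool.Agent.Lib.MP_938ce2_ag_h99v

/-- As `even_sum_inv` in K04.lean: if `v ≠ x0` the sets `J` and `J ∆ {v}` give the same value
(`ue_flip`), if `v = x0` the sets `J` and `(L.erase x0) \ J` give opposite values. -/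
theorem even_sum_Kp {L : Finset ℕ} (hL : PJ L) (h2 : 2 ≤ L.card) {x0 : ℕ} (hx0 : x0 ∈ L) {v : ℕ}
    (hv : v ∈ L) {G : (ZMod (fJ L))ˣ → ℤ} (hG : ∀ z ∈ Kp (fJ L) v, ∀ u, G (z * u) = G u)
    (ho : ∀ u, G ((-1) * u) = - G u) :
    Even (∑ J ∈ (L.erase x0).powerset, G (ue L (sJ J))) := by
  by_cases hvx : v = x0
  · subst hvx
    obtain ⟨w, hw⟩ : (L.erase v).Nonempty := by
      rw [← Finset.card_pos, Finset.card_erase_of_mem hv]
      omega
    have key : ∀ J, J ⊆ L.erase v → G (ue L (sJ ((L.erase v) \ J))) = - G (ue L (sJ J)) := by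
      intro J hJ
      obtain ⟨z, hz, e⟩ := ue_flip hL hv (ε := fun q => - sJ J q) (ε' := sJ ((L.erase v) \ J)) (by
        intro q hq hqv
        unfold sJ
        by_cases hqJ : q ∈ J
        · have h1 : q ∉ (L.erase v) \ J := by simp [hqJ]
          rw [if_pos hqJ, if_neg h1, neg_neg]
        · have h1 : q ∈ (L.erase v) \ J := by simp [hqJ, hq, hqv]
          rw [if_neg hqJ, if_pos h1])
      rw [e, hG z hz, ue_neg hL, ho]
    obtain ⟨s, hsd⟩ : ∃ s, s = (L.erase v).erase w := ⟨_, rfl⟩
    have hs : L.erase v = insert w s := by rw [hsd]; exact (Finset.insert_erase hw).symm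
    have hws : w ∉ s := by rw [hsd]; exact Finset.notMem_erase w _
    have h1 : ∑ t ∈ s.powerset, G (ue L (sJ (insert w t))) = ∑ t ∈ s.powerset, - G (ue L (sJ t)) := by
      refine Finset.sum_bij' (fun t _ => s \ t) (fun t _ => s \ t) ?_ ?_ ?_ ?_ ?_
      · intro t _
        exact Finset.mem_powerset.2 Finset.sdiff_subset
      · intro t _
        exact Finset.mem_powerset.2 Finset.sdiff_subset
      · intro t ht
        exact Finset.sdiff_sdiff_eq_self (Finset.mem_powerset.1 ht)
      · intro t ht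
        exact Finset.sdiff_sdiff_eq_self (Finset.mem_powerset.1 ht)
      · intro t ht
        have hts := Finset.mem_powerset.1 ht
        have h2 := key (s \ t) (by rw [hs]; exact Finset.sdiff_subset.trans (Finset.subset_insert _ _))
        rw [← h2, hs]
        congr 3
        ext q
        simp only [Finset.mem_insert, Finset.mem_sdiff, not_and, not_not]
        constructor
        · rintro (rfl | h3)
          · exact ⟨Or.inl rfl, fun h4 => absurd h4 hws⟩
          · exact ⟨Or.inr (hts h3), fun _ => h3⟩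
        · rintro ⟨rfl | h3, h4⟩
          · exact Or.inl rfl
          · exact Or.inr (h4 h3)
    rw [hs, Finset.sum_powerset_insert hws, h1, Finset.sum_neg_distrib, add_neg_cancel]
    exact Even.zero
  · have hv' : v ∈ L.erase x0 := Finset.mem_erase.2 ⟨hvx, hv⟩
    obtain ⟨s, hsd⟩ : ∃ s, s = (L.erase x0).erase v := ⟨_, rfl⟩
    have hs : L.erase x0 = insert v s := by rw [hsd]; exact (Finset.insert_erase hv').symm
    have hvs : v ∉ s := by rw [hsd]; exact Finset.notMem_erase v _
    rw [hs, Finset.sum_powerset_insert hvs]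
    have h1 : ∑ t ∈ s.powerset, G (ue L (sJ (insert v t))) = ∑ t ∈ s.powerset, G (ue L (sJ t)) := by
      refine Finset.sum_congr rfl fun t _ => ?_
      obtain ⟨z, hz, e⟩ := ue_flip hL hv (ε := sJ t) (ε' := sJ (insert v t)) (by
        intro q _ hqv
        unfold sJ
        by_cases hqt : q ∈ t
        · rw [if_pos hqt, if_pos (Finset.mem_insert_of_mem hqt)]
        · have h2 : q ∉ insert v t := by simp [hqt, hqv]
          rw [if_neg hqt, if_neg h2])
      rw [e, hG z hz]
    rw [h1]
    exact ⟨_, rfl⟩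

/-- With `t p = θ p (ue L 1)`: `θ p (ue L (sJ J))` is `t p` for `p` not in `J` and `1 - t p` for `p`
in `J` (`ue_flip`, `ue_neg`), so the sum is `t x0 - (1 - t x0)` (`Finset.prod_add`). -/
theorem odd_sum_half {L : Finset ℕ} (hL : PJ L) {x0 : ℕ} (hx0 : x0 ∈ L)
    {θ : ℕ → (ZMod (fJ L))ˣ → ℤ} (hθ : HalfF (fJ L) θ) :
    Odd (∑ J ∈ (L.erase x0).powerset,
      (∏ p ∈ L, θ p (ue L (sJ J)) - ∏ p ∈ L, (1 - θ p (ue L (sJ J))))) := by
  have hpf := fJ_primeFactors hL
  obtain ⟨hθ1, hθ2⟩ := hθ
  rw [hpf] at hθ1 hθ2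
  -- the value depends only on the sign of `p`
  have key0 : ∀ ε ε' : ℕ → ℤˣ, (∀ q ∈ L, ε q = ε' q) → ue L ε = ue L ε' := by
    intro ε ε' h
    apply Units.ext
    rw [ue_val hL, ue_val hL, ZMod.intCast_eq_intCast_iff_dvd_sub]
    exact cr_sub hL (Finset.Subset.refl L) fun q hq => (h q hq).symm
  have key1 : ∀ p ∈ L, ∀ ε ε' : ℕ → ℤˣ, ε p = ε' p → θ p (ue L ε) = θ p (ue L ε') := by
    intro p hp ε ε' hpp
    have key : ∀ T : Finset ℕ, T ⊆ L.erase p →
        θ p (ue L (fun q => if q ∈ T then ε' q else ε q)) = θ p (ue L ε) := by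
      intro T
      induction T using Finset.induction_on with
      | empty => intro _; simp
      | insert a T ha ih =>
        intro hT
        rw [Finset.insert_subset_iff] at hT
        have haL := Finset.mem_erase.1 hT.1
        obtain ⟨z, hz, e⟩ := ue_flip hL haL.2 (ε := fun q => if q ∈ T then ε' q else ε q)
          (ε' := fun q => if q ∈ insert a T then ε' q else ε q) (by
            intro q _ hqa
            by_cases hqT : q ∈ T
            · rw [if_pos hqT, if_pos (Finset.mem_insert_of_mem hqT)]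
            · have h2 : q ∉ insert a T := by simp [hqT, hqa]
              rw [if_neg hqT, if_neg h2])
        rw [e, hθ2 p hp a haL.2 (Ne.symm haL.1) z hz]
        exact ih hT.2
    rw [← key (L.erase p) (Finset.Subset.refl _)]
    congr 1
    apply key0
    intro q hq
    by_cases hqp : q = p
    · subst hqp
      rw [if_neg (Finset.notMem_erase q L)]
      exact hpp
    · rw [if_pos (Finset.mem_erase.2 ⟨hqp, hq⟩)]
  obtain ⟨t, ht⟩ : ∃ t : ℕ → ℤ, t = fun p => θ p (ue L (fun _ => 1)) := ⟨_, rfl⟩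
  have key2 : ∀ p ∈ L, ∀ J : Finset ℕ, θ p (ue L (sJ J)) = if p ∈ J then 1 - t p else t p := by
    intro p hp J
    by_cases hpJ : p ∈ J
    · rw [if_pos hpJ, ht]
      have h1 := key1 p hp (sJ J) (fun q => - (fun _ => (1 : ℤˣ)) q) (by
        unfold sJ
        rw [if_pos hpJ])
      rw [h1, ue_neg hL, hθ1 p hp]
    · rw [if_neg hpJ, ht]
      exact key1 p hp (sJ J) (fun _ => 1) (by
        unfold sJ
        rw [if_neg hpJ])
  have hsum : ∀ f g : ℕ → ℤ, (∀ p, f p + g p = 1) →
      ∑ J ∈ (L.erase x0).powerset, ∏ p ∈ L, (if p ∈ J then f p else g p) = g x0 := by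
    intro f g hfg
    have h1 : ∀ J ∈ (L.erase x0).powerset, ∏ p ∈ L, (if p ∈ J then f p else g p) =
        g x0 * ((∏ p ∈ J, f p) * ∏ p ∈ (L.erase x0) \ J, g p) := by
      intro J hJ
      have hJs := Finset.mem_powerset.1 hJ
      have hxJ : x0 ∉ J := fun h => (Finset.notMem_erase x0 L) (hJs h)
      rw [← Finset.mul_prod_erase L _ hx0, if_neg hxJ, Finset.prod_ite, Finset.filter_mem_eq_inter,
        Finset.filter_notMem_eq_sdiff, Finset.inter_eq_right.2 hJs]
    rw [Finset.sum_congr rfl h1, ← Finset.mul_sum, ← Finset.prod_add]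
    simp [hfg]
  have e1 : ∑ J ∈ (L.erase x0).powerset,
      (∏ p ∈ L, θ p (ue L (sJ J)) - ∏ p ∈ L, (1 - θ p (ue L (sJ J)))) = t x0 - (1 - t x0) := by
    rw [Finset.sum_sub_distrib]
    congr 1
    · rw [← hsum (fun p => 1 - t p) t (fun p => by ring)]
      refine Finset.sum_congr rfl fun J _ => Finset.prod_congr rfl fun p hp => key2 p hp J
    · rw [← hsum t (fun p => 1 - t p) (fun p => by ring)]
      refine Finset.sum_congr rfl fun J _ => Finset.prod_congr rfl fun p hp => ?_
      rw [key2 p hp J]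
      by_cases hpJ : p ∈ J
      · rw [if_pos hpJ, if_pos hpJ]; ring
      · rw [if_neg hpJ, if_neg hpJ]
  rw [e1]
  exact ⟨t x0 - 1, by ring⟩

end Pool.Agent.Lib.MP_938ce2_ag_h99x
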