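import Pool.Agent.Lib.MP_938ce2_ag_h99x.K07
import Pool.Agent.Lib.MP_938ce2_ag_h99x.K05
import Pool.Agent.Lib.MP_938ce2_ag_h99x.K03

/-!
A level is removed.
-/

set_option autoImplicit false
set_option linter.style.haveILetI false
set_option linter.unusedSectionVars false

open Finset

namespace Pool.Agent.Lib.MP_938ce2_ag_h99x

open Pool.Agent.Lib.MP_938ce2_ag_h99 Pool.Agent.Lib.MP_938ce2_ag_h6
open Pool.Agent.Lib.MP_938ce2_ag_h99t Pool.Agent.Lib.MP_938ce2_ag_h99v

variable {m : ℕ} [NeZero m]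


/-- As the proof of `step_many` in h99/LevelMany.lean with `θ = half`: `split_gen` gives
`F = ∑ G + n (∏ θ - ∏ (1 - θ))` with `n = 0` if `L.card` is odd; if `L.card` is even then `n` is even
by `hev`, `even_sum_Kp`, `odd_sum_half` (`val_ue`), and `two_ex` splits the second term. Then
`Peeled.of_peel`; compare `rem_even` in h99v/L03.lean. -/
theorem peel_even' {L : Finset ℕ} (hL : PJ L) (hne : L.Nonempty)
    (hm : fJ L ∣ m) {F : ZMod m → ℤ} (ho : OddF F) (hT : TateF F)
    (hs : ∀ a, F a ≠ 0 → fJ L ∣ addOrderOf a → addOrderOf a = fJ L)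
    (hev : Even L.card → ∃ x0 ∈ L, Even (Om0 F L x0)) : ∃ F', Peeled (fJ L) F F' := by
  have hf0 : fJ L ≠ 0 := (fJ_pos hL).ne'
  haveI : NeZero (fJ L) := ⟨hf0⟩
  have hpf : (fJ L).primeFactors = L := fJ_primeFactors hL
  have hf4 : fJ L % 4 ≠ 2 := fJ_mod_four hL
  have hfr : fJ L ∣ 2 * rad (fJ L) := fJ_rad hL
  have hprod := eff_prod hf0 hf4 hfr
  have htot := tot_prod hf0 hf4 hfr
  have hθ : HalfF (fJ L) (half (fJ L)) := halfF_half hprod
  obtain ⟨ps, hps⟩ : ∃ ps : List ℕ, ps = L.toList := ⟨_, rfl⟩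
  have hmem : ∀ p, p ∈ ps ↔ p ∈ L := fun p => by rw [hps, Finset.mem_toList]
  have hmem' : ∀ p, p ∈ ps → p ∈ (fJ L).primeFactors := fun p hp => by
    rw [hpf]; exact (hmem p).mp hp
  have hprime : ∀ p ∈ ps, p.Prime ∧ p ∣ fJ L := fun p hp =>
    ⟨Nat.prime_of_mem_primeFactors (hmem' p hp), Nat.dvd_of_mem_primeFactors (hmem' p hp)⟩
  have hnd : ps.Nodup := by rw [hps]; exact Finset.nodup_toList _
  have hlen : ps.length = L.card := by rw [hps, Finset.length_toList]
  have hne' : ps ≠ [] := by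
    intro h0
    rw [h0] at hlen
    have := hne.card_pos
    simp at hlen
    omega
  have htop : spanL ((ps ++ []).map (Kp (fJ L))) = ⊤ := by
    rw [List.append_nil]
    apply Subgroup.eq_top_of_card_eq
    rw [card_spanL ps hprime hnd, Nat.card_eq_fintype_card, ZMod.card_units_eq_totient, ← htot,
      hpf, hps, Finset.prod_map_toList]
  have hdis : ∀ p ∈ ps, ∀ qs : List ℕ, (∀ q ∈ qs, q ∈ ps) → p ∉ qs →
      Disjoint (Kp (fJ L) p) (spanL (qs.map (Kp (fJ L)))) := fun p hp qs hqs hpq =>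
    disjoint_Kp_span (hprime p hp).1 qs (fun q hq => hprime q (hqs q hq)) hpq
  have hMD := MD_top hm F ho hT hs ps
    (fun p hp hpf' => (hmem p).mpr (by rw [← hpf]; exact Nat.mem_primeFactors.mpr ⟨hp, hpf', hf0⟩))
  obtain ⟨G, n, hn, g1, g2, -, g4⟩ := split_gen (-1 : (ZMod (fJ L))ˣ) (by simp) (Kp (fJ L)) ps
    hdis (half (fJ L))
    (fun p hp x => hθ.1 p (hmem' p hp) x)
    (fun p hp q hq hpq z hz x => hθ.2 p (hmem' p hp) q (hmem' q hq) hpq z hz x)
    ps hne' [] (by rw [List.append_nil]; exact hnd) (by rw [List.append_nil]; exact fun p hp => hp)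
    htop (-1) (by norm_num) (fun u : (ZMod (fJ L))ˣ => F (jj hm (u : ZMod (fJ L))))
    (fun u => by rw [odd_top hm ho, neg_one_mul]) (by
      intro z hz x
      have : z = 1 := by simpa [spanL] using hz
      rw [this, one_mul]) hMD
  have g1' : ∀ p ∈ ps, ∀ z ∈ Kp (fJ L) p, ∀ x, G p (z * x) = G p x := fun p hp z hz x =>
    g1 p hp z (Subgroup.mem_sup_left hz) x
  have g2' : ∀ p ∈ ps, ∀ x, G p ((-1) * x) = - G p x := fun p hp x => by rw [g2 p hp]; ring
  -- the second term is a sum of the same kind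
  obtain ⟨G', k1, k2, k3⟩ : ∃ G' : ℕ → (ZMod (fJ L))ˣ → ℤ,
      (∀ p ∈ ps, ∀ z ∈ Kp (fJ L) p, ∀ x, G' p (z * x) = G' p x) ∧
      (∀ p ∈ ps, ∀ x, G' p ((-1) * x) = - G' p x) ∧
      ∀ x, n * ((ps.map fun p => half (fJ L) p x).prod
        - (ps.map fun p => 1 - half (fJ L) p x).prod) = (ps.map fun p => G' p x).sum := by
    by_cases hev' : Even L.card
    · obtain ⟨x0, hx0, hOm⟩ := hev hev'
      have h2 : 2 ≤ L.card := by
        have := hne.card_pos
        obtain ⟨t, ht⟩ := hev'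
        omega
      have hnev : Even n := by
        have e1 : Om0 F L x0 = ∑ J ∈ (L.erase x0).powerset,
            ((ps.map fun p => G p (ue L (sJ J))).sum + n * (∏ p ∈ L, half (fJ L) p (ue L (sJ J))
              - ∏ p ∈ L, (1 - half (fJ L) p (ue L (sJ J))))) := by
          unfold Om0
          refine sum_congr rfl fun J _ => ?_
          rw [val_ue hL hm F (sJ J)]
          have h := g4 (ue L (sJ J))
          beta_reduce at h
          rw [h, hps, Finset.prod_map_toList, Finset.prod_map_toList]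
          ring
        have e2 : ∀ ε : ℕ → ℤˣ, (ps.map fun p => G p (ue L ε)).sum = ∑ p ∈ L, G p (ue L ε) := by
          intro ε
          rw [hps, Finset.sum_map_toList]
        have e3 : Even (∑ J ∈ (L.erase x0).powerset, ∑ p ∈ L, G p (ue L (sJ J))) := by
          rw [sum_comm]
          refine Finset.even_sum _ fun p hp => ?_
          exact even_sum_Kp hL h2 hx0 hp (g1' p ((hmem p).mpr hp)) (g2' p ((hmem p).mpr hp))
        have e4 : Odd (∑ J ∈ (L.erase x0).powerset, (∏ p ∈ L, half (fJ L) p (ue L (sJ J))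
              - ∏ p ∈ L, (1 - half (fJ L) p (ue L (sJ J))))) := odd_sum_half hL hx0 hθ
        rw [e1, sum_add_distrib, ← mul_sum] at hOm
        simp only [e2] at hOm
        rw [Int.even_add] at hOm
        have h5 := hOm.mp e3
        rcases Int.even_mul.mp h5 with h6 | h6
        · exact h6
        · exact absurd h6 (Int.not_even_iff_odd.mpr e4)
      obtain ⟨k, hk⟩ := hnev
      obtain ⟨G', a1, a2, a3⟩ := two_ex (-1 : (ZMod (fJ L))ˣ) (by simp) (Kp (fJ L)) ps hnd
        (by rw [hlen]; exact hev') hdis (half (fJ L))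
        (fun p hp x => hθ.1 p (hmem' p hp) x)
        (fun p hp q hq hpq z hz x => hθ.2 p (hmem' p hp) q (hmem' q hq) hpq z hz x)
      refine ⟨fun p x => k * G' p x, ?_, ?_, ?_⟩
      · intro p hp z hz x
        beta_reduce
        rw [a1 p hp z hz x]
      · intro p hp x
        beta_reduce
        rw [a2 p hp x]
        ring
      · intro x
        have h := a3 x
        rw [List.sum_map_mul_left, ← h, hk]
        ring
    · have hn0 : n = 0 := by
        by_contra h0
        have h1 := hn h0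
        rw [hlen, Even.neg_one_pow ((Nat.not_even_iff_odd.mp hev').add_one)] at h1
        norm_num at h1
      refine ⟨fun _ _ => 0, fun _ _ _ _ _ => rfl, fun _ _ _ => by simp, fun x => ?_⟩
      rw [hn0]
      simp
  exact Peeled.of_peel hm ho hT ps hprime
    (fun p x => G p x + G' p x)
    (fun p hp z hz x => by rw [g1' p hp z hz x, k1 p hp z hz x])
    (fun u => by
      have h := g4 u
      beta_reduce at h
      rw [h, List.sum_map_add, ← k3 u]
      ring)
    (fun p hp u => by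
      rw [g2' p hp, k2 p hp]
      ring)

/-- As `peel_even'`, inside `X ⊔ relSub m`. -/
theorem peel_even {X : AddSubgroup (ZMod m → ℤ)} {L : Finset ℕ} (hL : PJ L) (hne : L.Nonempty)
    (hm : fJ L ∣ m) {F : ZMod m → ℤ} (hF : InX X F)
    (hs : ∀ a, F a ≠ 0 → fJ L ∣ addOrderOf a → addOrderOf a = fJ L)
    (hev : Even L.card → ∃ x0 ∈ L, Even (Om0 F L x0)) : ∃ F', Rem X (fJ L) F F' := by
  obtain ⟨F', hr1, hr2, hr3, hr4, hr5⟩ := peel_even' hL hne hm hF.odd hF.tate hs hev
  refine ⟨F', ⟨⟨?_, hr2, hr3⟩, hr4, hr5⟩⟩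
  have e : F' = F - (F - F') := by abel
  rw [e]
  exact (X ⊔ relSub m).sub_mem hF.mem ((le_sup_right : relSub m ≤ X ⊔ relSub m) hr1)

end Pool.Agent.Lib.MP_938ce2_ag_h99x
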