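import Pool.Agent.Lib.MP_938ce2_ag_h99x.K05
import Pool.Agent.Lib.MP_938ce2_ag_h99x.K02

/-!
Mixed differences of functions supported on residues.
-/

set_option autoImplicit false
set_option linter.style.haveILetI false
set_option linter.unusedSectionVars false

open Finset

namespace Pool.Agent.Lib.MP_938ce2_ag_h99x

open Pool.Agent.Lib.MP_938ce2_ag_h99 Pool.Agent.Lib.MP_938ce2_ag_h6
open Pool.Agent.Lib.MP_938ce2_ag_h99t Pool.Agent.Lib.MP_938ce2_ag_h99v

variable {m : ℕ} [NeZero m]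

private lemma k10_nonres {p : ℕ} (hp : p.Prime) (hp2 : p ≠ 2) :
    ∃ u : ℕ, jacobiSym (u : ℤ) p = -1 ∧ u.Coprime p := by
  have : Fact p.Prime := ⟨hp⟩
  have hc : ringChar (ZMod p) ≠ 2 := by
    rw [ZMod.ringChar_zmod_n]; exact hp2
  obtain ⟨a, ha⟩ := FiniteField.exists_nonsquare hc
  refine ⟨a.val, ?_, ?_⟩
  · rw [← jacobiSym.legendreSym.to_jacobiSym, legendreSym.eq_neg_one_iff]
    simpa using ha
  · have ha0 : a ≠ 0 := by
      rintro rfl
      exact ha ⟨0, by simp⟩
    have : IsUnit a := isUnit_iff_ne_zero.2 ha0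
    rw [← ZMod.isUnit_iff_coprime]
    simpa using this

private lemma k10_ep_cop {p q : ℕ} (hp : p.Prime) (hq : q.Prime) (hpq : p ≠ q) :
    Nat.Coprime (ep p) (ep q) := by
  have h1 : Nat.Coprime p (ep q) := coprime_ep hq hp (Ne.symm hpq)
  have h2 : ep p = p ∨ ep p = p ^ 2 := by
    unfold ep
    split_ifs with h
    · right; subst h; norm_num
    · left; rfl
  rcases h2 with h2 | h2
  · rw [h2]; exact h1
  · rw [h2]; exact Nat.Coprime.pow_left 2 h1

private lemma k10_cop {L : Finset ℕ} (hL : PJ L) {v : ℕ} (hv : v ∈ L) :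
    Nat.Coprime (ep v) (fJ (L.erase v)) := by
  unfold fJ
  apply Nat.Coprime.prod_right
  intro q hq
  obtain ⟨h1, h2⟩ := mem_erase.mp hq
  exact k10_ep_cop (hL v hv) (hL q h2) (Ne.symm h1)

/-- an element of `Kp (fJ L) p` which is a nonresidue modulo `p` -/
private lemma k10_z {L : Finset ℕ} (hL : PJ L) {p : ℕ} (hp : p ∈ L) (hp4 : p % 4 = 1) :
    ∃ z ∈ Kp (fJ L) p, ∃ c : ℤ, ((c : ℤ) : ZMod (fJ L)) = (z : ZMod (fJ L)) ∧ ch p c = -1 := by
  have hp2 : p ≠ 2 := by rintro rfl; omega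
  have e1 : ep p = p := by unfold ep; rw [if_neg hp2]
  obtain ⟨n, hn, hnc⟩ := k10_nonres (hL p hp) hp2
  have hcop := k10_cop hL hp
  rw [e1] at hcop
  obtain ⟨a, b, hab⟩ := Nat.isCoprime_iff_coprime.mpr hcop
  set f' : ℤ := (fJ (L.erase p) : ℤ) with hf'
  have hf : (fJ L : ℤ) = (p : ℤ) * f' := by
    rw [fJ_erase hp, e1]
    push_cast
    rfl
  set c : ℤ := n * b * f' + a * p with hc
  have hcf : IsCoprime c (fJ L : ℤ) := by
    rw [hf]
    apply IsCoprime.mul_right
    · have h1 : c = (n : ℤ) + (p : ℤ) * (a * (1 - n)) := by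
        rw [hc]; linear_combination (n : ℤ) * hab
      rw [h1]
      exact (Nat.isCoprime_iff_coprime.mpr hnc).add_mul_left_left _
    · have h1 : c = 1 + f' * (b * (n - 1)) := by
        rw [hc]; linear_combination hab
      rw [h1]
      exact isCoprime_one_left.add_mul_left_left _
  obtain ⟨z, hz⟩ := (ZMod.coe_int_isUnit_iff_isCoprime c (fJ L)).2 hcf.symm
  refine ⟨z, ?_, c, hz.symm, ?_⟩
  · rw [mem_Kp, hz]
    have h1 : (fJ L : ℤ) ∣ (c - 1) * p := by
      refine ⟨b * (n - 1), ?_⟩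
      rw [hf, hc]
      linear_combination (p : ℤ) * hab
    rw [← ZMod.intCast_zmod_eq_zero_iff_dvd] at h1
    push_cast at h1
    rw [sub_mul, one_mul, sub_eq_zero] at h1
    exact h1
  · have h1 : ch p c = ch p n := by
      apply ch_congr
      rw [e1]
      exact ⟨a * (1 - n), by rw [hc]; linear_combination (n : ℤ) * hab⟩
    rw [h1]
    unfold ch
    rw [if_neg hp2]
    exact hn

private lemma k10_span {L : Finset ℕ} (hL : PJ L) {p : ℕ} (hp : p ∈ L) (qs : List ℕ)
    (hqs : ∀ q ∈ qs, q ∈ L) (hpq : p ∉ qs) {y : (ZMod (fJ L))ˣ}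
    (hy : y ∈ spanL (qs.map (Kp (fJ L)))) {c : ℤ}
    (hc : ((c : ℤ) : ZMod (fJ L)) = (y : ZMod (fJ L))) : (p : ℤ) ∣ c - 1 := by
  haveI : NeZero (fJ L) := ⟨(Pool.Agent.Lib.MP_938ce2_ag_h99v.fJ_pos hL).ne'⟩
  have h1 := spanL_le_stab (f := fJ L) qs.prod qs (fun q hq => List.dvd_prod hq) hy
  rw [mem_stab, ← hc] at h1
  have h2 : (fJ L : ℤ) ∣ (c - 1) * (qs.prod : ℕ) := by
    rw [← ZMod.intCast_zmod_eq_zero_iff_dvd, Int.cast_mul, Int.cast_sub, Int.cast_one,
      Int.cast_natCast, sub_mul, one_mul, sub_eq_zero]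
    exact h1
  have hpf : (p : ℤ) ∣ (fJ L : ℤ) :=
    Int.natCast_dvd_natCast.mpr (p_dvd_ep.trans (ep_dvd_fJ hp))
  have hpp : _root_.Prime (p : ℤ) := Nat.prime_iff_prime_int.mp (hL p hp)
  rcases hpp.dvd_or_dvd (hpf.trans h2) with h3 | h3
  · exact h3
  · exfalso
    have h4 : p ∣ qs.prod := Int.natCast_dvd_natCast.mp h3
    obtain ⟨q, hq, hd⟩ := (Prime.dvd_prod_iff (hL p hp).prime).mp h4
    have h5 := (Nat.prime_dvd_prime_iff_eq (hL p hp) (hL q (hqs q hq))).mp hd
    exact hpq (h5 ▸ hq)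

private lemma k10_ch_one (q : ℕ) : ch q 1 = 1 := by
  unfold ch
  split_ifs
  · simp
  · exact jacobiSym.one_left q

/-- `MD_top` (h99/MD.lean) for the list `C.toList ++ (L \ C).toList`; the elements of `C` are removed
one after the other with `MD_drop`, where `e u` is the indicator of `ch p u = 1` and `z` in
`Kp (fJ L) p` with `ch p z = -1` (Chinese remainder theorem, `p` has nonresidues). -/
theorem MD_con {L : Finset ℕ} (hL : PJ L) (hm : fJ L ∣ m) {C : Finset ℕ} (hC : C ⊆ L)
    (hC4 : ∀ p ∈ C, p % 4 = 1) {F : ZMod m → ℤ} (ho : OddF F) (hT : TateF F)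
    (hs : ∀ a, F a ≠ 0 → fJ L ∣ addOrderOf a → addOrderOf a = fJ L)
    (hsupp : ∀ p ∈ C, ∀ k : ℤ, IsCoprime k (fJ L : ℤ) → F (pt m (fJ L) k) ≠ 0 → ch p k = 1) :
    MD (((L \ C).toList).map (Kp (fJ L)))
      (fun u : (ZMod (fJ L))ˣ => F (jj hm (u : ZMod (fJ L)))) := by
  classical
  haveI : NeZero (fJ L) := ⟨(Pool.Agent.Lib.MP_938ce2_ag_h99v.fJ_pos hL).ne'⟩
  have hprime : ∀ q, q.Prime → q ∣ fJ L → q ∈ C.toList ++ (L \ C).toList := by
    intro q hq hd
    have hqL : q ∈ L := by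
      by_contra hno
      have h1 : Nat.Coprime q (fJ L) := (Pool.Agent.Lib.MP_938ce2_ag_h99v.coprime_fJ_iff hL).mpr
        (fun r hr h => hno (((Nat.prime_dvd_prime_iff_eq (hL r hr) hq).mp h) ▸ hr))
      have h2 := Nat.Coprime.eq_one_of_dvd h1 hd
      exact hq.one_lt.ne' h2
    rw [List.mem_append, mem_toList, mem_toList, mem_sdiff]
    tauto
  set G : (ZMod (fJ L))ˣ → ℤ := fun u => F (jj hm (u : ZMod (fJ L))) with hG
  have hrep : ∀ u : (ZMod (fJ L))ˣ, (((u : ZMod (fJ L)).val : ℤ) : ZMod (fJ L)) = u := by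
    intro u
    rw [Int.cast_natCast, ZMod.natCast_zmod_val]
  have hne : ∀ p ∈ C, ∀ (u : (ZMod (fJ L))ˣ) (k : ℤ), ((k : ℤ) : ZMod (fJ L)) = u → G u ≠ 0 →
      ch p k = 1 := by
    intro p hp u k hk hu
    apply hsupp p hp k
    · exact ((ZMod.coe_int_isUnit_iff_isCoprime k (fJ L)).1 (hk ▸ u.isUnit)).symm
    · rw [pt_eq_jj hm, hk]
      exact hu
  have hcong : ∀ p ∈ L, ∀ a b : ℤ, ((a : ℤ) : ZMod (fJ L)) = ((b : ℤ) : ZMod (fJ L)) →
      ch p a = ch p b := by
    intro p hp a b hab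
    apply ch_congr
    have h1 : (fJ L : ℤ) ∣ a - b := by
      rw [← ZMod.intCast_zmod_eq_zero_iff_dvd]
      push_cast
      rw [hab, sub_self]
    exact (Int.natCast_dvd_natCast.mpr (ep_dvd_fJ hp)).trans h1
  have key : ∀ cs : List ℕ, (∀ p ∈ cs, p ∈ C) → cs.Nodup → ∀ ls : List ℕ,
      (∀ q ∈ ls, q ∈ L ∧ q ∉ C) → MD ((cs ++ ls).map (Kp (fJ L))) G →
      MD (ls.map (Kp (fJ L))) G := by
    intro cs
    induction cs with
    | nil =>
      intro _ _ ls _ h
      simpa using h
    | cons p cs ih =>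
      intro hcs hnd ls hls h
      have hpC : p ∈ C := hcs p List.mem_cons_self
      have hpL : p ∈ L := hC hpC
      obtain ⟨hpn, hnd'⟩ := List.nodup_cons.mp hnd
      apply ih (fun q hq => hcs q (List.mem_cons_of_mem _ hq)) hnd' ls hls
      obtain ⟨z, hz, c, hcz, hcn⟩ := k10_z hL hpL (hC4 p hpC)
      have hp2 : p ≠ 2 := by
        have := hC4 p hpC
        rintro rfl
        omega
      have e1 : ep p = p := by unfold ep; rw [if_neg hp2]
      rw [List.cons_append, List.map_cons] at h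
      refine MD_drop (e := fun u => if ch p (((u : ZMod (fJ L)).val : ℤ)) = 1 then 1 else 0)
        h hz ?_ ?_ ?_
      · intro x
        by_cases hx : G x = 0
        · rw [hx, mul_zero]
        · have h1 := hne p hpC x _ (hrep x) hx
          simp only [h1, if_true, one_mul]
      · intro x
        by_cases hx : ch p (((x : ZMod (fJ L)).val : ℤ)) = 1
        · by_cases hzx : G (z * x) = 0
          · rw [hzx, mul_zero]
          · exfalso
            have h1 := hne p hpC (z * x) (c * ((x : ZMod (fJ L)).val : ℤ)) (by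
              push_cast
              rw [hcz, ZMod.natCast_zmod_val]) hzx
            rw [ch_mul, hcn, hx] at h1
            norm_num at h1
        · simp only [hx, if_false, zero_mul]
      · intro y hy x
        have hpd : (p : ℤ) ∣ ((y : ZMod (fJ L)).val : ℤ) - 1 := by
          refine k10_span hL hpL (cs ++ ls) ?_ ?_ hy (hrep y)
          · intro q hq
            rcases List.mem_append.mp hq with hq | hq
            · exact hC (hcs q (List.mem_cons_of_mem _ hq))
            · exact (hls q hq).1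
          · intro hq
            rcases List.mem_append.mp hq with hq | hq
            · exact hpn hq
            · exact (hls p hq).2 hpC
        have h1 : ch p ((((y * x : (ZMod (fJ L))ˣ) : ZMod (fJ L)).val : ℤ))
            = ch p (((x : ZMod (fJ L)).val : ℤ)) := by
          have h2 := hcong p hpL ((((y * x : (ZMod (fJ L))ˣ) : ZMod (fJ L)).val : ℤ))
            (((y : ZMod (fJ L)).val : ℤ) * ((x : ZMod (fJ L)).val : ℤ)) (by
              rw [hrep]
              push_cast
              rw [ZMod.natCast_zmod_val, ZMod.natCast_zmod_val])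
          rw [h2, ch_mul]
          have h3 : ch p (((y : ZMod (fJ L)).val : ℤ)) = ch p 1 := by
            apply ch_congr
            rw [e1]
            exact hpd
          rw [h3, k10_ch_one, one_mul]
        simp only [h1]
  refine key C.toList (fun p hp => mem_toList.mp hp) (nodup_toList C) (L \ C).toList ?_ ?_
  · intro q hq
    rw [mem_toList, mem_sdiff] at hq
    exact hq
  · exact MD_top hm F ho hT hs (C.toList ++ (L \ C).toList) hprime

end Pool.Agent.Lib.MP_938ce2_ag_h99x
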