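import Pool.Agent.Lib.MP_938ce2_ag_h99x.K02

/-!
Invariant functions on the units as functions of integers.
-/

set_option autoImplicit false
set_option linter.style.haveILetI false
set_option linter.unusedSectionVars false

open Finset

namespace Pool.Agent.Lib.MP_938ce2_ag_h99x

open Pool.Agent.Lib.MP_938ce2_ag_h99 Pool.Agent.Lib.MP_938ce2_ag_h6
open Pool.Agent.Lib.MP_938ce2_ag_h99t Pool.Agent.Lib.MP_938ce2_ag_h99v

private lemma k11_ep_cop {p q : ℕ} (hp : p.Prime) (hq : q.Prime) (hpq : p ≠ q) :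
    Nat.Coprime (ep p) (ep q) := by
  have h1 : Nat.Coprime p (ep q) := coprime_ep hq hp (Ne.symm hpq)
  have h2 : ep p = p ∨ ep p = p ^ 2 := by
    unfold ep
    split_ifs with h
    · right; subst h; norm_num
    · left; rfl
  rcases h2 with h2 | h2
  · rw [h2]; exact h1
  · rw [h2]; exact Nat.Coprime.pow_left 2 h1

private lemma k11_cop {L : Finset ℕ} (hL : PJ L) {v : ℕ} (hv : v ∈ L) :
    Nat.Coprime (ep v) (fJ (L.erase v)) := by
  unfold fJ
  apply Nat.Coprime.prod_right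
  intro q hq
  obtain ⟨h1, h2⟩ := mem_erase.mp hq
  exact k11_ep_cop (hL v hv) (hL q h2) (Ne.symm h1)

/-- `k'` with `k' = k` modulo `fJ (L.erase v)` and `k' = 1` modulo `ep v` -/
lemma exists_lift {L : Finset ℕ} (hL : PJ L) {v : ℕ} (hv : v ∈ L) {k : ℤ}
    (hk : IsCoprime k (fJ (L.erase v) : ℤ)) :
    ∃ k' : ℤ, IsCoprime k' (fJ L : ℤ) ∧ (fJ (L.erase v) : ℤ) ∣ k' - k := by
  obtain ⟨a, b, hab⟩ := Nat.isCoprime_iff_coprime.mpr (k11_cop hL hv)
  refine ⟨a * ep v * k + b * fJ (L.erase v), ?_, b - b * k, ?_⟩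
  · rw [fJ_erase hv]
    push_cast
    apply IsCoprime.mul_right
    · have h1 : a * (ep v : ℤ) * k + b * (fJ (L.erase v) : ℤ) = 1 + (ep v : ℤ) * (a * (k - 1)) := by
        linear_combination hab
      rw [h1]
      exact isCoprime_one_left.add_mul_left_left _
    · have h1 : a * (ep v : ℤ) * k + b * (fJ (L.erase v) : ℤ)
          = k + (fJ (L.erase v) : ℤ) * (b - b * k) := by
        linear_combination k * hab
      rw [h1]
      exact hk.add_mul_left_left _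
  · linear_combination k * hab

private lemma k11_dvd {L : Finset ℕ} (hL : PJ L) {v : ℕ} (hv : v ∈ L) {k k' : ℤ}
    (hk : IsCoprime k (fJ L : ℤ)) (hk' : IsCoprime k' (fJ L : ℤ))
    (h : (fJ (L.erase v) : ℤ) ∣ k - k') : (fJ L : ℤ) ∣ (k - k') * v := by
  have hcop := k11_cop hL hv
  by_cases h2 : v = 2
  · subst h2
    have e4 : ep 2 = 4 := rfl
    have hd : (2 : ℤ) ∣ (fJ L : ℤ) := by
      rw [fJ_erase hv, e4]
      exact ⟨2 * (fJ (L.erase 2) : ℤ), by push_cast; ring⟩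
    have o1 : ¬ (2 : ℤ) ∣ k := fun h3 => by
      have := hk.isUnit_of_dvd' h3 hd
      rw [Int.isUnit_iff] at this
      omega
    have o2 : ¬ (2 : ℤ) ∣ k' := fun h3 => by
      have := hk'.isUnit_of_dvd' h3 hd
      rw [Int.isUnit_iff] at this
      omega
    have h3 : (2 : ℤ) ∣ k - k' := by omega
    have hcop2 : IsCoprime (2 : ℤ) (fJ (L.erase 2) : ℤ) := by
      rw [e4] at hcop
      have : Nat.Coprime 2 (fJ (L.erase 2)) := Nat.Coprime.coprime_dvd_left ⟨2, rfl⟩ hcop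
      exact_mod_cast Nat.isCoprime_iff_coprime.mpr this
    have h4 := hcop2.mul_dvd h3 h
    rw [fJ_erase hv, e4]
    obtain ⟨c, hc⟩ := h4
    exact ⟨c, by push_cast; rw [hc]; ring⟩
  · have e1 : ep v = v := by unfold ep; rw [if_neg h2]
    rw [fJ_erase hv, e1]
    push_cast
    rw [mul_comm]
    exact mul_dvd_mul_right h _

private lemma k11_key {L : Finset ℕ} (hL : PJ L) {v : ℕ} (hv : v ∈ L) {G : (ZMod (fJ L))ˣ → ℤ}
    (hG : ∀ z ∈ Kp (fJ L) v, ∀ u, G (z * u) = G u) {u u' : (ZMod (fJ L))ˣ} {k k' : ℤ}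
    (hk : ((k : ℤ) : ZMod (fJ L)) = (u : ZMod (fJ L)))
    (hk' : ((k' : ℤ) : ZMod (fJ L)) = (u' : ZMod (fJ L)))
    (h : (fJ (L.erase v) : ℤ) ∣ k - k') : G u = G u' := by
  have c1 : IsCoprime k (fJ L : ℤ) :=
    ((ZMod.coe_int_isUnit_iff_isCoprime k (fJ L)).1 (hk ▸ u.isUnit)).symm
  have c2 : IsCoprime k' (fJ L : ℤ) :=
    ((ZMod.coe_int_isUnit_iff_isCoprime k' (fJ L)).1 (hk' ▸ u'.isUnit)).symm
  have h1 : u * u'⁻¹ ∈ Kp (fJ L) v := by
    rw [mem_Kp]
    have h2 : (u : ZMod (fJ L)) * (v : ZMod (fJ L)) = (u' : ZMod (fJ L)) * (v : ZMod (fJ L)) := by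
      rw [← hk, ← hk', ← sub_eq_zero, ← sub_mul]
      have h3 := k11_dvd hL hv c1 c2 h
      rw [← ZMod.intCast_zmod_eq_zero_iff_dvd] at h3
      push_cast at h3
      exact h3
    rw [Units.val_mul, mul_right_comm, h2, mul_right_comm, Units.mul_inv, one_mul]
  have h4 := hG _ h1 u'
  rwa [inv_mul_cancel_right] at h4

/-- `A k` is the value of `G` at the unit `k'` of `exists_lift` (zero if `k` is not prime to
`fJ (L.erase v)`); for `v = 2` note that odd integers which agree modulo `f'` agree modulo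
`2 f'`, for odd `f'`. -/
theorem toA {L : Finset ℕ} (hL : PJ L) {v : ℕ} (hv : v ∈ L) {G : (ZMod (fJ L))ˣ → ℤ}
    (hG : ∀ z ∈ Kp (fJ L) v, ∀ u, G (z * u) = G u) (ho : ∀ u, G ((-1) * u) = - G u)
    {C : Finset ℕ} (hC : C ⊆ L.erase v)
    (hs : ∀ (u : (ZMod (fJ L))ˣ) (k : ℤ), ((k : ℤ) : ZMod (fJ L)) = (u : ZMod (fJ L)) →
      G u ≠ 0 → ∀ p ∈ C, ch p k = 1) :
    ∃ A : ℤ → ℤ, Per (fJ (L.erase v)) A ∧ OddA (fJ (L.erase v)) A ∧
      (∀ k, IsCoprime k (fJ (L.erase v) : ℤ) → A k ≠ 0 → ∀ p ∈ C, ch p k = 1) ∧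
      ∀ (u : (ZMod (fJ L))ˣ) (k : ℤ), ((k : ℤ) : ZMod (fJ L)) = (u : ZMod (fJ L)) →
        G u = A k := by
  classical
  have hunit : ∀ k : ℤ, IsCoprime k (fJ (L.erase v) : ℤ) → ∃ (u : (ZMod (fJ L))ˣ) (k' : ℤ),
      ((k' : ℤ) : ZMod (fJ L)) = (u : ZMod (fJ L)) ∧ (fJ (L.erase v) : ℤ) ∣ k' - k := by
    intro k hk
    obtain ⟨k', h1, h2⟩ := exists_lift hL hv hk
    obtain ⟨u, hu⟩ := (ZMod.coe_int_isUnit_iff_isCoprime k' (fJ L)).2 h1.symm
    exact ⟨u, k', hu.symm, h2⟩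
  choose U K hU hK using hunit
  have hdiv : (fJ (L.erase v) : ℤ) ∣ (fJ L : ℤ) := by
    rw [fJ_erase hv]
    push_cast
    exact Dvd.intro_left _ rfl
  have hcg : ∀ {a b : ℤ}, (fJ (L.erase v) : ℤ) ∣ a - b → IsCoprime b (fJ (L.erase v) : ℤ) →
      IsCoprime a (fJ (L.erase v) : ℤ) := by
    intro a b hab hb
    obtain ⟨c, hc⟩ := hab
    have h1 : a = b + (fJ (L.erase v) : ℤ) * c := by linear_combination hc
    rw [h1]
    exact hb.add_mul_left_left _
  refine ⟨fun k => if h : IsCoprime k (fJ (L.erase v) : ℤ) then G (U k h) else 0, ?_, ?_, ?_, ?_⟩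
  · intro a b hab
    by_cases hb : IsCoprime b (fJ (L.erase v) : ℤ)
    · have ha := hcg hab hb
      simp only [dif_pos ha, dif_pos hb]
      apply k11_key hL hv hG (hU a ha) (hU b hb)
      have h1 := hK a ha
      have h2 := hK b hb
      have h3 : K a ha - K b hb = (K a ha - a) + (a - b) - (K b hb - b) := by ring
      rw [h3]
      exact dvd_sub (dvd_add h1 hab) h2
    · have ha : ¬ IsCoprime a (fJ (L.erase v) : ℤ) := fun ha => hb (hcg (by
        rw [← dvd_neg, neg_sub]; exact hab) ha)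
      simp only [dif_neg ha, dif_neg hb]
  · intro k hk
    have hk' : IsCoprime (-k) (fJ (L.erase v) : ℤ) := hk.neg_left
    simp only [dif_pos hk, dif_pos hk']
    rw [← ho]
    refine k11_key hL hv hG (hU (-k) hk') (k' := - K k hk) ?_ ?_
    · push_cast
      rw [hU k hk]
      simp
    · have h1 := hK k hk
      have h2 := hK (-k) hk'
      have h3 : K (-k) hk' - - K k hk = (K (-k) hk' - -k) + (K k hk - k) := by ring
      rw [h3]
      exact dvd_add h2 h1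
  · intro k hk hA p hp
    simp only [dif_pos hk] at hA
    have h1 := hs (U k hk) (K k hk) (hU k hk) hA p hp
    rw [← h1]
    apply ch_congr
    have h2 := hK k hk
    have h3 : (ep p : ℤ) ∣ (fJ (L.erase v) : ℤ) :=
      Int.natCast_dvd_natCast.mpr (ep_dvd_fJ (hC hp))
    rw [← dvd_neg, neg_sub]
    exact h3.trans h2
  · intro u k hk
    have c1 : IsCoprime k (fJ L : ℤ) :=
      ((ZMod.coe_int_isUnit_iff_isCoprime k (fJ L)).1 (hk ▸ u.isUnit)).symm
    have c2 : IsCoprime k (fJ (L.erase v) : ℤ) := c1.of_isCoprime_of_dvd_right hdiv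
    simp only [dif_pos c2]
    refine k11_key hL hv hG hk (hU k c2) ?_
    rw [← dvd_neg, neg_sub]
    exact hK k c2

end Pool.Agent.Lib.MP_938ce2_ag_h99x
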