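import Pool.Agent.Lib.MP_938ce2_ag_h99x.K10
import Pool.Agent.Lib.MP_938ce2_ag_h99x.K11

/-!
Splitting of functions supported on residues.
-/

set_option autoImplicit false
set_option linter.style.haveILetI false
set_option linter.unusedSectionVars false

open Finset

namespace Pool.Agent.Lib.MP_938ce2_ag_h99x

open Pool.Agent.Lib.MP_938ce2_ag_h99 Pool.Agent.Lib.MP_938ce2_ag_h6
open Pool.Agent.Lib.MP_938ce2_ag_h99t Pool.Agent.Lib.MP_938ce2_ag_h99v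

variable {m : ℕ} [NeZero m]

private lemma ch_of_cast {L : Finset ℕ} {p : ℕ} (hp : p ∈ L) {a b : ℤ}
    (h : ((a : ℤ) : ZMod (fJ L)) = ((b : ℤ) : ZMod (fJ L))) : ch p a = ch p b := by
  apply ch_congr
  rw [ZMod.intCast_eq_intCast_iff_dvd_sub] at h
  have h1 : (ep p : ℤ) ∣ (fJ L : ℤ) := by exact_mod_cast ep_dvd_fJ hp
  have h2 := h1.trans h
  have h3 := dvd_neg.mpr h2
  rwa [neg_sub] at h3

private lemma ch_val_Kp {L : Finset ℕ} (hL : PJ L) [NeZero (fJ L)] {p v : ℕ} (hp : p ∈ L)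
    (hv : v ∈ L) (hpv : p ≠ v) {z : (ZMod (fJ L))ˣ} (hz : z ∈ Kp (fJ L) v)
    (u : (ZMod (fJ L))ˣ) :
    ch p ((((z * u : (ZMod (fJ L))ˣ) : ZMod (fJ L)).val : ℕ) : ℤ)
      = ch p (((u : ZMod (fJ L)).val : ℕ) : ℤ) := by
  have hd := ep_dvd_fJ hp
  have h1 := cast_Kp (hL p hp) (hL v hv) hpv hd hz
  have hc : ∀ x : ZMod (fJ L), ((x.val : ℕ) : ZMod (ep p)) = ZMod.castHom hd (ZMod (ep p)) x := by
    intro x
    conv_rhs => rw [← ZMod.natCast_zmod_val x]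
    rw [map_natCast]
  apply ch_congr
  have h2 : (((((z * u : (ZMod (fJ L))ˣ) : ZMod (fJ L)).val : ℕ) : ℤ) : ZMod (ep p))
      = ((((u : ZMod (fJ L)).val : ℕ) : ℤ) : ZMod (ep p)) := by
    rw [Int.cast_natCast, Int.cast_natCast, hc, hc, Units.val_mul, map_mul, h1, one_mul]
  rw [ZMod.intCast_eq_intCast_iff_dvd_sub] at h2
  have h3 := dvd_neg.mpr h2
  rwa [neg_sub] at h3

private lemma indepH_bot {f : ℕ} [NeZero f] : ∀ qs : List ℕ, (∀ q ∈ qs, q.Prime ∧ q ∣ f) →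
    qs.Nodup → IndepH ⊥ (qs.map (Kp f))
  | [], _, _ => trivial
  | q :: qs, h, hnd => by
    refine ⟨?_, indepH_bot qs (fun r hr => h r (List.mem_cons_of_mem _ hr))
      (List.nodup_cons.mp hnd).2⟩
    rw [sup_bot_eq]
    exact disjoint_Kp_span (h q List.mem_cons_self).1 qs
      (fun r hr => h r (List.mem_cons_of_mem _ hr)) (List.nodup_cons.mp hnd).1

private lemma neg_one_notMem {L C : Finset ℕ} (hL : PJ L) [NeZero (fJ L)] (hC : C ⊆ L)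
    (hne : C.Nonempty) (hC4 : ∀ p ∈ C, p % 4 = 1) :
    (-1 : (ZMod (fJ L))ˣ) ∉ spanL (((L \ C).toList).map (Kp (fJ L))) ⊔ ⊥ := by
  classical
  intro hmem
  rw [sup_bot_eq] at hmem
  obtain ⟨p, hp⟩ := hne
  have hpL := hC hp
  have hd := ep_dvd_fJ hpL
  obtain ⟨g, hg⟩ : ∃ g : (ZMod (fJ L))ˣ → ℤ, ∀ u : (ZMod (fJ L))ˣ, g u =
      if ZMod.castHom hd (ZMod (ep p)) (u : ZMod (fJ L)) = 1 then (1 : ℤ) else 0 :=
    ⟨fun u => if ZMod.castHom hd (ZMod (ep p)) (u : ZMod (fJ L)) = 1 then (1 : ℤ) else 0,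
      fun _ => rfl⟩
  have hinv : ∀ q ∈ (L \ C).toList, ∀ z ∈ Kp (fJ L) q, ∀ x, g (z * x) = g x := by
    intro q hq z hz x
    rw [Finset.mem_toList, mem_sdiff] at hq
    have h1 := cast_Kp (hL p hpL) (hL q hq.1) (fun h => hq.2 (h ▸ hp)) hd hz
    rw [hg, hg, Units.val_mul, map_mul, h1, one_mul]
  have h2 := inv_spanL hinv _ hmem 1
  rw [mul_one, hg, hg, Units.val_one, map_one, if_pos rfl, Units.val_neg, Units.val_one, map_neg,
    map_one] at h2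
  have h3 : (-1 : ZMod (ep p)) = 1 := by
    by_contra h
    rw [if_neg h] at h2
    exact absurd h2 (by norm_num)
  have hep : ep p = p := by
    unfold ep
    rw [if_neg]
    rintro rfl
    have := hC4 2 hp
    omega
  have h4 : ((2 : ℕ) : ZMod (ep p)) = 0 := by
    push_cast
    linear_combination -h3
  rw [ZMod.natCast_eq_zero_iff, hep] at h4
  have h5 := Nat.le_of_dvd (by norm_num) h4
  have h6 := hC4 p hp
  have h7 := (hL p hpL).two_le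
  omega

/-- `MD_con` and `int_split_sign` (h99/SplitGen.lean) with `c = -1`, `σ = -1`, `H = ⊥`: `-1` is not
in the span of the `Kp`, `v ∈ L \ C` (an element of this span is `1` modulo `p` for `p ∈ C`); the
functions `G v` are multiplied by the indicator of `ch p u = 1` for all `p ∈ C`; then `toA`. -/
theorem split_con {L : Finset ℕ} (hL : PJ L) (hm : fJ L ∣ m) {C : Finset ℕ} (hC : C ⊆ L)
    (hne : C.Nonempty) (hC4 : ∀ p ∈ C, p % 4 = 1) {F : ZMod m → ℤ} (ho : OddF F) (hT : TateF F)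
    (hs : ∀ a, F a ≠ 0 → fJ L ∣ addOrderOf a → addOrderOf a = fJ L)
    (hsupp : ∀ p ∈ C, ∀ k : ℤ, IsCoprime k (fJ L : ℤ) → F (pt m (fJ L) k) ≠ 0 → ch p k = 1) :
    ∃ A : ℕ → ℤ → ℤ, (∀ v ∈ L \ C, Per (fJ (L.erase v)) (A v) ∧ OddA (fJ (L.erase v)) (A v) ∧
        ∀ k, IsCoprime k (fJ (L.erase v) : ℤ) → A v k ≠ 0 → ∀ p ∈ C, ch p k = 1) ∧
      ∀ k : ℤ, IsCoprime k (fJ L : ℤ) → F (pt m (fJ L) k) = ∑ v ∈ L \ C, A v k := by
  classical
  have hf0 : fJ L ≠ 0 := (fJ_pos hL).ne'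
  haveI : NeZero (fJ L) := ⟨hf0⟩
  have hpf : (fJ L).primeFactors = L := fJ_primeFactors hL
  obtain ⟨ps, hps⟩ : ∃ ps : List ℕ, ps = (L \ C).toList := ⟨_, rfl⟩
  have hmem : ∀ p, p ∈ ps ↔ p ∈ L \ C := fun p => by rw [hps, Finset.mem_toList]
  have hmem' : ∀ p, p ∈ ps → p ∈ (fJ L).primeFactors := fun p hp => by
    rw [hpf]; exact (mem_sdiff.mp ((hmem p).mp hp)).1
  have hprime : ∀ p ∈ ps, p.Prime ∧ p ∣ fJ L := fun p hp =>
    ⟨Nat.prime_of_mem_primeFactors (hmem' p hp), Nat.dvd_of_mem_primeFactors (hmem' p hp)⟩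
  have hnd : ps.Nodup := by rw [hps]; exact Finset.nodup_toList _
  have hMD := MD_con hL hm hC hC4 ho hT hs hsupp
  rw [← hps] at hMD
  have hc : (-1 : (ZMod (fJ L))ˣ) ∉ spanL (ps.map (Kp (fJ L))) ⊔ ⊥ := by
    rw [hps]
    exact neg_one_notMem hL hC hne hC4
  obtain ⟨G, g1, g2, g3⟩ := int_split_sign (-1 : (ZMod (fJ L))ˣ) (by simp) (-1) (Kp (fJ L)) ⊥ ps
    hnd (indepH_bot ps hprime hnd) hc (fun u : (ZMod (fJ L))ˣ => F (jj hm (u : ZMod (fJ L)))) hMD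
    (fun u => by rw [odd_top hm ho]; ring) (by
      intro z hz x
      rw [Subgroup.mem_bot] at hz
      rw [hz, one_mul])
  have g1' : ∀ p ∈ ps, ∀ z ∈ Kp (fJ L) p, ∀ x, G p (z * x) = G p x := fun p hp z hz x =>
    g1 p hp z (Subgroup.mem_sup_left hz) x
  -- the indicator of the residues
  obtain ⟨e, he⟩ : ∃ e : (ZMod (fJ L))ˣ → ℤ, ∀ u : (ZMod (fJ L))ˣ, e u =
      if ∀ p ∈ C, ch p (((u : ZMod (fJ L)).val : ℕ) : ℤ) = 1 then (1 : ℤ) else 0 :=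
    ⟨fun u => if ∀ p ∈ C, ch p (((u : ZMod (fJ L)).val : ℕ) : ℤ) = 1 then (1 : ℤ) else 0,
      fun _ => rfl⟩
  have hcast : ∀ (u : (ZMod (fJ L))ˣ) (k : ℤ), ((k : ℤ) : ZMod (fJ L)) = (u : ZMod (fJ L)) →
      ∀ p ∈ C, ch p k = ch p (((u : ZMod (fJ L)).val : ℕ) : ℤ) := by
    intro u k hk p hp
    apply ch_of_cast (hC hp)
    rw [hk, Int.cast_natCast, ZMod.natCast_zmod_val]
  have he1 : ∀ (u : (ZMod (fJ L))ˣ) (k : ℤ), ((k : ℤ) : ZMod (fJ L)) = (u : ZMod (fJ L)) →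
      (e u = 1 ∧ ∀ p ∈ C, ch p k = 1) ∨ (e u = 0 ∧ ¬ ∀ p ∈ C, ch p k = 1) := by
    intro u k hk
    have h1 := hcast u k hk
    by_cases h : ∀ p ∈ C, ch p k = 1
    · left
      refine ⟨?_, h⟩
      rw [he, if_pos]
      intro p hp
      rw [← h1 p hp]
      exact h p hp
    · right
      refine ⟨?_, h⟩
      rw [he, if_neg]
      intro h2
      apply h
      intro p hp
      rw [h1 p hp]
      exact h2 p hp
  have he2 : ∀ v ∈ ps, ∀ z ∈ Kp (fJ L) v, ∀ u, e (z * u) = e u := by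
    intro v hv z hz u
    have hv2 := mem_sdiff.mp ((hmem v).mp hv)
    rw [he, he]
    have h1 : (∀ p ∈ C, ch p ((((z * u : (ZMod (fJ L))ˣ) : ZMod (fJ L)).val : ℕ) : ℤ) = 1) ↔
        ∀ p ∈ C, ch p (((u : ZMod (fJ L)).val : ℕ) : ℤ) = 1 :=
      forall₂_congr fun p hp => by
        rw [ch_val_Kp hL (hC hp) hv2.1 (fun h => hv2.2 (h ▸ hp)) hz u]
    simp only [h1]
  have he3 : ∀ u, e ((-1) * u) = e u := by
    intro u
    obtain ⟨k, hk⟩ : ∃ k : ℤ, ((k : ℤ) : ZMod (fJ L)) = (u : ZMod (fJ L)) :=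
      ⟨(((u : ZMod (fJ L)).val : ℕ) : ℤ), by rw [Int.cast_natCast, ZMod.natCast_zmod_val]⟩
    have hk' : (((-k : ℤ)) : ZMod (fJ L)) = (((-1) * u : (ZMod (fJ L))ˣ) : ZMod (fJ L)) := by
      rw [Int.cast_neg, hk, neg_one_mul, Units.val_neg]
    have h1 : (∀ p ∈ C, ch p (-k) = 1) ↔ ∀ p ∈ C, ch p k = 1 :=
      forall₂_congr fun p hp => by
        rw [neg_eq_neg_one_mul, ch_mul, ch_neg_one_four (hL p (hC hp)) (hC4 p hp), one_mul]
    rcases he1 u k hk with ⟨a1, a2⟩ | ⟨a1, a2⟩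
    · rcases he1 _ _ hk' with ⟨b1, b2⟩ | ⟨b1, b2⟩
      · rw [a1, b1]
      · exact absurd (h1.mpr a2) b2
    · rcases he1 _ _ hk' with ⟨b1, b2⟩ | ⟨b1, b2⟩
      · exact absurd (h1.mp b2) a2
      · rw [a1, b1]
  have he4 : ∀ u : (ZMod (fJ L))ˣ,
      F (jj hm (u : ZMod (fJ L))) = e u * F (jj hm (u : ZMod (fJ L))) := by
    intro u
    obtain ⟨k, hk⟩ : ∃ k : ℤ, ((k : ℤ) : ZMod (fJ L)) = (u : ZMod (fJ L)) :=
      ⟨(((u : ZMod (fJ L)).val : ℕ) : ℤ), by rw [Int.cast_natCast, ZMod.natCast_zmod_val]⟩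
    have hcop : IsCoprime k (fJ L : ℤ) := by
      have hu : IsUnit ((k : ℤ) : ZMod (fJ L)) := by
        rw [hk]
        exact u.isUnit
      exact (ZMod.coe_int_isUnit_iff_isCoprime k (fJ L)).mp hu |>.symm
    by_cases hz : F (jj hm (u : ZMod (fJ L))) = 0
    · rw [hz, mul_zero]
    · have h1 : F (pt m (fJ L) k) ≠ 0 := by
        rw [pt_eq_jj hm, hk]
        exact hz
      rcases he1 u k hk with ⟨a1, a2⟩ | ⟨a1, a2⟩
      · rw [a1, one_mul]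
      · exact absurd (fun p hp => hsupp p hp k hcop h1) a2
  -- the functions of integers
  have key : ∀ v ∈ L \ C, ∃ A : ℤ → ℤ, Per (fJ (L.erase v)) A ∧ OddA (fJ (L.erase v)) A ∧
      (∀ k, IsCoprime k (fJ (L.erase v) : ℤ) → A k ≠ 0 → ∀ p ∈ C, ch p k = 1) ∧
      ∀ (u : (ZMod (fJ L))ˣ) (k : ℤ), ((k : ℤ) : ZMod (fJ L)) = (u : ZMod (fJ L)) →
        e u * G v u = A k := by
    intro v hv
    have hv2 := mem_sdiff.mp hv
    have hvp := (hmem v).mpr hv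
    refine toA hL hv2.1 (G := fun u => e u * G v u) ?_ ?_ ?_ ?_
    · intro z hz u
      rw [he2 v hvp z hz u, g1' v hvp z hz u]
    · intro u
      rw [he3, g3 v hvp]
      ring
    · intro p hp
      exact mem_erase.mpr ⟨fun h => hv2.2 (h ▸ hp), hC hp⟩
    · intro u k hk hG p hp
      rcases he1 u k hk with ⟨_, a2⟩ | ⟨a1, _⟩
      · exact a2 p hp
      · rw [a1, zero_mul] at hG
        exact absurd rfl hG
  choose! A hA1 hA2 hA3 hA4 using key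
  refine ⟨A, fun v hv => ⟨hA1 v hv, hA2 v hv, hA3 v hv⟩, fun k hk => ?_⟩
  have hu : IsUnit ((k : ℤ) : ZMod (fJ L)) :=
    (ZMod.coe_int_isUnit_iff_isCoprime k (fJ L)).mpr hk.symm
  have hku : ((k : ℤ) : ZMod (fJ L)) = ((hu.unit : (ZMod (fJ L))ˣ) : ZMod (fJ L)) :=
    hu.unit_spec.symm
  rw [pt_eq_jj hm, hku, he4, g2 hu.unit, hps, Finset.sum_map_toList, mul_sum]
  exact sum_congr rfl fun v hv => hA4 v hv _ _ hku

end Pool.Agent.Lib.MP_938ce2_ag_h99x
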