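import Pool.Agent.Lib.MP_938ce2_ag_h99x.K02

/-!
The function after removing a level.
-/

set_option autoImplicit false
set_option linter.style.haveILetI false
set_option linter.unusedSectionVars false

open Finset

namespace Pool.Agent.Lib.MP_938ce2_ag_h99x

open Pool.Agent.Lib.MP_938ce2_ag_h99 Pool.Agent.Lib.MP_938ce2_ag_h6
open Pool.Agent.Lib.MP_938ce2_ag_h99t Pool.Agent.Lib.MP_938ce2_ag_h99v

variable {m : ℕ} [NeZero m]

private lemma k13_not_dvd {L : Finset ℕ} (hL : PJ L) {v : ℕ} (hv : v ∈ L) :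
    ¬ v ∣ fJ (L.erase v) := by
  rw [← (hL v hv).coprime_iff_not_dvd]
  refine (coprime_fJ_iff (hL.mono (erase_subset v L))).mpr fun p hp hpv => ?_
  have h1 := (Nat.prime_dvd_prime_iff_eq (hL p (mem_of_mem_erase hp)) (hL v hv)).mp hpv
  exact ne_of_mem_erase hp h1

private lemma k13_odd {F : ZMod m → ℤ} (h : F ∈ relSub m) : OddF F := by
  unfold relSub at h
  induction h using AddSubgroup.closure_induction with
  | mem x hx =>
    obtain ⟨p, g, -, -, hg, -, rfl⟩ := hx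
    exact hg.rel p
  | zero => intro a; simp
  | add x y _ _ hx hy => intro a; simp only [Pi.add_apply]; rw [hx, hy]; ring
  | neg x _ hx => intro a; simp only [Pi.neg_apply]; rw [hx]

private lemma k13_term {L V : Finset ℕ} (hL : PJ L) (hm : fJ L ∣ m) (hV : V ⊆ L)
    {A : ℕ → ℤ → ℤ} (hA : ∀ v ∈ V, Per (fJ (L.erase v)) (A v) ∧ OddA (fJ (L.erase v)) (A v)) :
    ∑ v ∈ V, (pl m (fJ L) (A v) - pl m (fJ (L.erase v)) (fun k => A v k - A v ((v : ℤ) * k)))
      ∈ relSub m := by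
  refine AddSubgroup.sum_mem _ fun v hv => ?_
  have h := peel_pl (m := m) (hL v (hV hv)) (k13_not_dvd hL (hV hv))
    (by rw [← fJ_erase (hV hv)]; exact hm) (hA v hv).1 (hA v hv).2
  rw [← fJ_erase (hV hv)] at h
  exact h

/-- `peel_pl` (h99v/P04.lean) for every `v`; `TateF_of_mem_relSub` -/
theorem pc_inX {X : AddSubgroup (ZMod m → ℤ)} {L V : Finset ℕ} (hL : PJ L) (hm : fJ L ∣ m)
    (hV : V ⊆ L) {F : ZMod m → ℤ} (hF : InX X F) {A : ℕ → ℤ → ℤ}
    (hA : ∀ v ∈ V, Per (fJ (L.erase v)) (A v) ∧ OddA (fJ (L.erase v)) (A v)) :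
    InX X (pc L V A F) := by
  have h := k13_term hL hm hV hA
  unfold pc
  exact ⟨(X ⊔ relSub m).sub_mem hF.mem ((le_sup_right : relSub m ≤ X ⊔ relSub m) h),
    hF.odd.sub (k13_odd h), hF.tate.sub (TateF_of_mem_relSub h)⟩

private lemma k13_per {L : Finset ℕ} {v : ℕ} (hv : v ∈ L) {B : ℤ → ℤ}
    (h : Per (fJ (L.erase v)) B) : Per (fJ L) B := by
  intro a b hab
  refine h a b (dvd_trans ?_ hab)
  rw [fJ_erase hv]
  push_cast
  exact Dvd.intro_left _ rfl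

private lemma k13_ne {L : Finset ℕ} (hL : PJ L) {v : ℕ} (hv : v ∈ L) :
    fJ (L.erase v) ≠ fJ L :=
  Pool.Agent.Lib.MP_938ce2_ag_h99v.fJ_ne hL (erase_subset v L)
    (fun h => (notMem_erase v L) (by rw [h]; exact hv))

lemma pc_top {L V : Finset ℕ} (hL : PJ L) (hm : fJ L ∣ m) (hV : V ⊆ L) {F : ZMod m → ℤ}
    {A : ℕ → ℤ → ℤ}
    (hA : ∀ v ∈ V, Per (fJ (L.erase v)) (A v) ∧ OddA (fJ (L.erase v)) (A v))
    (hsum : ∀ k : ℤ, IsCoprime k (fJ L : ℤ) → F (pt m (fJ L) k) = ∑ v ∈ V, A v k) {a : ZMod m}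
    (ha : addOrderOf a = fJ L) : pc L V A F a = 0 := by
  obtain ⟨k, hk, rfl⟩ := exists_pt ha
  unfold pc
  rw [Pi.sub_apply, Finset.sum_apply, hsum k hk, sub_eq_zero]
  refine sum_congr rfl fun v hv => ?_
  rw [Pi.sub_apply, pl_pt hm (k13_per (hV hv) (hA v hv).1) hk,
    pl_of_ne (by rw [ha]; exact (k13_ne hL (hV hv)).symm), sub_zero]

lemma pc_supp {L V : Finset ℕ} {F : ZMod m → ℤ} {A : ℕ → ℤ → ℤ} {a : ZMod m}
    (ha : pc L V A F a ≠ F a) : addOrderOf a = fJ L ∨ ∃ v ∈ V, addOrderOf a = fJ (L.erase v) := by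
  by_contra hcon
  push Not at hcon
  obtain ⟨h1, h2⟩ := hcon
  apply ha
  unfold pc
  rw [Pi.sub_apply, Finset.sum_apply, sub_eq_self]
  refine sum_eq_zero fun v hv => ?_
  rw [Pi.sub_apply, pl_of_ne h1, pl_of_ne (h2 v hv), sub_zero]

lemma pc_val {L V : Finset ℕ} (hL : PJ L) (hm : fJ L ∣ m) (hV : V ⊆ L) {F : ZMod m → ℤ}
    {A : ℕ → ℤ → ℤ}
    (hA : ∀ v ∈ V, Per (fJ (L.erase v)) (A v) ∧ OddA (fJ (L.erase v)) (A v)) {v : ℕ}
    (hv : v ∈ V) {k : ℤ} (hk : IsCoprime k (fJ (L.erase v) : ℤ)) :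
    pc L V A F (pt m (fJ (L.erase v)) k)
      = F (pt m (fJ (L.erase v)) k) + (A v k - A v ((v : ℤ) * k)) := by
  have hm' : fJ (L.erase v) ∣ m := by
    refine dvd_trans ?_ hm
    rw [fJ_erase (hV hv)]
    exact Dvd.intro_left _ rfl
  have ho : addOrderOf (pt m (fJ (L.erase v)) k) = fJ (L.erase v) := addOrderOf_pt hm' hk
  have hper : Per (fJ (L.erase v)) (fun k => A v k - A v ((v : ℤ) * k)) := by
    intro a b hab
    have h1 := (hA v hv).1 a b hab
    have h2 := (hA v hv).1 ((v : ℤ) * a) ((v : ℤ) * b)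
      (by rw [← mul_sub]; exact dvd_mul_of_dvd_right hab _)
    simp only [h1, h2]
  unfold pc
  rw [Pi.sub_apply, Finset.sum_apply, sum_eq_single v]
  · rw [Pi.sub_apply, pl_of_ne (by rw [ho]; exact k13_ne hL (hV hv)), pl_pt hm' hper hk]
    ring
  · intro w hw hwv
    rw [Pi.sub_apply, pl_of_ne (by rw [ho]; exact k13_ne hL (hV hv)), pl_of_ne, sub_zero]
    rw [ho]
    intro h
    have h1 := fJ_inj (hL.mono (erase_subset v L)) (hL.mono (erase_subset w L)) h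
    have h2 : w ∈ L.erase v := mem_erase.mpr ⟨hwv, hV hw⟩
    rw [h1] at h2
    exact notMem_erase w L h2
  · intro h
    exact absurd hv h

end Pool.Agent.Lib.MP_938ce2_ag_h99x
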