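import Pool.Agent.Lib.MP_938ce2_ag_h99x.K03

/-!
Changes at unconstrained orders.
-/

set_option autoImplicit false
set_option linter.style.haveILetI false
set_option linter.unusedSectionVars false

open Finset

namespace Pool.Agent.Lib.MP_938ce2_ag_h99x

open Pool.Agent.Lib.MP_938ce2_ag_h99 Pool.Agent.Lib.MP_938ce2_ag_h6
open Pool.Agent.Lib.MP_938ce2_ag_h99t Pool.Agent.Lib.MP_938ce2_ag_h99v

variable {m : ℕ} [NeZero m]

private lemma pj_LP {S P : Finset ℕ} {r ri : ℕ → ℕ} (h : Aux S P r ri) {C : Finset ℕ}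
    (hC : C ⊆ P) : PJ (LP S r C) := by
  intro q hq
  rw [LP, mem_union, mem_image] at hq
  rcases hq with hq | ⟨p, hp, rfl⟩
  · exact h.prime q hq
  · exact h.rprime p (hC hp)

/-- changes at the divisors of `d` do not affect the invariant -/
theorem St.of_change {X : AddSubgroup (ZMod m → ℤ)} {S P : Finset ℕ} {r ri : ℕ → ℕ} {x0 : ℕ}
    (h : Aux S P r ri) (hm : fJ (LP S r P) ∣ m) {F F' : ZMod m → ℤ} (hF : St X S P r ri x0 F)
    (hX : InX X F') {d : ℕ} (hd : ∀ a, F' a ≠ F a → addOrderOf a ∣ d)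
    (hdT : d ∣ Nat.lcm 2 (fJ (LP S r P))) (hp : ∀ p ∈ P, ¬ (p ∣ d ∧ r p ∣ d))
    (hS : ¬ fJ S ∣ d) : St X S P r ri x0 F' := by
  have hPJ := pj_LP h (Subset.refl P)
  refine ⟨hX, ?_, ?_, ?_, ?_⟩
  · intro a ha
    by_cases hc : F' a = F a
    · exact hF.supp a (by rwa [← hc])
    · exact (hd a hc).trans hdT
  · intro L hL p hpP hpL hrL k hk hne
    by_cases hc : F' (pt m (fJ L) k) = F (pt m (fJ L) k)
    · exact hF.con L hL p hpP hpL hrL k hk (by rwa [← hc])
    · exfalso
      have h1 := hd _ hc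
      rw [addOrderOf_pt ((fJ_dvd hL).trans hm) hk] at h1
      exact hp p hpP ⟨(p_dvd_ep.trans (ep_dvd_fJ hpL)).trans h1,
        (p_dvd_ep.trans (ep_dvd_fJ hrL)).trans h1⟩
  · intro a ha h4
    by_cases hc : F' a = F a
    · exact hF.ev a (by rwa [← hc]) h4
    · have h1 := hd a hc
      exact ⟨fun p hpP h2 => hp p hpP ⟨h2.1.trans h1, h2.2.trans h1⟩, fun h2 => hS (h2.trans h1)⟩
  · have hom : OmT F' S P r ri x0 = OmT F S P r ri x0 := by
      unfold OmT Om
      refine sum_congr rfl fun C hC => sum_congr rfl fun J _ => ?_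
      have hCP : C ⊆ P := mem_powerset.1 hC
      have hsub : LP S r C ⊆ LP S r P := union_subset_union_right (image_subset_image hCP)
      refine val_of_ne (pj_LP h hCP) ((fJ_dvd hsub).trans hm) (fun a ha hord => ?_) _
      have h1 := hd a ha
      rw [hord] at h1
      exact hS ((fJ_dvd subset_union_left).trans h1)
    rw [hom]
    exact hF.om

end Pool.Agent.Lib.MP_938ce2_ag_h99x
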