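import Pool.Agent.Lib.MP_938ce2_ag_h99x.K04
import Pool.Agent.Lib.MP_938ce2_ag_h99x.K02

/-!
Parity of the relations.
-/

set_option autoImplicit false
set_option linter.style.haveILetI false
set_option linter.unusedSectionVars false

open Finset

namespace Pool.Agent.Lib.MP_938ce2_ag_h99x

open Pool.Agent.Lib.MP_938ce2_ag_h99 Pool.Agent.Lib.MP_938ce2_ag_h6
open Pool.Agent.Lib.MP_938ce2_ag_h99t Pool.Agent.Lib.MP_938ce2_ag_h99v

variable {m : ℕ} [NeZero m]


lemma OmT_add (F G : ZMod m → ℤ) (S P : Finset ℕ) (r ri : ℕ → ℕ) (x0 : ℕ) :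
    OmT (F + G) S P r ri x0 = OmT F S P r ri x0 + OmT G S P r ri x0 := by
  unfold OmT Om val
  simp only [Pi.add_apply, Finset.sum_add_distrib]

lemma OmT_sub (F G : ZMod m → ℤ) (S P : Finset ℕ) (r ri : ℕ → ℕ) (x0 : ℕ) :
    OmT (F - G) S P r ri x0 = OmT F S P r ri x0 - OmT G S P r ri x0 := by
  unfold OmT Om val
  simp only [Pi.sub_apply, Finset.sum_sub_distrib]

private lemma LP_mono {S : Finset ℕ} {r : ℕ → ℕ} {C D : Finset ℕ} (h : C ⊆ D) :
    LP S r C ⊆ LP S r D :=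
  Finset.union_subset_union_right (Finset.image_subset_image h)

private lemma LP_inj {S P : Finset ℕ} {r ri : ℕ → ℕ} (h : Aux S P r ri) {C D : Finset ℕ}
    (hC : C ⊆ P) (hD : D ⊆ P) (he : LP S r C ⊆ LP S r D) : C ⊆ D := by
  intro p hp
  have h1 : r p ∈ LP S r C := Finset.mem_union_right _ (Finset.mem_image_of_mem r hp)
  rcases Finset.mem_union.1 (he h1) with h2 | h2
  · exact absurd h2 (h.rS p (hC hp))
  · obtain ⟨q, hq, hqp⟩ := Finset.mem_image.1 h2
    have h3 := h.rri p (hC hp)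
    have h4 := h.rri q (hD hq)
    rw [hqp] at h4
    rw [← h3, h4]
    exact hq

private lemma LP_prime {S P : Finset ℕ} {r ri : ℕ → ℕ} (h : Aux S P r ri) {C : Finset ℕ}
    (hC : C ⊆ P) : PJ (LP S r C) := by
  intro q hq
  rcases Finset.mem_union.1 hq with h2 | h2
  · exact h.prime q h2
  · obtain ⟨p, hp, rfl⟩ := Finset.mem_image.1 h2
    exact h.rprime p (hC hp)

private lemma fJ_mono {K L : Finset ℕ} (h : K ⊆ L) : fJ K ∣ fJ L :=
  Finset.prod_dvd_prod_of_subset _ _ _ h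

private lemma LP_filter {S P : Finset ℕ} {r : ℕ → ℕ} {K : Finset ℕ} (hKT : K ⊆ LP S r P)
    (hS : S ⊆ K) : LP S r (P.filter fun p => r p ∈ K) = K := by
  ext q
  constructor
  · intro hq
    rcases Finset.mem_union.1 hq with h2 | h2
    · exact hS h2
    · obtain ⟨p, hp, rfl⟩ := Finset.mem_image.1 h2
      exact (Finset.mem_filter.1 hp).2
  · intro hq
    rcases Finset.mem_union.1 (hKT hq) with h2 | h2
    · exact Finset.mem_union_left _ h2
    · obtain ⟨p, hp, rfl⟩ := Finset.mem_image.1 h2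
      exact Finset.mem_union_right _ (Finset.mem_image_of_mem r (Finset.mem_filter.2 ⟨hp, hq⟩))

private lemma OmT_pl_zero {S P : Finset ℕ} {r ri : ℕ → ℕ} (h : Aux S P r ri)
    (hm : fJ (LP S r P) ∣ m) {K : Finset ℕ} (hK : PJ K) (hS : ¬ S ⊆ K) (B : ℤ → ℤ) (x0 : ℕ) :
    OmT (pl m (fJ K) B) S P r ri x0 = 0 := by
  unfold OmT Om
  refine Finset.sum_eq_zero fun C hC => Finset.sum_eq_zero fun J _ => ?_
  rw [Finset.mem_powerset] at hC
  refine val_pl_ne (LP_prime h hC) hK ((fJ_mono (LP_mono hC)).trans hm) ?_ B _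
  rintro rfl
  exact hS Finset.subset_union_left

private lemma OmT_pl {S P : Finset ℕ} {r ri : ℕ → ℕ} (h : Aux S P r ri)
    (hm : fJ (LP S r P) ∣ m) {K : Finset ℕ} (hK : PJ K) (hKT : K ⊆ LP S r P) (hS : S ⊆ K)
    {B : ℤ → ℤ} (hB : Per (fJ K) B) (x0 : ℕ) :
    OmT (pl m (fJ K) B) S P r ri x0 =
      ∑ J ∈ (S.erase x0).powerset, B (cr K (eJ S ri J)) := by
  unfold OmT Om
  have h0 := LP_filter hKT hS
  have hC0 : (P.filter fun p => r p ∈ K) ⊆ P := Finset.filter_subset _ _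
  rw [Finset.sum_eq_single (P.filter fun p => r p ∈ K)]
  · refine Finset.sum_congr rfl fun J _ => ?_
    rw [h0]
    exact val_pl hK ((fJ_mono hKT).trans hm) hB _
  · intro C hC hne
    rw [Finset.mem_powerset] at hC
    refine Finset.sum_eq_zero fun J _ => ?_
    refine val_pl_ne (LP_prime h hC) hK ((fJ_mono (LP_mono hC)).trans hm) ?_ B _
    intro he
    apply hne
    rw [he] at h0
    apply Finset.Subset.antisymm
    · exact LP_inj h hC (he ▸ hC0) (by rw [he] ; exact h0.ge)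
    · exact LP_inj h (he ▸ hC0) hC (by rw [he] ; exact h0.le)
  · intro h1
    exact absurd (Finset.mem_powerset.2 hC0) h1

private lemma coprime_fJ {K : Finset ℕ} (hK : PJ K) {q : ℕ} (hq : q.Prime) (hqK : q ∉ K) :
    IsCoprime (q : ℤ) (fJ K : ℤ) := by
  rw [Nat.isCoprime_iff_coprime]
  unfold fJ
  rw [Nat.coprime_prod_right_iff]
  intro p hp
  rw [coprime_ep_iff (hK p hp)]
  intro hd
  have : p = q := (Nat.prime_dvd_prime_iff_eq (hK p hp) hq).1 hd
  exact hqK (this ▸ hp)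

/-- If `S` is not contained in `L` all terms are zero. Otherwise `L = LP S r C` with
`C = {p ∈ P : r p ∈ L}`. If `v ∈ S`, then `v ∉ C`, only the first function contributes, at `C`, and
`even_sum_inv` applies. If `v = r p`, `p ∈ C`, then the first function contributes
`∑ A (cr L (eJ S ri J))` at `C` and the second one
`∑ (A (cr L' (eJ S ri J)) - A (r p * cr L' (eJ S ri J)))` at `C.erase p`, where `L' = L.erase v`;
the last terms are zero by `hs`, since `ch p (r p * cr) = - ch p (± 1) = -1`, and the other terms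
are equal (`A_cr_erase`). -/
theorem even_om_term {S P : Finset ℕ} {r ri : ℕ → ℕ} (h : Aux S P r ri)
    (hm : fJ (LP S r P) ∣ m) {x0 : ℕ} (hx0 : x0 ∈ S) {L : Finset ℕ} (hLT : L ⊆ LP S r P)
    (hC : ∃ p ∈ P, p ∈ L ∧ r p ∈ L) {v : ℕ} (hv : v ∈ L) (hvC : ¬ (v ∈ P ∧ r v ∈ L))
    {A : ℤ → ℤ} (hA : Per (fJ (L.erase v)) A) (ho : OddA (fJ (L.erase v)) A)
    (hs : ∀ k : ℤ, IsCoprime k (fJ (L.erase v) : ℤ) → A k ≠ 0 →
      ∀ p ∈ P, p ∈ L → r p ∈ L → ch p k = 1) :
    Even (OmT (pl m (fJ L) A - pl m (fJ (L.erase v)) (fun k => A k - A ((v : ℤ) * k)))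
      S P r ri x0) := by
  classical
  have hL : PJ L := fun q hq => LP_prime h (Finset.Subset.refl P) q (hLT hq)
  have hL' : PJ (L.erase v) := fun q hq => hL q (Finset.mem_of_mem_erase hq)
  have hAL : Per (fJ L) A := fun a b hab =>
    hA a b ((Int.natCast_dvd_natCast.2 (fJ_mono (Finset.erase_subset v L))).trans hab)
  have hB : Per (fJ (L.erase v)) (fun k => A k - A ((v : ℤ) * k)) := by
    intro a b hab
    have h1 : (fJ (L.erase v) : ℤ) ∣ (v : ℤ) * a - (v : ℤ) * b := by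
      rw [← mul_sub]
      exact Dvd.dvd.mul_left hab _
    show A a - A ((v : ℤ) * a) = A b - A ((v : ℤ) * b)
    rw [hA a b hab, hA _ _ h1]
  rw [OmT_sub]
  by_cases hS : S ⊆ L
  swap
  · have hS' : ¬ S ⊆ L.erase v := fun h1 => hS (h1.trans (Finset.erase_subset v L))
    rw [OmT_pl_zero h hm hL hS, OmT_pl_zero h hm hL' hS', sub_zero]
    exact Even.zero
  have h0 := LP_filter hLT hS
  have hC0 : (P.filter fun p => r p ∈ L) ⊆ P := Finset.filter_subset _ _
  rw [OmT_pl h hm hL hLT hS hAL]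
  by_cases hvS : v ∈ S
  · have hS' : ¬ S ⊆ L.erase v := fun h1 => (Finset.mem_erase.1 (h1 hvS)).1 rfl
    rw [OmT_pl_zero h hm hL' hS', sub_zero]
    have hvC0 : v ∉ P.filter fun p => r p ∈ L := fun h1 => hvC (Finset.mem_filter.1 h1)
    have h2 : 2 ≤ (LP S r (P.filter fun p => r p ∈ L)).card := by
      rw [h0]
      obtain ⟨p, hp, hpL, hrL⟩ := hC
      have hne : p ≠ r p := fun h3 => h.rS p hp (h3 ▸ h.PS hp)
      exact Finset.one_lt_card.2 ⟨p, hpL, r p, hrL, hne⟩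
    have h3 := even_sum_inv h hC0 hx0 hvS hvC0 h2 (A := A) (by rw [h0]; exact hA)
      (by rw [h0]; exact ho)
    rwa [h0] at h3
  · obtain ⟨p, hp, hpv⟩ : ∃ p ∈ P, r p = v := by
      rcases Finset.mem_union.1 (hLT hv) with h2 | h2
      · exact absurd h2 hvS
      · obtain ⟨p, hp, hpv⟩ := Finset.mem_image.1 h2
        exact ⟨p, hp, hpv⟩
    have hS' : S ⊆ L.erase v := fun q hq =>
      Finset.mem_erase.2 ⟨fun h1 => hvS (h1 ▸ hq), hS hq⟩
    have hpS : p ∈ S := h.PS hp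
    rw [OmT_pl h hm hL' ((Finset.erase_subset v L).trans hLT) hS' hB]
    have hzero : ∀ J ∈ (S.erase x0).powerset,
        A ((v : ℤ) * cr (L.erase v) (eJ S ri J)) = 0 := by
      intro J _
      by_contra hne
      have hcop : IsCoprime ((v : ℤ) * cr (L.erase v) (eJ S ri J)) (fJ (L.erase v) : ℤ) :=
        (coprime_fJ hL' (hL v hv) (fun h1 => (Finset.mem_erase.1 h1).1 rfl)).mul_left
          (cr_coprime hL' _)
      have h1 := hs _ hcop hne p hp (hS hpS) (hpv ▸ hv)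
      rw [ch_mul, ch_cr hL' _ (hS' hpS), ch_unit_four (h.prime p hpS) (h.P1 p hp), ← hpv,
        h.rr p hp] at h1
      norm_num at h1
    have h4 : ∑ J ∈ (S.erase x0).powerset, (A (cr (L.erase v) (eJ S ri J)) -
        A ((v : ℤ) * cr (L.erase v) (eJ S ri J))) =
        ∑ J ∈ (S.erase x0).powerset, A (cr L (eJ S ri J)) := by
      refine Finset.sum_congr rfl fun J hJ => ?_
      rw [hzero J hJ, sub_zero, A_cr_erase hL hA]
    rw [h4, sub_self]
    exact Even.zero

end Pool.Agent.Lib.MP_938ce2_ag_h99x
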