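import Pool.Agent.Lib.MP_938ce2_ag_h99x.K15
import Pool.Agent.Lib.MP_938ce2_ag_h99x.K13
import Pool.Agent.Lib.MP_938ce2_ag_h99x.K12
import Pool.Agent.Lib.MP_938ce2_ag_h99x.K03

/-!
A constrained level is removed.
-/

set_option autoImplicit false
set_option linter.style.haveILetI false
set_option linter.unusedSectionVars false

open Finset

namespace Pool.Agent.Lib.MP_938ce2_ag_h99x

open Pool.Agent.Lib.MP_938ce2_ag_h99 Pool.Agent.Lib.MP_938ce2_ag_h6
open Pool.Agent.Lib.MP_938ce2_ag_h99t Pool.Agent.Lib.MP_938ce2_ag_h99v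

variable {m : ℕ} [NeZero m]


private lemma k16_prime {S P : Finset ℕ} {r ri : ℕ → ℕ} (h : Aux S P r ri) :
    PJ (LP S r P) := by
  intro q hq
  rcases Finset.mem_union.1 hq with h1 | h1
  · exact h.prime q h1
  · obtain ⟨p, hp, rfl⟩ := Finset.mem_image.1 h1
    exact h.rprime p hp

private lemma k16_ch {S P : Finset ℕ} {r ri : ℕ → ℕ} (h : Aux S P r ri) {v p : ℕ}
    (hv : v ∈ LP S r P) (hp : p ∈ P) (hvp : v ≠ p) (hvr : v ≠ r p) : ch p v = 1 := by
  rcases Finset.mem_union.1 hv with h1 | h1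
  · exact h.good p hp v h1 hvp
  · obtain ⟨p', hp', rfl⟩ := Finset.mem_image.1 h1
    refine h.rr' p hp p' hp' ?_
    rintro rfl
    exact hvr rfl

private lemma k16_coprime {L : Finset ℕ} (hL : PJ L) {v : ℕ} (hv : v ∈ L) :
    IsCoprime (v : ℤ) (fJ (L.erase v) : ℤ) := by
  rw [Nat.isCoprime_iff_coprime]
  rw [coprime_fJ_iff (hL.mono (Finset.erase_subset v L))]
  intro p hp hpv
  rw [Finset.mem_erase] at hp
  exact hp.1 ((Nat.prime_dvd_prime_iff_eq (hL p hp.2) (hL v hv)).1 hpv)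

private lemma k16_even_sum (S P : Finset ℕ) (r ri : ℕ → ℕ) (x0 : ℕ) (V : Finset ℕ)
    (f : ℕ → ZMod m → ℤ) (hf : ∀ v ∈ V, Even (OmT (f v) S P r ri x0)) :
    Even (OmT (∑ v ∈ V, f v) S P r ri x0) := by
  classical
  induction V using Finset.induction_on with
  | empty =>
    have h1 := OmT_add (m := m) 0 0 S P r ri x0
    rw [add_zero] at h1
    rw [Finset.sum_empty]
    have h2 : OmT (0 : ZMod m → ℤ) S P r ri x0 = 0 := by linarith
    rw [h2]
    exact Even.zero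
  | insert v V hv ih =>
    rw [Finset.sum_insert hv, OmT_add]
    exact (hf v (Finset.mem_insert_self v V)).add
      (ih fun w hw => hf w (Finset.mem_insert_of_mem hw))

/-- With `C = {p ∈ P : p ∈ L ∧ r p ∈ L}` and `V = L \ C`, `A` from `split_con`,
`F' = pc L V A F`. The condition `con` at the level `L.erase v`: `ch p (v k) = ch p k` because
`ch p v = 1` for `v ∈ L \ C`, `v ≠ r p` (`Aux.good`, `Aux.rr'`), and `v k` is prime to `fJ (L.erase v)` if `k` is. -/
theorem st_con {X : AddSubgroup (ZMod m → ℤ)} {S P : Finset ℕ} {r ri : ℕ → ℕ} {x0 : ℕ}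
    (h : Aux S P r ri) (hm : fJ (LP S r P) ∣ m) (hx0 : x0 ∈ S) {F : ZMod m → ℤ}
    (hF : St X S P r ri x0 F) {L : Finset ℕ} (hLT : L ⊆ LP S r P)
    (hC : ∃ p ∈ P, p ∈ L ∧ r p ∈ L)
    (hs : ∀ a, F a ≠ 0 → fJ L ∣ addOrderOf a → addOrderOf a = fJ L) :
    ∃ F', St X S P r ri x0 F' ∧ (∀ a, addOrderOf a = fJ L → F' a = 0) ∧
      ∀ a, F' a ≠ F a → addOrderOf a ≤ fJ L := by
  classical
  have hT : PJ (LP S r P) := k16_prime h
  have hL : PJ L := hT.mono hLT
  have hdv : fJ L ∣ fJ (LP S r P) := fJ_dvd hLT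
  have hLm : fJ L ∣ m := hdv.trans hm
  set C : Finset ℕ := P.filter fun p => p ∈ L ∧ r p ∈ L with hCdef
  have hCL : C ⊆ L := fun p hp => (Finset.mem_filter.1 hp).2.1
  have hCne : C.Nonempty := by
    obtain ⟨p, hp, h1, h2⟩ := hC
    exact ⟨p, Finset.mem_filter.2 ⟨hp, h1, h2⟩⟩
  obtain ⟨A, hA, hsum⟩ := split_con hL hLm hCL hCne
    (fun p hp => h.P1 p (Finset.mem_filter.1 hp).1) hF.inX.odd hF.inX.tate hs
    (fun p hp k hk hk0 => hF.con L hLT p (Finset.mem_filter.1 hp).1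
      (Finset.mem_filter.1 hp).2.1 (Finset.mem_filter.1 hp).2.2 k hk hk0)
  have hV : L \ C ⊆ L := Finset.sdiff_subset
  have hA' : ∀ v ∈ L \ C, Per (fJ (L.erase v)) (A v) ∧ OddA (fJ (L.erase v)) (A v) :=
    fun v hv => ⟨(hA v hv).1, (hA v hv).2.1⟩
  have htop : ∀ a, addOrderOf a = fJ L → pc L (L \ C) A F a = 0 := fun a ha =>
    pc_top hL hLm hV hA' hsum ha
  have hor : ∀ a, pc L (L \ C) A F a ≠ F a → ∃ K ⊆ L, addOrderOf a = fJ K := by
    intro a ha
    rcases pc_supp ha with h1 | ⟨v, -, h1⟩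
    · exact ⟨L, Finset.Subset.refl L, h1⟩
    · exact ⟨L.erase v, Finset.erase_subset v L, h1⟩
  refine ⟨pc L (L \ C) A F, ⟨pc_inX hL hLm hV hF.inX hA', ?_, ?_, ?_, ?_⟩, htop, ?_⟩
  · intro a ha
    by_cases h1 : pc L (L \ C) A F a = F a
    · exact hF.supp a (by rwa [h1] at ha)
    · obtain ⟨K, hK, h2⟩ := hor a h1
      rw [h2]
      exact (fJ_dvd (hK.trans hLT)).trans (Nat.dvd_lcm_right 2 _)
  · intro K hK p hp hpK hrK k hk hk0
    by_cases h1 : pc L (L \ C) A F (pt m (fJ K) k) = F (pt m (fJ K) k)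
    · rw [h1] at hk0
      exact hF.con K hK p hp hpK hrK k hk hk0
    · have hKm : fJ K ∣ m := (fJ_dvd hK).trans hm
      have hord := addOrderOf_pt hKm hk
      rcases pc_supp h1 with h2 | ⟨v, hv, h2⟩
      · exact absurd (htop _ h2) hk0
      · have h3 : K = L.erase v := fJ_inj (hT.mono hK) (hL.mono (Finset.erase_subset v L))
          (hord.symm.trans h2)
        subst h3
        rw [pc_val hL hLm hV hA' hv hk] at hk0
        have hvL : v ∈ L := hV hv
        have hpC : p ∈ C := Finset.mem_filter.2 ⟨hp, (Finset.mem_erase.1 hpK).2,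
          (Finset.mem_erase.1 hrK).2⟩
        by_cases h4 : F (pt m (fJ (L.erase v)) k) = 0
        · by_cases h5 : A v k = 0
          · have h6 : A v ((v : ℤ) * k) ≠ 0 := by
              intro h6
              rw [h4, h5, h6] at hk0
              exact hk0 (by norm_num)
            have h7 := (hA v hv).2.2 ((v : ℤ) * k) ((k16_coprime hL hvL).mul_left hk) h6 p hpC
            rw [ch_mul, k16_ch h (hLT hvL) hp (fun h8 => (Finset.mem_erase.1 hpK).1 h8.symm)
              (fun h8 => (Finset.mem_erase.1 hrK).1 h8.symm), one_mul] at h7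
            exact h7
          · exact (hA v hv).2.2 k hk h5 p hpC
        · exact hF.con _ hK p hp hpK hrK k hk h4
  · intro a ha h4
    by_cases h1 : pc L (L \ C) A F a = F a
    · exact hF.ev a (by rwa [h1] at ha) h4
    · obtain ⟨K, hK, h2⟩ := hor a h1
      rw [h2] at h4
      exact absurd h4 (fJ_mod_four (hL.mono hK))
  · have h1 : OmT (pc L (L \ C) A F) S P r ri x0 = OmT F S P r ri x0 -
        OmT (∑ v ∈ L \ C, (pl m (fJ L) (A v) -
          pl m (fJ (L.erase v)) (fun k => A v k - A v ((v : ℤ) * k)))) S P r ri x0 := by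
      rw [← OmT_sub, pc]
    rw [h1]
    refine hF.om.sub_even (k16_even_sum S P r ri x0 (L \ C) _ fun v hv => ?_)
    have hvC : ¬ (v ∈ P ∧ r v ∈ L) := by
      rintro ⟨h2, h3⟩
      exact (Finset.mem_sdiff.1 hv).2 (Finset.mem_filter.2 ⟨h2, hV hv, h3⟩)
    exact even_om_term h hm hx0 hLT hC (hV hv) hvC (hA v hv).1 (hA v hv).2.1
      fun k hk hk0 p hp hpL hrL => (hA v hv).2.2 k hk hk0 p (Finset.mem_filter.2 ⟨hp, hpL, hrL⟩)
  · intro a ha
    obtain ⟨K, hK, h2⟩ := hor a ha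
    rw [h2]
    exact Nat.le_of_dvd (fJ_pos hL) (fJ_dvd hK)

end Pool.Agent.Lib.MP_938ce2_ag_h99x
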