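import Pool.Agent.Lib.MP_938ce2_ag_h99x.K14
import Pool.Agent.Lib.MP_938ce2_ag_h99x.K09

/-!
An unconstrained level is removed.
-/

set_option autoImplicit false
set_option linter.style.haveILetI false
set_option linter.unusedSectionVars false

open Finset

namespace Pool.Agent.Lib.MP_938ce2_ag_h99x

open Pool.Agent.Lib.MP_938ce2_ag_h99 Pool.Agent.Lib.MP_938ce2_ag_h6
open Pool.Agent.Lib.MP_938ce2_ag_h99t Pool.Agent.Lib.MP_938ce2_ag_h99v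

variable {m : ℕ} [NeZero m]

private lemma PJ_LP {S P : Finset ℕ} {r ri : ℕ → ℕ} (h : Aux S P r ri) : PJ (LP S r P) := by
  intro q hq
  rw [LP, mem_union, mem_image] at hq
  rcases hq with hq | ⟨p, hp, rfl⟩
  · exact h.prime q hq
  · exact h.rprime p hp

/-- `rem_exc` and `St.of_change` with `d = Nat.lcm 2 (fJ L)` -/
theorem st_known {X : AddSubgroup (ZMod m → ℤ)} {S P : Finset ℕ} {r ri : ℕ → ℕ} {x0 : ℕ}
    (h : Aux S P r ri) (hm : fJ (LP S r P) ∣ m) {F : ZMod m → ℤ} (hF : St X S P r ri x0 F)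
    {L : Finset ℕ} (hLT : L ⊆ LP S r P) (hb : ∃ p ∈ P, r p ∈ L)
    (hu : ∀ p ∈ P, ¬ (p ∈ L ∧ r p ∈ L)) (hX : Even L.card → ExcP X L)
    (hs : ∀ a, F a ≠ 0 → fJ L ∣ addOrderOf a → addOrderOf a = fJ L) :
    ∃ F', St X S P r ri x0 F' ∧ (∀ a, addOrderOf a = fJ L → F' a = 0) ∧
      ∀ a, F' a ≠ F a → addOrderOf a ≤ fJ L := by
  have hL : PJ L := (PJ_LP h).mono hLT
  have hdvd : fJ L ∣ fJ (LP S r P) := by
    unfold fJ
    exact prod_dvd_prod_of_subset _ _ _ hLT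
  obtain ⟨p0, hp0, hp0L⟩ := hb
  obtain ⟨F', h1, h2, h3⟩ := rem_exc hL ⟨_, hp0L⟩ (hdvd.trans hm) hX hF.inX hs
  refine ⟨F', ?_, h2, fun a ha => (h3 a ha).2⟩
  refine St.of_change h hm hF h1 (d := Nat.lcm 2 (fJ L)) (fun a ha => (h3 a ha).1)
    (Nat.lcm_dvd (Nat.dvd_lcm_left _ _) (hdvd.trans (Nat.dvd_lcm_right _ _))) ?_ ?_
  · rintro p hp ⟨hp1, hp2⟩
    refine hu p hp ⟨mem_of_dvd_odd hL (h.prime p (h.PS hp)) ?_ hp1,
      mem_of_dvd_odd hL (h.rprime p hp) ?_ hp2⟩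
    · have := h.P1 p hp
      omega
    · have := h.r3 p hp
      omega
  · intro hS
    have hSL : S ⊆ L := fJ_dvd_lcm h.prime hL hS
    exact hu p0 hp0 ⟨hSL (h.PS hp0), hp0L⟩

/-- `rem_one` (h99v/L05.lean) and `St.of_change` -/
theorem st_even {X : AddSubgroup (ZMod m → ℤ)} {S P : Finset ℕ} {r ri : ℕ → ℕ} {x0 : ℕ}
    (h : Aux S P r ri) (hm : fJ (LP S r P) ∣ m) {F : ZMod m → ℤ} (hF : St X S P r ri x0 F)
    {a0 : ZMod m} (ha0 : F a0 ≠ 0) (h4 : addOrderOf a0 % 4 = 2)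
    (hs : ∀ a, F a ≠ 0 → addOrderOf a0 ∣ addOrderOf a → addOrderOf a = addOrderOf a0) :
    ∃ F', St X S P r ri x0 F' ∧ (∀ a, addOrderOf a = addOrderOf a0 → F' a = 0) ∧
      ∀ a, F' a ≠ F a → addOrderOf a ≤ addOrderOf a0 := by
  have hfm : addOrderOf a0 ∣ m := by
    have := addOrderOf_dvd_natCard a0
    rwa [Nat.card_zmod] at this
  obtain ⟨F', h1, h2, h3⟩ := rem_one hfm (by omega) Nat.prime_two (Or.inl h4) hF.inX hs
  have hpos : 0 < addOrderOf a0 := by omega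
  refine ⟨F', ?_, h2, fun a ha => Nat.le_of_dvd hpos (h3 a ha)⟩
  exact St.of_change h hm hF h1 h3 (hF.supp a0 ha0) (hF.ev a0 ha0 h4).1 (hF.ev a0 ha0 h4).2

end Pool.Agent.Lib.MP_938ce2_ag_h99x
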