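import Pool.Agent.Lib.MP_938ce2_ag_h99x.K16
import Pool.Agent.Lib.MP_938ce2_ag_h99x.K17

/-!
The descent.
-/

set_option autoImplicit false
set_option linter.style.haveILetI false
set_option linter.unusedSectionVars false

open Finset

namespace Pool.Agent.Lib.MP_938ce2_ag_h99x

open Pool.Agent.Lib.MP_938ce2_ag_h99 Pool.Agent.Lib.MP_938ce2_ag_h6
open Pool.Agent.Lib.MP_938ce2_ag_h99t Pool.Agent.Lib.MP_938ce2_ag_h99v

variable {m : ℕ} [NeZero m]


private lemma lp_prime {S P : Finset ℕ} {r ri : ℕ → ℕ} (h : Aux S P r ri) {C : Finset ℕ}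
    (hC : C ⊆ P) : PJ (LP S r C) := by
  intro q hq
  rw [LP, mem_union, mem_image] at hq
  rcases hq with hq | ⟨p, hp, rfl⟩
  · exact h.prime q hq
  · exact h.rprime p (hC hp)

private lemma lp_mono {S P C : Finset ℕ} (r : ℕ → ℕ) (hC : C ⊆ P) : LP S r C ⊆ LP S r P :=
  union_subset_union_right (image_subset_image hC)

/-- Induction on a bound `k` for the orders `d` in the support divisible by some `r p`: the largest
one is removed by `st_even`, `st_con` or `st_known` (`exists_sub`). -/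
theorem descend {X : AddSubgroup (ZMod m → ℤ)} {S P : Finset ℕ} {r ri : ℕ → ℕ} {x0 : ℕ}
    (h : Aux S P r ri) (hm : fJ (LP S r P) ∣ m) (hx0 : x0 ∈ S)
    (hX : ∀ L, L ⊆ LP S r P → (∃ p ∈ P, r p ∈ L) → (∀ p ∈ P, ¬ (p ∈ L ∧ r p ∈ L)) →
      Even L.card → ExcP X L) :
    ∀ (k : ℕ) (F : ZMod m → ℤ), St X S P r ri x0 F →
      (∀ a, F a ≠ 0 → (∃ p ∈ P, r p ∣ addOrderOf a) → addOrderOf a ≤ k) →
      ∃ F', St X S P r ri x0 F' ∧ ∀ a, F' a ≠ 0 → ∀ p ∈ P, ¬ r p ∣ addOrderOf a := by
  intro k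
  induction k with
  | zero =>
    intro F hF hk
    refine ⟨F, hF, fun a ha p hp hd => ?_⟩
    have h1 := hk a ha ⟨p, hp, hd⟩
    have h2 : 0 < addOrderOf a := addOrderOf_pos a
    omega
  | succ k ih =>
    intro F hF hk
    by_cases hex : ∃ a, F a ≠ 0 ∧ (∃ p ∈ P, r p ∣ addOrderOf a) ∧ addOrderOf a = k + 1
    · obtain ⟨a0, ha0, ⟨p, hp, hpd⟩, hord⟩ := hex
      have hs : ∀ a, F a ≠ 0 → addOrderOf a0 ∣ addOrderOf a → addOrderOf a = addOrderOf a0 := by
        intro a ha hd
        have h1 := hk a ha ⟨p, hp, hpd.trans hd⟩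
        have h2 := Nat.le_of_dvd (addOrderOf_pos a) hd
        omega
      have hstep : ∃ F', St X S P r ri x0 F' ∧ (∀ a, addOrderOf a = addOrderOf a0 → F' a = 0) ∧
          ∀ a, F' a ≠ F a → addOrderOf a ≤ addOrderOf a0 := by
        by_cases h4 : addOrderOf a0 % 4 = 2
        · exact st_even h hm hF ha0 h4 hs
        · obtain ⟨L, hLT, hL⟩ := exists_sub (lp_prime h (Subset.refl P)) (hF.supp a0 ha0) h4
          rw [hL] at hs hpd ⊢
          by_cases hC : ∃ p ∈ P, p ∈ L ∧ r p ∈ L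
          · exact st_con h hm hx0 hF hLT hC hs
          · have hb : ∃ p ∈ P, r p ∈ L := by
              refine ⟨p, hp, mem_of_dvd_odd ((lp_prime h (Subset.refl P)).mono hLT)
                (h.rprime p hp) ?_ (hpd.trans (Nat.dvd_lcm_right _ _))⟩
              intro h2
              have := h.r3 p hp
              rw [h2] at this
              omega
            have hu : ∀ p ∈ P, ¬ (p ∈ L ∧ r p ∈ L) := fun p hp hh => hC ⟨p, hp, hh⟩
            exact st_known h hm hF hLT hb hu (fun hev => hX L hLT hb hu hev) hs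
      obtain ⟨F', hF', h0, hle⟩ := hstep
      refine ih F' hF' fun a ha hpa => ?_
      have hne : addOrderOf a ≠ addOrderOf a0 := fun h => ha (h0 a h)
      by_cases hFa : F' a = F a
      · have h1 := hk a (hFa ▸ ha) hpa
        omega
      · have h1 := hle a hFa
        omega
    · refine ih F hF fun a ha hpa => ?_
      have h1 := hk a ha hpa
      have h2 : addOrderOf a ≠ k + 1 := fun h2 => hex ⟨a, ha, hpa, h2⟩
      omega

/-- Only the term with `C = ∅` of `OmT` remains; the orders divide `lcm 2 (fJ S)` (`dvd_lcm_sub`) and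
are at most `fJ S` (`le_of_dvd_lcm`). -/
theorem excP_of_st {X : AddSubgroup (ZMod m → ℤ)} {S P : Finset ℕ} {r ri : ℕ → ℕ} {x0 : ℕ}
    (h : Aux S P r ri) (hm : fJ (LP S r P) ∣ m) (hx0 : x0 ∈ S) {F : ZMod m → ℤ}
    (hF : St X S P r ri x0 F) (hs : ∀ a, F a ≠ 0 → ∀ p ∈ P, ¬ r p ∣ addOrderOf a) :
    ExcP X S := by
  have hT := lp_prime h (Subset.refl P)
  have hST : S ⊆ LP S r P := subset_union_left
  refine ⟨F, hF.inX, fun a ha => ?_, x0, hx0, ?_⟩
  · have h1 : ∀ q ∈ LP S r P, q ∉ S → ¬ q ∣ addOrderOf a := by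
      intro q hq hqS
      rw [LP, mem_union, mem_image] at hq
      rcases hq with hq | ⟨p, hp, rfl⟩
      · exact absurd hq hqS
      · exact hs a ha p hp
    have h2 := dvd_lcm_sub hT hST (hF.supp a ha) h1
    exact ⟨h2, le_of_dvd_lcm h.prime h2 fun h4 => (hF.ev a ha h4).2⟩
  · have hom := hF.om
    rw [OmT, ← Finset.add_sum_erase _ _ (empty_mem_powerset P)] at hom
    have h0 : ∑ C ∈ P.powerset.erase ∅, Om F S r ri x0 C = 0 := by
      refine sum_eq_zero fun C hC => ?_
      obtain ⟨hCne, hCP⟩ := mem_erase.1 hC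
      obtain ⟨p, hp⟩ := nonempty_iff_ne_empty.2 hCne
      have hCP' := mem_powerset.1 hCP
      unfold Om
      refine sum_eq_zero fun J _ => ?_
      unfold val
      by_contra hne
      have hLm : fJ (LP S r C) ∣ m := (fJ_dvd (lp_mono r hCP')).trans hm
      have h3 := addOrderOf_cr (lp_prime h hCP') hLm (eJ S ri J)
      refine hs _ hne p (hCP' hp) ?_
      rw [h3]
      refine p_dvd_ep.trans (ep_dvd_fJ ?_)
      rw [LP, mem_union, mem_image]
      exact Or.inr ⟨p, hp, rfl⟩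
    rw [h0, add_zero] at hom
    have h1 : Om F S r ri x0 ∅ = Om0 F S x0 := by
      unfold Om Om0
      have hL : LP S r ∅ = S := by simp [LP]
      rw [hL]
      refine sum_congr rfl fun J _ => ?_
      refine val_congr h.prime ((fJ_dvd hST).trans hm) F fun q hq => ?_
      unfold eJ
      rw [if_pos hq]
    rwa [h1] at hom

end Pool.Agent.Lib.MP_938ce2_ag_h99x
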