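import Pool.Agent.Lib.MP_938ce2_ag_h99x.K02

/-!
The initial function.
-/

set_option autoImplicit false
set_option linter.style.haveILetI false
set_option linter.unusedSectionVars false

open Finset

namespace Pool.Agent.Lib.MP_938ce2_ag_h99x

open Pool.Agent.Lib.MP_938ce2_ag_h99 Pool.Agent.Lib.MP_938ce2_ag_h6
open Pool.Agent.Lib.MP_938ce2_ag_h99t Pool.Agent.Lib.MP_938ce2_ag_h99v

variable {m : ℕ} [NeZero m]


private lemma comb {T : Finset ℕ} {g : (ℕ → ℤˣ) → ℚ}
    (hg : g ∈ AddSubgroup.closure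
      {g : (ℕ → ℤˣ) → ℚ | ∃ J, J ⊆ T ∧ cI J (-1) = -1 ∧ g = Sf J}) :
    ∃ d : Finset ℕ → ℤ, (∀ J, cI J (-1) ≠ -1 → d J = 0) ∧
      ∀ ε, g ε = ∑ J ∈ T.powerset, (d J : ℚ) * Sf J ε := by
  classical
  induction hg using AddSubgroup.closure_induction with
  | mem g hg =>
    obtain ⟨J, hJT, hodd, rfl⟩ := hg
    refine ⟨fun I => if I = J then 1 else 0, ?_, ?_⟩
    · intro I hI
      refine if_neg ?_
      rintro rfl
      exact hI hodd
    · intro ε
      rw [Finset.sum_eq_single J]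
      · simp
      · intro b _ hb
        simp [hb]
      · intro h
        exact absurd (mem_powerset.2 hJT) h
  | zero => exact ⟨fun _ => 0, fun _ _ => rfl, fun ε => by simp⟩
  | add g1 g2 _ _ h1 h2 =>
    obtain ⟨d1, a1, b1⟩ := h1
    obtain ⟨d2, a2, b2⟩ := h2
    refine ⟨fun J => d1 J + d2 J, fun J hJ => ?_, fun ε => ?_⟩
    · beta_reduce
      rw [a1 J hJ, a2 J hJ, add_zero]
    · rw [Pi.add_apply, b1, b2, ← sum_add_distrib]
      refine sum_congr rfl fun J _ => ?_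
      push_cast
      ring
  | neg g _ h =>
    obtain ⟨d, a, b⟩ := h
    refine ⟨fun J => - d J, fun J hJ => ?_, fun ε => ?_⟩
    · beta_reduce
      rw [a J hJ, neg_zero]
    · rw [Pi.neg_apply, b, ← sum_neg_distrib]
      refine sum_congr rfl fun J _ => ?_
      push_cast
      ring

/-- `Sf_mem`, `exists_E1`-type induction (h99v/Set2.lean, Span1.lean), `sum_BJ`; `c T = 1` since the
other sets `J` satisfy `cI J (-1) = -1`. -/
theorem exists_F0 {T : Finset ℕ} (hT : PJ T) (hne : T.Nonempty) (hm : fJ T ∣ m)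
    (hcI : cI T (-1) = 1) : ∃ c : Finset ℕ → ℤ, c T = 1 ∧
      (∑ J ∈ T.powerset, c J • oddPart (BJ m J)) ∈ thetaSub1 m ∧
      TateF (∑ J ∈ T.powerset, c J • oddPart (BJ m J)) := by
  classical
  have hSf := Pool.Agent.Lib.MP_938ce2_ag_h99v.Sf_mem hT hne
  obtain ⟨d, hd, hd'⟩ := comb hSf
  obtain ⟨c, hc⟩ : ∃ c : Finset ℕ → ℤ, ∀ J, c J = (if J = T then 1 else 0) - d J :=
    ⟨_, fun _ => rfl⟩
  refine ⟨c, ?_, ?_, ?_⟩
  · rw [hc, if_pos rfl, hd T (by rw [hcI]; norm_num), sub_zero]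
  · refine AddSubgroup.sum_mem _ fun J hJ => AddSubgroup.zsmul_mem _ ?_ _
    have hJT := mem_powerset.1 hJ
    exact oddPart_BJ_mem1 (hT.mono hJT) ((fJ_dvd hJT).trans hm)
  · intro t
    have h2 : ∀ J ∈ T.powerset,
        ((∑ a, (c J • oddPart (BJ m J)) a * (((t : ZMod m) * a).val : ℤ) : ℤ) : ℚ)
          = 2 * m * ((c J : ℚ) * Sf J (sg t)) := by
      intro J hJ
      have hJT := mem_powerset.1 hJ
      by_cases hJ0 : J.Nonempty
      · have h3 := sum_BJ (hT.mono hJT) hJ0 ((fJ_dvd hJT).trans hm) t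
        have h4 : ∑ a, (c J • oddPart (BJ m J)) a * (((t : ZMod m) * a).val : ℤ)
            = c J * ∑ a, oddPart (BJ m J) a * (((t : ZMod m) * a).val : ℤ) := by
          rw [mul_sum]
          refine sum_congr rfl fun a _ => ?_
          rw [Pi.smul_apply, smul_eq_mul, mul_assoc]
        rw [h4, Int.cast_mul, h3]
        ring
      · rw [not_nonempty_iff_eq_empty] at hJ0
        have h5 : c J = 0 := by
          rw [hc, hJ0, if_neg hne.ne_empty.symm, hd ∅ (by unfold cI; norm_num), sub_zero]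
        rw [h5]
        simp
    have h1 : ((∑ a, (∑ J ∈ T.powerset, c J • oddPart (BJ m J)) a *
        (((t : ZMod m) * a).val : ℤ) : ℤ) : ℚ) = 0 := by
      have h3 : ∑ a, (∑ J ∈ T.powerset, c J • oddPart (BJ m J)) a * (((t : ZMod m) * a).val : ℤ)
          = ∑ J ∈ T.powerset, ∑ a, (c J • oddPart (BJ m J)) a * (((t : ZMod m) * a).val : ℤ) := by
        rw [sum_comm]
        refine sum_congr rfl fun a _ => ?_
        rw [Finset.sum_apply, sum_mul]
      rw [h3, Int.cast_sum, sum_congr rfl h2, ← mul_sum]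
      have h4 : ∑ J ∈ T.powerset, (c J : ℚ) * Sf J (sg t) = 0 := by
        have h5 : ∀ J ∈ T.powerset, (c J : ℚ) * Sf J (sg t)
            = (if J = T then Sf J (sg t) else 0) - (d J : ℚ) * Sf J (sg t) := by
          intro J _
          rw [hc]
          split_ifs <;> push_cast <;> ring
        rw [sum_congr rfl h5, sum_sub_distrib, ← hd', Finset.sum_ite_eq' T.powerset T,
          if_pos (mem_powerset_self T), sub_self]
      rw [h4, mul_zero]
    exact_mod_cast h1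

/-- `BJ_pl` (h99v/P03.lean), `pl_pt`, `pl_of_ne` -/
lemma F0_val {T : Finset ℕ} (hT : PJ T) (hm : fJ T ∣ m) (c : Finset ℕ → ℤ) {L : Finset ℕ}
    (hLT : L ⊆ T) (hLne : L.Nonempty) {k : ℤ} (hk : IsCoprime k (fJ L : ℤ)) :
    (∑ J ∈ T.powerset, c J • oddPart (BJ m J)) (pt m (fJ L) k)
      = c L * ((if ∀ q ∈ L, ch q k = 1 then 1 else 0)
        - (if ∀ q ∈ L, ch q (-k) = 1 then 1 else 0)) := by
  classical
  have hL := hT.mono hLT
  have hLm : fJ L ∣ m := (fJ_dvd hLT).trans hm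
  have hord : addOrderOf (pt m (fJ L) k) = fJ L := addOrderOf_pt hLm hk
  rw [Finset.sum_apply, Finset.sum_eq_single L]
  · rw [Pi.smul_apply, smul_eq_mul, BJ_pl hL hLne hLm]
    have hper : Per (fJ L) (fun k => ((if ∀ p ∈ L, ch p k = 1 then 1 else 0)
      - (if ∀ p ∈ L, ch p (-k) = 1 then 1 else 0) : ℤ)) := by
      intro a b hab
      have h1 : (∀ p ∈ L, ch p a = 1) ↔ ∀ p ∈ L, ch p b = 1 := by
        refine forall₂_congr fun q hq => ?_
        rw [ch_congr ((Int.natCast_dvd_natCast.mpr (ep_dvd_fJ hq)).trans hab)]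
      have h2 : (∀ p ∈ L, ch p (-a) = 1) ↔ ∀ p ∈ L, ch p (-b) = 1 := by
        refine forall₂_congr fun q hq => ?_
        have h3 : ((fJ L : ℕ) : ℤ) ∣ -a - -b := by
          have h4 := (dvd_neg (α := ℤ)).mpr hab
          rwa [neg_sub, ← neg_sub_neg] at h4
        rw [ch_congr ((Int.natCast_dvd_natCast.mpr (ep_dvd_fJ hq)).trans h3)]
      simp only [h1, h2]
    rw [pl_pt hLm hper hk]
  · intro J hJ hne
    have hJT := mem_powerset.1 hJ
    have hJ' := hT.mono hJT
    rw [Pi.smul_apply]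
    have h0 : oddPart (BJ m J) (pt m (fJ L) k) = 0 := by
      by_contra h
      have h1 := BJ_supp hJ' ((fJ_dvd hJT).trans hm) h
      rw [hord] at h1
      exact hne (fJ_inj hL hJ' h1).symm
    rw [h0, smul_zero]
  · intro h
    exact absurd (mem_powerset.2 hLT) h

lemma F0_supp {T : Finset ℕ} (hT : PJ T) (hm : fJ T ∣ m) (c : Finset ℕ → ℤ) {a : ZMod m}
    (ha : (∑ J ∈ T.powerset, c J • oddPart (BJ m J)) a ≠ 0) :
    ∃ J ⊆ T, J.Nonempty ∧ addOrderOf a = fJ J := by
  rw [Finset.sum_apply] at ha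
  obtain ⟨J, hJ, hJa⟩ := Finset.exists_ne_zero_of_sum_ne_zero ha
  have hJT := mem_powerset.1 hJ
  rw [Pi.smul_apply] at hJa
  have h1 : oddPart (BJ m J) a ≠ 0 := fun h => hJa (by rw [h, smul_zero])
  have h2 := BJ_supp (hT.mono hJT) ((fJ_dvd hJT).trans hm) h1
  refine ⟨J, hJT, ?_, h2⟩
  by_contra hne
  rw [not_nonempty_iff_eq_empty] at hne
  rw [hne, show fJ ∅ = 1 from rfl, AddMonoid.addOrderOf_eq_one_iff] at h2
  rw [h2] at h1
  apply h1
  unfold oddPart
  rw [neg_zero, sub_self]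

end Pool.Agent.Lib.MP_938ce2_ag_h99x
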