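import Pool.Agent.Lib.MP_938ce2_ag_h99x.K19
import Pool.Agent.Lib.MP_938ce2_ag_h99x.K03
import Pool.Agent.Lib.MP_938ce2_ag_h99x.K04
import Pool.Agent.Lib.MP_938ce2_ag_h99x.K15

/-!
The initial function satisfies the invariant.
-/

set_option autoImplicit false
set_option linter.style.haveILetI false
set_option linter.unusedSectionVars false

open Finset

namespace Pool.Agent.Lib.MP_938ce2_ag_h99x

open Pool.Agent.Lib.MP_938ce2_ag_h99 Pool.Agent.Lib.MP_938ce2_ag_h6
open Pool.Agent.Lib.MP_938ce2_ag_h99t Pool.Agent.Lib.MP_938ce2_ag_h99v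

variable {m : ℕ} [NeZero m]


private lemma lp_prime {S P : Finset ℕ} {r ri : ℕ → ℕ} (h : Aux S P r ri) {C : Finset ℕ}
    (hC : C ⊆ P) : PJ (LP S r C) := by
  intro q hq
  rw [LP, mem_union, mem_image] at hq
  rcases hq with hq | ⟨p, hp, rfl⟩
  · exact h.prime q hq
  · exact h.rprime p (hC hp)

private lemma lp_mono {S P C : Finset ℕ} (r : ℕ → ℕ) (hC : C ⊆ P) : LP S r C ⊆ LP S r P :=
  union_subset_union_right (image_subset_image hC)

private lemma ch_neg_cr (q : ℕ) (k : ℤ) : ch q (-k) = ch q (-1) * ch q k := by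
  rw [← ch_mul]
  congr 1
  ring

private lemma ch_one {L : Finset ℕ} (hL : PJ L) (ε : ℕ → ℤˣ) {q : ℕ} (hq : q ∈ L)
    (h4 : q % 4 = 1) : ch q (cr L ε) = 1 ∧ ch q (-cr L ε) = 1 := by
  have h1 : ch q (cr L ε) = 1 := by rw [ch_cr hL ε hq, ch_unit_four (hL q hq) h4]
  refine ⟨h1, ?_⟩
  have h2 := ch_unit_four (hL q hq) h4 (-1)
  rw [ch_neg_cr, h1, mul_one]
  simpa using h2

private lemma ch_three {L : Finset ℕ} (hL : PJ L) (ε : ℕ → ℤˣ) {q : ℕ} (hq : q ∈ L)
    (h4 : q % 4 ≠ 1) : ch q (cr L ε) = ε q ∧ ch q (-cr L ε) = -ε q := by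
  have h1 : ch q (cr L ε) = ε q := by rw [ch_cr hL ε hq, ch_unit_three (hL q hq) h4]
  refine ⟨h1, ?_⟩
  have h2 := ch_unit_three (hL q hq) h4 (-1)
  have h3 : ch q (-1) = -1 := by simpa using h2
  rw [ch_neg_cr, h1, h3, neg_one_mul]

private lemma sJ_one {J : Finset ℕ} {q : ℕ} : ((sJ J q : ℤˣ) : ℤ) = 1 ↔ q ∉ J := by
  unfold sJ
  split_ifs with h <;> simp [h]

private lemma sJ_neg {J : Finset ℕ} {q : ℕ} : -((sJ J q : ℤˣ) : ℤ) = 1 ↔ q ∈ J := by
  unfold sJ
  split_ifs with h <;> simp [h]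

private lemma eJ_S {S J : Finset ℕ} {ri : ℕ → ℕ} {q : ℕ} (hq : q ∈ S) :
    ((eJ S ri J q : ℤˣ) : ℤ) = sJ J q := by
  unfold eJ
  rw [if_pos hq]

private lemma eJ_r {S P J : Finset ℕ} {r ri : ℕ → ℕ} (h : Aux S P r ri) {p : ℕ} (hp : p ∈ P) :
    ((eJ S ri J (r p) : ℤˣ) : ℤ) = -sJ J p := by
  unfold eJ
  rw [if_neg (h.rS p hp), h.rri p hp, Units.val_neg]

private lemma condA {S P : Finset ℕ} {r ri : ℕ → ℕ} (h : Aux S P r ri) {J : Finset ℕ}
    (hJ : J ⊆ S) : (∀ q ∈ LP S r P, ch q (cr (LP S r P) (eJ S ri J)) = 1) ↔ J = P := by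
  have hT := lp_prime h (Subset.refl P)
  constructor
  · intro h1
    ext q
    constructor
    · intro hq
      by_contra hqP
      have hqS := hJ hq
      have hqT : q ∈ LP S r P := mem_union_left _ hqS
      have h2 := h1 q hqT
      rw [(ch_three hT _ hqT (h.Q3 q hqS hqP)).1, eJ_S hqS, sJ_one] at h2
      exact h2 hq
    · intro hq
      have hqT : r q ∈ LP S r P := mem_union_right _ (mem_image_of_mem r hq)
      have h2 := h1 _ hqT
      have h3 := h.r3 q hq
      rw [(ch_three hT _ hqT (by omega)).1, eJ_r h hq, sJ_neg] at h2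
      exact h2
  · rintro rfl q hq
    by_cases hqS : q ∈ S
    · by_cases hqP : q ∈ J
      · exact (ch_one hT _ hq (h.P1 q hqP)).1
      · rw [(ch_three hT _ hq (h.Q3 q hqS hqP)).1, eJ_S hqS, sJ_one]
        exact hqP
    · rw [LP, mem_union, mem_image] at hq
      rcases hq with hq' | ⟨p, hp, rfl⟩
      · exact absurd hq' hqS
      · have hqT : r p ∈ LP S r J := mem_union_right _ (mem_image_of_mem r hp)
        have h3 := h.r3 p hp
        rw [(ch_three hT _ hqT (by omega)).1, eJ_r h hp, sJ_neg]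
        exact hp

private lemma condB {S P : Finset ℕ} {r ri : ℕ → ℕ} (h : Aux S P r ri) {J : Finset ℕ}
    (hJ : J ⊆ S) : (∀ q ∈ LP S r P, ch q (-cr (LP S r P) (eJ S ri J)) = 1) ↔ J = S \ P := by
  have hT := lp_prime h (Subset.refl P)
  constructor
  · intro h1
    ext q
    rw [mem_sdiff]
    constructor
    · intro hq
      refine ⟨hJ hq, fun hqP => ?_⟩
      have hqT : r q ∈ LP S r P := mem_union_right _ (mem_image_of_mem r hqP)
      have h2 := h1 _ hqT
      have h3 := h.r3 q hqP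
      rw [(ch_three hT _ hqT (by omega)).2, eJ_r h hqP, neg_neg, sJ_one] at h2
      exact h2 hq
    · rintro ⟨hqS, hqP⟩
      have hqT : q ∈ LP S r P := mem_union_left _ hqS
      have h2 := h1 q hqT
      rw [(ch_three hT _ hqT (h.Q3 q hqS hqP)).2, eJ_S hqS, sJ_neg] at h2
      exact h2
  · rintro rfl q hq
    by_cases hqS : q ∈ S
    · by_cases hqP : q ∈ P
      · exact (ch_one hT _ hq (h.P1 q hqP)).2
      · rw [(ch_three hT _ hq (h.Q3 q hqS hqP)).2, eJ_S hqS, sJ_neg]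
        exact mem_sdiff.2 ⟨hqS, hqP⟩
    · have hq2 := hq
      rw [LP, mem_union, mem_image] at hq
      rcases hq with hq' | ⟨p, hp, rfl⟩
      · exact absurd hq' hqS
      · have h3 := h.r3 p hp
        rw [(ch_three hT _ hq2 (by omega)).2, eJ_r h hp, neg_neg, sJ_one]
        exact fun h4 => (mem_sdiff.1 h4).2 hp

private lemma val_F0 {S P : Finset ℕ} {r ri : ℕ → ℕ} (h : Aux S P r ri)
    (hm : fJ (LP S r P) ∣ m) (hS : S.Nonempty) (c : Finset ℕ → ℤ) {C : Finset ℕ} (hC : C ⊆ P)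
    (ε : ℕ → ℤˣ) :
    val (∑ J ∈ (LP S r P).powerset, c J • oddPart (BJ m J)) (LP S r C) ε
      = c (LP S r C) * ((if ∀ q ∈ LP S r C, ch q (cr (LP S r C) ε) = 1 then 1 else 0)
        - (if ∀ q ∈ LP S r C, ch q (-cr (LP S r C) ε) = 1 then 1 else 0)) :=
  F0_val (lp_prime h (Subset.refl P)) hm c (lp_mono r hC) (hS.mono subset_union_left)
    (cr_coprime (lp_prime h hC) ε)

private lemma even_C {S P : Finset ℕ} {r ri : ℕ → ℕ} (h : Aux S P r ri)
    (hm : fJ (LP S r P) ∣ m) {x0 : ℕ} (hx0 : x0 ∈ S) (h2 : 2 ≤ S.card) (c : Finset ℕ → ℤ)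
    {C : Finset ℕ} (hC : C ⊆ P) {v : ℕ} (hvP : v ∈ P) (hvC : v ∉ C) :
    Even (Om (∑ J ∈ (LP S r P).powerset, c J • oddPart (BJ m J)) S r ri x0 C) := by
  have hL := lp_prime h hC
  have hvS : v ∈ S := h.PS hvP
  have hvL : v ∈ LP S r C := mem_union_left _ hvS
  obtain ⟨A, hA⟩ : ∃ A : ℤ → ℤ, ∀ k, A k = (if ∀ q ∈ (LP S r C).erase v, ch q k = 1 then 1 else 0)
      - (if ∀ q ∈ (LP S r C).erase v, ch q (-k) = 1 then 1 else 0) := ⟨_, fun _ => rfl⟩
  have hper : Per (fJ ((LP S r C).erase v)) A := by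
    intro a b hab
    have h1 : (∀ p ∈ (LP S r C).erase v, ch p a = 1) ↔ ∀ p ∈ (LP S r C).erase v, ch p b = 1 := by
      refine forall₂_congr fun q hq => ?_
      rw [ch_congr ((Int.natCast_dvd_natCast.mpr (ep_dvd_fJ hq)).trans hab)]
    have h2 : (∀ p ∈ (LP S r C).erase v, ch p (-a) = 1) ↔
        ∀ p ∈ (LP S r C).erase v, ch p (-b) = 1 := by
      refine forall₂_congr fun q hq => ?_
      have h3 : ((fJ ((LP S r C).erase v) : ℕ) : ℤ) ∣ -a - -b := by
        have h4 := (dvd_neg (α := ℤ)).mpr hab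
        rwa [neg_sub, ← neg_sub_neg] at h4
      rw [ch_congr ((Int.natCast_dvd_natCast.mpr (ep_dvd_fJ hq)).trans h3)]
    rw [hA, hA]
    simp only [h1, h2]
  have hodd : OddA (fJ ((LP S r C).erase v)) A := by
    intro k _
    rw [hA, hA, neg_neg]
    ring
  have hcard : 2 ≤ (LP S r C).card := h2.trans (card_le_card subset_union_left)
  have h3 := even_sum_inv h hC hx0 hvS hvC hcard hper hodd
  unfold Om
  have h4 : ∀ J ∈ (S.erase x0).powerset,
      val (∑ J ∈ (LP S r P).powerset, c J • oddPart (BJ m J)) (LP S r C) (eJ S ri J)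
        = c (LP S r C) * A (cr (LP S r C) (eJ S ri J)) := by
    intro J _
    rw [val_F0 h hm ⟨x0, hx0⟩ c hC, hA]
    have e1 : ∀ k : ℤ, ch v k = 1 → ((∀ q ∈ LP S r C, ch q k = 1) ↔
        ∀ q ∈ (LP S r C).erase v, ch q k = 1) := by
      intro k hk
      constructor
      · exact fun h5 q hq => h5 q (mem_of_mem_erase hq)
      · intro h5 q hq
        by_cases hqv : q = v
        · rw [hqv]; exact hk
        · exact h5 q (mem_erase.2 ⟨hqv, hq⟩)
    have e2 := ch_one hL (eJ S ri J) hvL (h.P1 v hvP)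
    simp only [e1 _ e2.1, e1 _ e2.2]
  rw [sum_congr rfl h4, ← mul_sum]
  exact h3.mul_left _

/-- The parity at the initial function. For `C ≠ P` choose `p ∈ P \ C`: the value at the signs does
not depend on the sign of `p` (`ch p (± 1) = 1`), so as in `even_sum_inv` the sum over `J` is even
(pairs `J`, `J ∆ {p}` if `p ≠ x0`, and `J`, `(S.erase x0) \ J` if `p = x0`). For `C = P` exactly one
`J` gives a value which is not zero: `J = P` (value `1`) if `x0 ∉ P`, and `J = S \ P` (value `-1`)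
if `x0 ∈ P`. -/
theorem odd_om_F0 {S P : Finset ℕ} {r ri : ℕ → ℕ} (h : Aux S P r ri)
    (hm : fJ (LP S r P) ∣ m) {x0 : ℕ} (hx0 : x0 ∈ S) (h2 : 2 ≤ S.card) {c : Finset ℕ → ℤ}
    (hc : c (LP S r P) = 1) :
    Odd (OmT (∑ J ∈ (LP S r P).powerset, c J • oddPart (BJ m J)) S P r ri x0) := by
  rw [OmT, ← Finset.add_sum_erase _ _ (mem_powerset_self P)]
  refine Odd.add_even ?_ (Finset.even_sum _ fun C hC => ?_)
  · unfold Om
    have h4 : ∀ J ∈ (S.erase x0).powerset,
        val (∑ J ∈ (LP S r P).powerset, c J • oddPart (BJ m J)) (LP S r P) (eJ S ri J)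
          = (if J = P then 1 else 0) - (if J = S \ P then 1 else 0) := by
      intro J hJ
      have hJS : J ⊆ S := (mem_powerset.1 hJ).trans (erase_subset _ _)
      rw [val_F0 h hm ⟨x0, hx0⟩ c (Subset.refl P), hc, one_mul]
      simp only [condA h hJS, condB h hJS]
    rw [sum_congr rfl h4, sum_sub_distrib, sum_ite_eq', sum_ite_eq']
    by_cases hxP : x0 ∈ P
    · have e1 : P ∉ (S.erase x0).powerset := fun h5 =>
        (mem_erase.1 (mem_powerset.1 h5 hxP)).1 rfl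
      have e2 : S \ P ∈ (S.erase x0).powerset := by
        rw [mem_powerset]
        intro q hq
        obtain ⟨h5, h6⟩ := mem_sdiff.1 hq
        exact mem_erase.2 ⟨fun h7 => h6 (h7 ▸ hxP), h5⟩
      rw [if_neg e1, if_pos e2]
      decide
    · have e1 : P ∈ (S.erase x0).powerset := by
        rw [mem_powerset]
        intro q hq
        exact mem_erase.2 ⟨fun h7 => hxP (h7 ▸ hq), h.PS hq⟩
      have e2 : S \ P ∉ (S.erase x0).powerset := fun h5 =>
        (mem_erase.1 (mem_powerset.1 h5 (mem_sdiff.2 ⟨hx0, hxP⟩))).1 rfl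
      rw [if_pos e1, if_neg e2]
      decide
  · obtain ⟨hne, hCP⟩ := mem_erase.1 hC
    have hCP' := mem_powerset.1 hCP
    obtain ⟨v, hvP, hvC⟩ : ∃ v ∈ P, v ∉ C := by
      by_contra hcon
      push Not at hcon
      exact hne (Subset.antisymm hCP' hcon)
    exact even_C h hm hx0 h2 c hCP' hvP hvC

theorem init {X : AddSubgroup (ZMod m → ℤ)} (hX : ∀ F ∈ thetaSub1 m, TateF F → F ∈ X)
    {S P : Finset ℕ} {r ri : ℕ → ℕ} (h : Aux S P r ri) (hm : fJ (LP S r P) ∣ m) {x0 : ℕ}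
    (hx0 : x0 ∈ S) (hev : Even S.card) : ∃ F, St X S P r ri x0 F := by
  have hT := lp_prime h (Subset.refl P)
  have hTne : (LP S r P).Nonempty := ⟨x0, mem_union_left _ hx0⟩
  have hneg1 : ∀ q ∈ LP S r P, q % 4 = 1 → ch q (-1) = 1 := fun q hq h4 => by
    simpa using ch_unit_four (hT q hq) h4 (-1)
  have hneg3 : ∀ q ∈ LP S r P, q % 4 ≠ 1 → ch q (-1) = -1 := fun q hq h4 => by
    simpa using ch_unit_three (hT q hq) h4 (-1)
  have hcI : cI (LP S r P) (-1) = 1 := by
    unfold cI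
    have hdisj : Disjoint S (P.image r) := by
      rw [disjoint_left]
      intro q hq hq'
      obtain ⟨p, hp, rfl⟩ := mem_image.1 hq'
      exact h.rS p hp hq
    have e1 : LP S r P = S ∪ P.image r := rfl
    have hinj : Set.InjOn r P := by
      intro p hp p' hp' hpp
      rw [← h.rri p hp, ← h.rri p' hp', hpp]
    rw [e1, prod_union hdisj, prod_image hinj]
    have e2 : ∏ p ∈ P, ch (r p) (-1) = ∏ p ∈ P, (-1 : ℤ) := by
      refine prod_congr rfl fun p hp => ?_
      have h3 := h.r3 p hp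
      exact hneg3 _ (mem_union_right _ (mem_image_of_mem r hp)) (by omega)
    have e3 : ∏ q ∈ S, ch q (-1) = ∏ q ∈ S \ P, (-1 : ℤ) := by
      rw [← prod_sdiff h.PS]
      have e4 : ∏ q ∈ P, ch q (-1) = 1 := prod_eq_one fun q hq =>
        hneg1 q (mem_union_left _ (h.PS hq)) (h.P1 q hq)
      rw [e4, mul_one]
      refine prod_congr rfl fun q hq => ?_
      obtain ⟨h5, h6⟩ := mem_sdiff.1 hq
      exact hneg3 q (mem_union_left _ h5) (h.Q3 q h5 h6)
    rw [e2, e3, prod_const, prod_const, ← pow_add, card_sdiff_add_card_eq_card h.PS]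
    exact hev.neg_one_pow
  obtain ⟨c, hc1, hc2, hc3⟩ := exists_F0 hT hTne hm hcI
  have h2 : 2 ≤ S.card := by
    have h3 : 0 < S.card := card_pos.2 ⟨x0, hx0⟩
    obtain ⟨k, hk⟩ := hev
    omega
  refine ⟨∑ J ∈ (LP S r P).powerset, c J • oddPart (BJ m J), ?_, ?_, ?_, ?_, ?_⟩
  · refine ⟨AddSubgroup.mem_sup_left (hX _ hc2 hc3), ?_, hc3⟩
    intro a
    rw [Finset.sum_apply, Finset.sum_apply, ← sum_neg_distrib]
    refine sum_congr rfl fun J _ => ?_
    rw [Pi.smul_apply, Pi.smul_apply, oddPart_odd, smul_neg]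
  · intro a ha
    obtain ⟨J, hJT, -, hJ⟩ := F0_supp hT hm c ha
    rw [hJ]
    exact (fJ_dvd hJT).trans (Nat.dvd_lcm_right _ _)
  · intro L hLT p hp hpL hrL k hk hne
    rw [F0_val hT hm c hLT ⟨p, hpL⟩ hk] at hne
    by_cases hA : ∀ q ∈ L, ch q k = 1
    · exact hA p hpL
    · by_cases hB : ∀ q ∈ L, ch q (-k) = 1
      · have h3 := hB p hpL
        rw [ch_neg_cr, hneg1 p (hLT hpL) (h.P1 p hp), one_mul] at h3
        exact h3
      · rw [if_neg hA, if_neg hB, sub_self, mul_zero] at hne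
        exact absurd rfl hne
  · intro a ha h4
    obtain ⟨J, hJT, -, hJ⟩ := F0_supp hT hm c ha
    rw [hJ] at h4
    exact absurd h4 (fJ_mod_four (hT.mono hJT))
  · exact odd_om_F0 h hm hx0 h2 hc1

end Pool.Agent.Lib.MP_938ce2_ag_h99x
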