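import Pool.Agent.Lib.MP_938ce2_ag_h99x.KD

/-!
Auxiliary primes.
-/

set_option autoImplicit false
set_option linter.style.haveILetI false
set_option linter.unusedSectionVars false

open Finset

namespace Pool.Agent.Lib.MP_938ce2_ag_h99x

open Pool.Agent.Lib.MP_938ce2_ag_h99 Pool.Agent.Lib.MP_938ce2_ag_h6
open Pool.Agent.Lib.MP_938ce2_ag_h99t Pool.Agent.Lib.MP_938ce2_ag_h99v

private lemma dir {n x : ℕ} (hn : n ≠ 0) (hx : x.Coprime n) (N : ℕ) :
    ∃ q : ℕ, q.Prime ∧ q ≡ x [MOD n] ∧ N < q := by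
  have : NeZero n := ⟨hn⟩
  have hu : IsUnit (x : ZMod n) := by
    rw [ZMod.isUnit_iff_coprime]; exact hx
  obtain ⟨q, hq, hqp, hqe⟩ := Nat.forall_exists_prime_gt_and_eq_mod hu N
  exact ⟨q, hqp, (ZMod.natCast_eq_natCast_iff _ _ _).1 hqe, hq⟩

private lemma jac_congr {p n q x : ℕ} (hpn : p ∣ n) (h : q ≡ x [MOD n]) :
    jacobiSym (q : ℤ) p = jacobiSym (x : ℤ) p := by
  have h' : q ≡ x [MOD p] := h.of_dvd hpn
  rw [jacobiSym.mod_left (q : ℤ), jacobiSym.mod_left (x : ℤ)]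
  have : ((q : ℤ) % (p : ℤ)) = (x : ℤ) % (p : ℤ) := by
    exact_mod_cast h'
  rw [this]

private lemma nonres {p : ℕ} (hp : p.Prime) (hp2 : p ≠ 2) :
    ∃ u : ℕ, jacobiSym (u : ℤ) p = -1 ∧ u.Coprime p := by
  have : Fact p.Prime := ⟨hp⟩
  have hc : ringChar (ZMod p) ≠ 2 := by
    rw [ZMod.ringChar_zmod_n]; exact hp2
  obtain ⟨a, ha⟩ := FiniteField.exists_nonsquare hc
  refine ⟨a.val, ?_, ?_⟩
  · rw [← jacobiSym.legendreSym.to_jacobiSym, legendreSym.eq_neg_one_iff]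
    simpa using ha
  · have ha0 : a ≠ 0 := by
      rintro rfl
      exact ha ⟨0, by simp⟩
    have : IsUnit a := isUnit_iff_ne_zero.2 ha0
    rw [← ZMod.isUnit_iff_coprime]
    simpa using this

private lemma ch_odd {p : ℕ} (hp2 : p ≠ 2) (a : ℤ) : ch p a = jacobiSym a p := by
  unfold ch; rw [if_neg hp2]

private lemma exists_one {P : Finset ℕ} (hP : ∀ p ∈ P, p.Prime ∧ p % 4 = 1) {p : ℕ} (hp : p ∈ P)
    (N : ℕ) : ∃ q : ℕ, q.Prime ∧ q % 4 = 3 ∧ N < q ∧ ch p q = -1 ∧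
      ∀ p' ∈ P, p' ≠ p → ch p' q = 1 := by
  have hne : ∀ x ∈ P, x ≠ 2 := by
    intro x hx h
    have := (hP x hx).2
    omega
  obtain ⟨u, hu, huc⟩ := nonres (hP p hp).1 (hne p hp)
  have c4x : ∀ x ∈ P, Nat.Coprime 4 x := by
    intro x hx
    have : Nat.Coprime 2 x := (Nat.coprime_primes Nat.prime_two (hP x hx).1).2 (hne x hx).symm
    exact Nat.Coprime.pow_left 2 this
  have c4Q : Nat.Coprime 4 (∏ x ∈ P.erase p, x) :=
    Nat.Coprime.prod_right fun x hx => c4x x (Finset.mem_of_mem_erase hx)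
  have cQp : Nat.Coprime (∏ x ∈ P.erase p, x) p :=
    Nat.Coprime.prod_left fun x hx =>
      (Nat.coprime_primes (hP x (Finset.mem_of_mem_erase hx)).1 (hP p hp).1).2
        (Finset.ne_of_mem_erase hx)
  set Q := ∏ x ∈ P.erase p, x with hQ
  have hQ0 : Q ≠ 0 := Finset.prod_ne_zero_iff.2 fun x hx =>
    (hP x (Finset.mem_of_mem_erase hx)).1.ne_zero
  have c4Qp : Nat.Coprime (4 * Q) p := Nat.Coprime.mul_left (c4x p hp) cQp
  obtain ⟨y, hy, hy'⟩ := Nat.chineseRemainder c4Q 3 1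
  obtain ⟨x, hx, hx'⟩ := Nat.chineseRemainder c4Qp y u
  have hx3 : x ≡ 3 [MOD 4] := (hx.of_dvd (Dvd.intro _ rfl)).trans hy
  have hxQ : x ≡ 1 [MOD Q] := (hx.of_dvd (Dvd.intro_left _ rfl)).trans hy'
  have hxc : x.Coprime (4 * Q * p) := by
    have e1 : x.Coprime 4 := by
      have := hx3.gcd_eq
      unfold Nat.Coprime
      rw [this]
      rfl
    have e2 : x.Coprime Q := by
      have := hxQ.gcd_eq
      unfold Nat.Coprime
      rw [this]
      simp
    have e3 : x.Coprime p := by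
      have := hx'.gcd_eq
      unfold Nat.Coprime
      rw [this]
      exact huc
    exact Nat.Coprime.mul_right (Nat.Coprime.mul_right e1 e2) e3
  have hn : 4 * Q * p ≠ 0 := by
    have := (hP p hp).1.ne_zero
    positivity
  obtain ⟨q, hq, hqx, hqN⟩ := dir hn hxc N
  refine ⟨q, hq, ?_, hqN, ?_, ?_⟩
  · have : q ≡ 3 [MOD 4] := (hqx.of_dvd (Dvd.intro (Q * p) (by ring))).trans hx3
    simpa [Nat.ModEq] using this
  · rw [ch_odd (hne p hp), jac_congr (Dvd.intro_left _ rfl) hqx, jac_congr (dvd_refl p) hx', hu]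
  · intro p' hp' hpp
    have h1 : p' ∣ Q := Finset.dvd_prod_of_mem (fun x => x) (Finset.mem_erase.2 ⟨hpp, hp'⟩)
    rw [ch_odd (hne p' hp'), jac_congr (h1.trans (Dvd.intro (4 * p) (by ring))) hqx,
      jac_congr h1 hxQ]
    simp

/-- For every `p ∈ P` a prime `r p = 3` modulo `4`, not in `S`, which is a nonresidue modulo `p` and
`1` modulo the other elements of `P` (Dirichlet and the Chinese remainder theorem; compare
`exists_aux_one`, `exists_aux_two` in h99v/A01.lean, A02.lean). The `r p` are different since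
`ch p (r p) = -1` and `ch p (r p') = 1`. -/
theorem exists_aux {S : Finset ℕ} (hS : PJ S) (hg : Gd S) :
    ∃ r ri : ℕ → ℕ, Aux S (S.filter (· % 4 = 1)) r ri := by
  have hP : ∀ p ∈ S.filter (· % 4 = 1), p.Prime ∧ p % 4 = 1 := fun p hp =>
    ⟨hS p (Finset.mem_filter.1 hp).1, (Finset.mem_filter.1 hp).2⟩
  choose! r h1 h2 h3 h4 h5 using fun p (hp : p ∈ S.filter (· % 4 = 1)) =>
    exists_one hP hp (∑ x ∈ S, x)
  have hinj : Set.InjOn r (S.filter (· % 4 = 1) : Finset ℕ) := by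
    intro p hp p' hp' he
    by_contra hne
    have e1 := h4 p hp
    have e2 := h5 p' hp' p hp hne
    rw [← he, e1] at e2
    norm_num at e2
  refine ⟨r, Function.invFunOn r (S.filter (· % 4 = 1) : Finset ℕ), ?_⟩
  refine ⟨hS, Finset.filter_subset _ _, fun p hp => (hP p hp).2, ?_, h1, h2, ?_, ?_, ?_, h4, ?_⟩
  · intro q hq hqP h
    exact hqP (Finset.mem_filter.2 ⟨hq, h⟩)
  · intro p hp hr
    have e1 := h3 p hp
    have e2 : r p ≤ ∑ x ∈ S, x := Finset.single_le_sum (f := fun x => x)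
      (fun _ _ => Nat.zero_le _) hr
    omega
  · intro p hp
    exact hinj.leftInvOn_invFunOn hp
  · intro p hp x hx hxp
    exact hg p (Finset.mem_filter.1 hp).1 (hP p hp).2 x hx hxp
  · intro p hp p' hp' hpp
    exact h5 p' hp' p hp hpp.symm

end Pool.Agent.Lib.MP_938ce2_ag_h99x
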