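import Pool.Agent.Lib.MP_938ce2_ag_h99x.K18
import Pool.Agent.Lib.MP_938ce2_ag_h99x.K20
import Pool.Agent.Lib.MP_938ce2_ag_h99x.K21

/-!
The classes of all good sets.
-/

set_option autoImplicit false
set_option linter.style.haveILetI false
set_option linter.unusedSectionVars false

open Finset

namespace Pool.Agent.Lib.MP_938ce2_ag_h99x

open Pool.Agent.Lib.MP_938ce2_ag_h99 Pool.Agent.Lib.MP_938ce2_ag_h6
open Pool.Agent.Lib.MP_938ce2_ag_h99t Pool.Agent.Lib.MP_938ce2_ag_h99v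

private lemma fJ_pos_aux {J : Finset ℕ} (h : PJ J) : 0 < fJ J :=
  Finset.prod_pos fun p hp => ep_pos (h p hp)

/-- Strong induction on the number of elements `1 mod 4` of `S`. With `r, ri` from `exists_aux` the
sets `L` in the hypothesis `hX` of `descend` are good, and have fewer elements `1 mod 4`: let `N` be
the product of `2 * fJ (LP S r P)` and of the integers for these `L` (take `1` for the other
subsets). Then `init`, `descend` with `k = M`, `excP_of_st`, for `X = YY GT1`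
(`thetaSub1_le_GT1`). -/
theorem excP_level : ∀ (n : ℕ) (S : Finset ℕ), (S.filter (· % 4 = 1)).card = n → PJ S →
    S.Nonempty → Even S.card → Gd S →
    ∃ N ≠ 0, ∀ (M : ℕ) [NeZero M], N ∣ M → ExcP (YY (GT1 (m := M))) S := by
  intro n
  induction n using Nat.strong_induction_on with
  | _ n ih =>
  intro S hcard hPJ hne hev hG
  classical
  obtain ⟨r, ri, hA⟩ := exists_aux hPJ hG
  set P := S.filter (· % 4 = 1) with hP
  have hT : PJ (LP S r P) := by
    intro q hq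
    rcases Finset.mem_union.1 hq with h | h
    · exact hPJ q h
    · obtain ⟨p, hp, rfl⟩ := Finset.mem_image.1 h
      exact hA.rprime p hp
  have hlev : ∀ L : Finset ℕ, ∃ N : ℕ, N ≠ 0 ∧ (L ⊆ LP S r P → (∃ p ∈ P, r p ∈ L) →
      (∀ p ∈ P, ¬ (p ∈ L ∧ r p ∈ L)) → Even L.card →
      ∀ (M : ℕ) [NeZero M], N ∣ M → ExcP (YY (GT1 (m := M))) L) := by
    intro L
    by_cases hL : L ⊆ LP S r P ∧ (∃ p ∈ P, r p ∈ L) ∧
      (∀ p ∈ P, ¬ (p ∈ L ∧ r p ∈ L)) ∧ Even L.card
    · obtain ⟨h1, h2, h3, h4⟩ := hL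
      obtain ⟨p0, hp0, hrp0⟩ := h2
      have hmem4 : ∀ p ∈ L, p % 4 = 1 → p ∈ P := by
        intro p hp hp4
        rcases Finset.mem_union.1 (h1 hp) with h | h
        · exact Finset.mem_filter.2 ⟨h, hp4⟩
        · obtain ⟨p', hp', rfl⟩ := Finset.mem_image.1 h
          have := hA.r3 p' hp'
          omega
      have hlt : (L.filter (· % 4 = 1)).card < n := by
        have hsub : L.filter (· % 4 = 1) ⊆ P.erase p0 := by
          intro p hp
          obtain ⟨hpL, hp4⟩ := Finset.mem_filter.1 hp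
          refine Finset.mem_erase.2 ⟨?_, hmem4 p hpL hp4⟩
          rintro rfl
          exact h3 p hp0 ⟨hpL, hrp0⟩
        have h5 := Finset.card_le_card hsub
        rw [Finset.card_erase_of_mem hp0] at h5
        have h6 : 0 < P.card := Finset.card_pos.2 ⟨p0, hp0⟩
        omega
      have hGL : Gd L := by
        intro p hp hp4 x hx hxp
        have hpP := hmem4 p hp hp4
        rcases Finset.mem_union.1 (h1 hx) with h | h
        · exact hA.good p hpP x h hxp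
        · obtain ⟨p', hp', rfl⟩ := Finset.mem_image.1 h
          refine hA.rr' p hpP p' hp' ?_
          rintro rfl
          exact h3 p' hp' ⟨hp, hx⟩
      obtain ⟨N, hN, hN'⟩ := ih _ hlt L rfl (hT.mono h1) ⟨_, hrp0⟩ h4 hGL
      exact ⟨N, hN, fun _ _ _ _ => hN'⟩
    · exact ⟨1, one_ne_zero, fun h1 h2 h3 h4 => absurd ⟨h1, h2, h3, h4⟩ hL⟩
  choose NL hNL0 hNL using hlev
  refine ⟨(2 * fJ (LP S r P)) * ∏ L ∈ (LP S r P).powerset, NL L, ?_, ?_⟩
  · refine mul_ne_zero (mul_ne_zero two_ne_zero (fJ_pos_aux hT).ne') ?_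
    exact Finset.prod_ne_zero_iff.2 fun L _ => hNL0 L
  · intro M _ hM
    have hM1 : 2 * fJ (LP S r P) ∣ M := (Dvd.intro _ rfl).trans hM
    have hM2 : ∏ L ∈ (LP S r P).powerset, NL L ∣ M := (Dvd.intro_left _ rfl).trans hM
    have h2M : 2 ∣ M := (Dvd.intro _ rfl).trans hM1
    have hfM : fJ (LP S r P) ∣ M := (Dvd.intro_left _ rfl).trans hM1
    obtain ⟨x0, hx0⟩ := hne
    obtain ⟨F, hF⟩ := init (X := YY (GT1 (m := M))) (fun F hF hT => thetaSub1_le_GT1 h2M hF hT)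
      hA hfM hx0 hev
    have hX : ∀ L, L ⊆ LP S r P → (∃ p ∈ P, r p ∈ L) → (∀ p ∈ P, ¬ (p ∈ L ∧ r p ∈ L)) →
        Even L.card → ExcP (YY (GT1 (m := M))) L := by
      intro L h1 h2 h3 h4
      exact hNL L h1 h2 h3 h4 M ((Finset.dvd_prod_of_mem _ (Finset.mem_powerset.2 h1)).trans hM2)
    obtain ⟨F', hF', hs⟩ := descend hA hfM hx0 hX M F hF fun a _ _ => by
      have h1 : addOrderOf a ≤ Nat.card (ZMod M) := addOrderOf_le_card
      rwa [Nat.card_zmod] at h1
    exact excP_of_st hA hfM hx0 hF' hs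

/-- all pairs and all good sets of prime factors of `m` -/
theorem exists_level2 {m : ℕ} (hm : m ≠ 0) : ∃ N ≠ 0, ∀ (M : ℕ) [NeZero M], N ∣ M →
    (∀ p q, p.Prime → q.Prime → p ∣ m → q ∣ m → p < q → NB p q → PX (YY (GT1 (m := M))) p q) ∧
    ∀ S, S ⊆ m.primeFactors → S.Nonempty → Even S.card → Gd S →
      ExcP (YY (GT1 (m := M))) S := by
  classical
  obtain ⟨N1, hN1, hN1'⟩ := exists_level hm
  have hlev : ∀ S : Finset ℕ, ∃ N : ℕ, N ≠ 0 ∧ (S ⊆ m.primeFactors → S.Nonempty → Even S.card →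
      Gd S → ∀ (M : ℕ) [NeZero M], N ∣ M → ExcP (YY (GT1 (m := M))) S) := by
    intro S
    by_cases hS : S ⊆ m.primeFactors ∧ S.Nonempty ∧ Even S.card ∧ Gd S
    · obtain ⟨h1, h2, h3, h4⟩ := hS
      have hPJ : PJ S := fun p hp => Nat.prime_of_mem_primeFactors (h1 hp)
      obtain ⟨N, hN, hN'⟩ := excP_level _ S rfl hPJ h2 h3 h4
      exact ⟨N, hN, fun _ _ _ _ => hN'⟩
    · exact ⟨1, one_ne_zero, fun h1 h2 h3 h4 => absurd ⟨h1, h2, h3, h4⟩ hS⟩
  choose NS hNS0 hNS using hlev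
  refine ⟨N1 * ∏ S ∈ m.primeFactors.powerset, NS S,
    mul_ne_zero hN1 (Finset.prod_ne_zero_iff.2 fun S _ => hNS0 S), ?_⟩
  intro M _ hM
  have hM1 : N1 ∣ M := (Dvd.intro _ rfl).trans hM
  have hM2 : ∏ S ∈ m.primeFactors.powerset, NS S ∣ M := (Dvd.intro_left _ rfl).trans hM
  refine ⟨hN1' M hM1, fun S h1 h2 h3 h4 => ?_⟩
  exact hNS S h1 h2 h3 h4 M ((Finset.dvd_prod_of_mem _ (Finset.mem_powerset.2 h1)).trans hM2)

end Pool.Agent.Lib.MP_938ce2_ag_h99x
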