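import Pool.Agent.Lib.MP_938ce2_ag_h99v.G08

/-!
Definitions: sets of primes and their classes.
-/

set_option autoImplicit false
set_option linter.style.haveILetI false
set_option linter.unusedSectionVars false

open Finset

namespace Pool.Agent.Lib.MP_938ce2_ag_h99x

open Pool.Agent.Lib.MP_938ce2_ag_h99 Pool.Agent.Lib.MP_938ce2_ag_h6
open Pool.Agent.Lib.MP_938ce2_ag_h99t Pool.Agent.Lib.MP_938ce2_ag_h99v

variable {m : ℕ} [NeZero m]


open Classical in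
/-- an integer congruent to the sign `ε q` modulo `ep q` for all `q` in `L` -/
noncomputable def cr (L : Finset ℕ) (ε : ℕ → ℤˣ) : ℤ :=
  if h : ∃ k : ℤ, ∀ q ∈ L, (ep q : ℤ) ∣ k - (ε q : ℤ) then h.choose else 0

/-- the value at the point of order `fJ L` with the signs `ε` -/
noncomputable def val (F : ZMod m → ℤ) (L : Finset ℕ) (ε : ℕ → ℤˣ) : ℤ :=
  F (pt m (fJ L) (cr L ε))

/-- the signs `-1` on `J` and `1` elsewhere -/
def sJ (J : Finset ℕ) (q : ℕ) : ℤˣ := if q ∈ J then -1 else 1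

/-- the sum over all signs with value `1` at `x0` -/
noncomputable def Om0 (F : ZMod m → ℤ) (L : Finset ℕ) (x0 : ℕ) : ℤ :=
  ∑ J ∈ (L.erase x0).powerset, val F L (sJ J)

/-- the class of the set `L` of primes belongs to `X` -/
def ExcP (X : AddSubgroup (ZMod m → ℤ)) (L : Finset ℕ) : Prop :=
  ∃ E : ZMod m → ℤ, InX X E ∧
    (∀ a, E a ≠ 0 → addOrderOf a ∣ Nat.lcm 2 (fJ L) ∧ addOrderOf a ≤ fJ L) ∧
    ∃ x0 ∈ L, Odd (Om0 E L x0)

/-- all elements are quadratic residues modulo the other elements `1 mod 4` -/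
def Gd (S : Finset ℕ) : Prop := ∀ p ∈ S, p % 4 = 1 → ∀ x ∈ S, x ≠ p → ch p x = 1

/-- `r p` are auxiliary primes for the primes `p ∈ P`, which are the elements `1 mod 4` of `S` -/
structure Aux (S P : Finset ℕ) (r ri : ℕ → ℕ) : Prop where
  prime : PJ S
  PS : P ⊆ S
  P1 : ∀ p ∈ P, p % 4 = 1
  Q3 : ∀ q ∈ S, q ∉ P → q % 4 ≠ 1
  rprime : ∀ p ∈ P, (r p).Prime
  r3 : ∀ p ∈ P, r p % 4 = 3
  rS : ∀ p ∈ P, r p ∉ S
  rri : ∀ p ∈ P, ri (r p) = p
  good : ∀ p ∈ P, ∀ x ∈ S, x ≠ p → ch p x = 1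
  rr : ∀ p ∈ P, ch p (r p) = -1
  rr' : ∀ p ∈ P, ∀ p' ∈ P, p' ≠ p → ch p (r p') = 1

/-- the set `S` together with the auxiliary primes of `C` -/
def LP (S : Finset ℕ) (r : ℕ → ℕ) (C : Finset ℕ) : Finset ℕ := S ∪ C.image r

/-- the signs `sJ J` on `S`, and the opposite sign of `p` at the auxiliary prime `r p` -/
def eJ (S : Finset ℕ) (ri : ℕ → ℕ) (J : Finset ℕ) (q : ℕ) : ℤˣ :=
  if q ∈ S then sJ J q else - sJ J (ri q)

/-- the sum over the signs at the level `LP S r C` -/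
noncomputable def Om (F : ZMod m → ℤ) (S : Finset ℕ) (r ri : ℕ → ℕ) (x0 : ℕ) (C : Finset ℕ) : ℤ :=
  ∑ J ∈ (S.erase x0).powerset, val F (LP S r C) (eJ S ri J)

/-- the total sum -/
noncomputable def OmT (F : ZMod m → ℤ) (S P : Finset ℕ) (r ri : ℕ → ℕ) (x0 : ℕ) : ℤ :=
  ∑ C ∈ P.powerset, Om F S r ri x0 C

/-- the invariant of the descent -/
structure St (X : AddSubgroup (ZMod m → ℤ)) (S P : Finset ℕ) (r ri : ℕ → ℕ) (x0 : ℕ)
    (F : ZMod m → ℤ) : Prop where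
  inX : InX X F
  supp : ∀ a, F a ≠ 0 → addOrderOf a ∣ Nat.lcm 2 (fJ (LP S r P))
  con : ∀ L, L ⊆ LP S r P → ∀ p ∈ P, p ∈ L → r p ∈ L → ∀ k : ℤ, IsCoprime k (fJ L : ℤ) →
    F (pt m (fJ L) k) ≠ 0 → ch p k = 1
  ev : ∀ a, F a ≠ 0 → addOrderOf a % 4 = 2 →
    (∀ p ∈ P, ¬ (p ∣ addOrderOf a ∧ r p ∣ addOrderOf a)) ∧ ¬ fJ S ∣ addOrderOf a
  om : Odd (OmT F S P r ri x0)

/-- the function `F` after removing the order `fJ L`, where `F` is there the sum of the `A v`,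
`v ∈ V` -/
noncomputable def pc (L V : Finset ℕ) (A : ℕ → ℤ → ℤ) (F : ZMod m → ℤ) : ZMod m → ℤ :=
  F - ∑ v ∈ V, (pl m (fJ L) (A v) - pl m (fJ (L.erase v)) (fun k => A v k - A v ((v : ℤ) * k)))

/-- the unit of `ZMod (fJ L)` with the signs `ε` -/
noncomputable def ue (L : Finset ℕ) (ε : ℕ → ℤˣ) : (ZMod (fJ L))ˣ :=
  open Classical in
  if h : IsUnit ((cr L ε : ℤ) : ZMod (fJ L)) then h.unit else 1

end Pool.Agent.Lib.MP_938ce2_ag_h99x
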